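import Pool.Agent.Lib.MP_a785f2_an.N4.BdryA

open MeasureTheory Metric Set Filter Topology
open scoped ContDiff RealInnerProductSpace ENNReal Convolution

namespace Pool.Agent.Lib.MP_a785f2_an.N4

open HS NH

variable {m : ℕ} {H : Type} [NormedAddCommGroup H] [NormedSpace ℝ H]
  {a : V m → H →L[ℝ] V m →L[ℝ] V m} {b : V m → H} {L : ℝ}
  {Ω : Set (D 4)} {u : D 4 → V m} {G : D 4 → D 4 →L[ℝ] V m} {x0 : D 4} {t δ : ℝ}

/-- The boundary term. -/
theorem bdry (κ : ℝ) {B : ℝ} (hB : 1 ≤ B) : ∃ C : ℝ, 1 ≤ C ∧ ∀ (Ω : Set (D 4)) (u : D 4 → V m)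
    (G : D 4 → D 4 →L[ℝ] V m) (x0 : D 4) (t δ : ℝ) (J : ℕ) (W : ℕ → D 4 → V m),
    Chn a b Ω u G x0 t δ κ J W →
    ∀ η : ℝ, 0 < η → η ≤ 1 →
    ∫ y in closedBall x0 t \ closedBall x0 (t / 2), ‖G y‖ ≤ η * δ * t ^ 3 →
    ∀ χ : D 4 → ℝ, Cut χ x0 t B → ∀ h : ℝ, δ ≤ h →
      ∫ x in closedBall x0 (13 * t / 16), ‖fderiv ℝ χ x‖ ^ 4 *
        (‖W J x‖ ^ 4 * wt h (W J x) ^ 5) ≤ C * η * δ ^ 4 := by
  obtain ⟨C, hC, hrad⟩ := rad_bd (a := a) (b := b) κ
  have C0 : 0 ≤ C := zero_le_one.trans hC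
  have K11 : 1 ≤ bk1 262144 := by unfold bk1; norm_num
  have K20 : 0 ≤ bk2 C := by unfold bk2; positivity
  have B0 : 0 < B := lt_of_lt_of_le one_pos hB
  refine ⟨B ^ 4 * (16 * bk1 262144 + 8 * bk2 C),
    one_le_mul_of_one_le_of_one_le (one_le_pow₀ hB) (by linarith),
    fun Ω u G x0 t δ J W Z η η0 η1 hη χ hχ h hh => ?_⟩
  have X := Z.X
  have ht := X.t0
  have hδ := X.dp
  have mS : MeasurableSet (Sh x0 t) := measurableSet_closedBall.diff measurableSet_ball
  obtain ⟨vf, vl⟩ := bd_vol x0 ht.le (A := Sh x0 t)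
    (sdiff_subset.trans (closedBall_subset_closedBall (by linarith)))
  have mA' : MeasurableSet (closedBall x0 t \ closedBall x0 (t / 2)) :=
    measurableSet_closedBall.diff measurableSet_closedBall
  obtain ⟨li, lb⟩ := X.lam_int 0 J mS mA'
    (sdiff_subset.trans (closedBall_subset_closedBall (by linarith))) (fun x hx y hy => by
    have h1 : dist x x0 ≤ 13 * t / 16 := hx.1
    have h2 : 11 * t / 16 ≤ dist x x0 := not_lt.1 hx.2
    have h3 : dist y x ≤ t / 8 := by simpa using hy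
    have h4 := dist_triangle y x x0
    have h5 := dist_triangle x y x0
    rw [dist_comm x y] at h5
    refine ⟨?_, fun h6 => ?_⟩
    · show dist y x0 ≤ t
      linarith
    · have h7 : dist y x0 ≤ t / 2 := h6
      linarith)
  have lb' : ∫ x in Sh x0 t, lam G t δ 0 J x ≤ 8 * η * t ^ 4 := by
    refine lb.trans ?_
    rw [div_le_iff₀ hδ, pow_zero, div_one]
    calc 8 * t * ∫ y in closedBall x0 t \ closedBall x0 (t / 2), ‖G y‖
        ≤ 8 * t * (η * δ * t ^ 3) := mul_le_mul_of_nonneg_left hη (by positivity)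
      _ = 8 * η * t ^ 4 * δ := by ring
  have e1 : ∫ x in closedBall x0 (13 * t / 16), ‖fderiv ℝ χ x‖ ^ 4 *
        (‖W J x‖ ^ 4 * wt h (W J x) ^ 5) =
      ∫ x in Sh x0 t, ‖fderiv ℝ χ x‖ ^ 4 * (‖W J x‖ ^ 4 * wt h (W J x) ^ 5) := by
    refine setIntegral_eq_of_subset_of_forall_sdiff_eq_zero measurableSet_closedBall sdiff_subset
      fun x hx => ?_
    have h1 : x ∈ ball x0 (11 * t / 16) := by
      by_contra h2
      exact hx.2 ⟨hx.1, h2⟩
    rw [hχ.zero x h1]; simp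
  rw [e1]
  refine (bd_int mS vf (c := (B / t) ^ 4 * δ ^ 4) (k1 := bk1 262144 * η) (by positivity)
    (by positivity) K20 vl li lb' (fun x => ?_) fun x hx => ?_).trans (le_of_eq ?_)
  · have := one_le_wt h (W J x)
    positivity
  · obtain ⟨τ, τ0, hb, hp⟩ := hrad Ω u G x0 t δ J W Z x
      (closedBall_subset_closedBall (by linarith) hx.1) 0 (Nat.zero_le _) (by simp)
    have w0 := X.w0_sh hη hx
    have w1 := one_le_wt h (W J x)
    rw [Z.w0] at hb
    have k := bd_real (q := 5) (K := 262144) (by norm_num) hδ hh (norm_nonneg (W J x))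
      (by linarith) (wt_sq h (W J x)) η0.le η1 C0 (by norm_num) τ0
      (by simp only [Nat.cast_zero, zero_add] at hb; linarith) hp
    rw [mul_assoc ((B / t) ^ 4)]
    exact mul_le_mul (pow_le_pow_left₀ (norm_nonneg _) (hχ.der x) 4) k (by positivity)
      (by positivity)
  · field_simp

/-- A high moment on the large cube. -/
theorem mom (κ : ℝ) : ∃ C : ℝ, 1 ≤ C ∧ ∀ (Ω : Set (D 4)) (u : D 4 → V m)
    (G : D 4 → D 4 →L[ℝ] V m) (x0 : D 4) (t δ : ℝ) (J : ℕ) (W : ℕ → D 4 → V m),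
    Chn a b Ω u G x0 t δ κ J W →
      ∫ x in closedBall x0 (5 * t / 4), ‖W J x‖ ^ 4 * wt δ (W J x) ^ 9 ≤ C * δ ^ 4 * t ^ 4 := by
  obtain ⟨C, hC, hrad⟩ := rad_bd (a := a) (b := b) κ
  have C0 : 0 ≤ C := zero_le_one.trans hC
  have K11 : 1 ≤ bk1 40 := by unfold bk1; norm_num
  have K20 : 0 ≤ bk2 C := by unfold bk2; positivity
  refine ⟨256 * bk1 40 + 64 * bk2 C, by linarith, fun Ω u G x0 t δ J W Z => ?_⟩
  have X := Z.X
  have ht := X.t0
  have hδ := X.dp
  obtain ⟨vf, vl⟩ := bd_vol x0 (r := 2 * t) (by linarith) (A := closedBall x0 (5 * t / 4))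
    (closedBall_subset_closedBall (by linarith))
  obtain ⟨li, lb⟩ := X.lam_int 0 J (A := closedBall x0 (5 * t / 4)) measurableSet_closedBall
    measurableSet_closedBall subset_rfl fun x hx => closedBall_subset_closedBall' (by
      have h1 : dist x x0 ≤ 5 * t / 4 := hx
      rw [pow_zero, div_one]
      linarith)
  have lb' : ∫ x in closedBall x0 (5 * t / 4), lam G t δ 0 J x ≤ 64 * t ^ 4 := by
    refine lb.trans ?_
    rw [div_le_iff₀ hδ, pow_zero, div_one]
    calc 8 * t * ∫ y in closedBall x0 (2 * t), ‖G y‖ ≤ 8 * t * (δ * (2 * t) ^ 3) :=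
          mul_le_mul_of_nonneg_left (X.mor x0 (2 * t) X.tp (by simp)) (by positivity)
      _ = 64 * t ^ 4 * δ := by ring
  refine (bd_int measurableSet_closedBall vf (c := δ ^ 4) (k1 := bk1 40 * 1) (by positivity)
    (by positivity) K20 vl li lb' (fun x => ?_) fun x hx => ?_).trans (le_of_eq ?_)
  · have := one_le_wt δ (W J x)
    positivity
  · have hx' : x ∈ closedBall x0 (3 * t / 2) := closedBall_subset_closedBall (by linarith) hx
    obtain ⟨τ, τ0, hb, hp⟩ := hrad Ω u G x0 t δ J W Z x hx' 0 (Nat.zero_le _) (by simp)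
    have w0 := X.w0_in hx'
    have w1 := one_le_wt δ (W J x)
    rw [Z.w0] at hb
    exact bd_real (q := 9) (K := 40) le_rfl hδ le_rfl (norm_nonneg (W J x)) (by linarith)
      (wt_sq δ (W J x)) zero_le_one le_rfl C0 (by norm_num) τ0
      (by simp only [Nat.cast_zero, zero_add] at hb; linarith) hp
  · ring

end Pool.Agent.Lib.MP_a785f2_an.N4
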