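import Pool.Agent.Lib.MP_a785f2_an.N4.Rad

open MeasureTheory Metric Set Filter Topology
open scoped ContDiff RealInnerProductSpace ENNReal Convolution

namespace Pool.Agent.Lib.MP_a785f2_an.N4

open HS NH

theorem bd_pow {K C η τ l : ℝ} (p : ℕ) (hp : 1 ≤ p) (hK : 0 ≤ K) (hC : 0 ≤ C) (η0 : 0 ≤ η)
    (η1 : η ≤ 1) (τ0 : 0 ≤ τ) (ht : τ ^ p ≤ C * l) :
    (K * η + C * τ) ^ p ≤ 2 ^ (p - 1) * (K ^ p * η + C ^ (p + 1) * l) := by
  have k2 : (C * τ) ^ p ≤ C ^ (p + 1) * l := by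
    rw [mul_pow, pow_succ, mul_assoc]
    exact mul_le_mul_of_nonneg_left ht (by positivity)
  have k3 : (K * η) ^ p ≤ K ^ p * η := by
    rw [mul_pow]
    exact mul_le_mul_of_nonneg_left (pow_le_of_le_one η0 η1 (by omega)) (by positivity)
  exact (add_pow_le (by positivity) (by positivity) p).trans (by gcongr)

/-- The first constant of the pointwise bound. -/
noncomputable def bk1 (K : ℝ) : ℝ := 256 * (8 * K ^ 4 + 4096 * K ^ 13)

/-- The second constant of the pointwise bound. -/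
noncomputable def bk2 (C : ℝ) : ℝ := 256 * (8 * C ^ 5 + 4096 * C ^ 14)

theorem bd_real {r w h δ η τ l C K : ℝ} {q : ℕ} (hq : q ≤ 9) (hδ : 0 < δ) (hh : δ ≤ h)
    (hr : 0 ≤ r) (hw0 : 0 ≤ w) (hw : w ^ 2 = 1 + r ^ 2 / h ^ 2) (η0 : 0 ≤ η) (η1 : η ≤ 1)
    (hC : 0 ≤ C) (hK : 0 ≤ K) (τ0 : 0 ≤ τ) (hb : r ≤ K * η * δ + C * δ * τ)
    (ht : ∀ p : ℕ, 1 ≤ p → p ≤ 13 → τ ^ p ≤ C * l) :
    r ^ 4 * w ^ q ≤ δ ^ 4 * (bk1 K * η + bk2 C * l) := by
  obtain ⟨ρ, rfl⟩ : ∃ ρ, r = δ * ρ := ⟨r / δ, by field_simp⟩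
  have ρ0 : 0 ≤ ρ := nonneg_of_mul_nonneg_right hr hδ
  have hρ : ρ ≤ K * η + C * τ := by
    refine le_of_mul_le_mul_left ?_ hδ
    linarith
  have h1 : (δ * ρ) ^ 2 / h ^ 2 ≤ ρ ^ 2 := by
    rw [div_le_iff₀ (pow_pos (lt_of_lt_of_le hδ hh) 2), mul_pow, mul_comm]
    exact mul_le_mul_of_nonneg_left (pow_le_pow_left₀ hδ.le hh 2) (sq_nonneg _)
  have h2 : w ≤ 1 + ρ := by
    refine le_of_sq_le_sq ?_ (by positivity)
    nlinarith
  have h3 : w ^ q ≤ 256 * (1 + ρ ^ 9) := by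
    have k := add_pow_le zero_le_one ρ0 9
    calc w ^ q ≤ (1 + ρ) ^ q := pow_le_pow_left₀ hw0 h2 q
      _ ≤ (1 + ρ) ^ 9 := pow_le_pow_right₀ (by linarith) hq
      _ ≤ 256 * (1 + ρ ^ 9) := by norm_num at k ⊢; linarith
  have h4 := (pow_le_pow_left₀ ρ0 hρ 4).trans
    (bd_pow 4 (by norm_num) hK hC η0 η1 τ0 (ht 4 (by norm_num) (by norm_num)))
  have h5 := (pow_le_pow_left₀ ρ0 hρ 13).trans
    (bd_pow 13 (by norm_num) hK hC η0 η1 τ0 (ht 13 (by norm_num) (by norm_num)))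
  calc (δ * ρ) ^ 4 * w ^ q ≤ (δ * ρ) ^ 4 * (256 * (1 + ρ ^ 9)) :=
        mul_le_mul_of_nonneg_left h3 (by positivity)
    _ = δ ^ 4 * (256 * (ρ ^ 4 + ρ ^ 13)) := by ring
    _ ≤ _ := by
        refine mul_le_mul_of_nonneg_left ?_ (by positivity)
        unfold bk1 bk2
        norm_num at h4 h5
        linarith

theorem bd_vol (x0 : D 4) {r : ℝ} (hr : 0 ≤ r) {A : Set (D 4)} (h : A ⊆ closedBall x0 r) :
    volume A ≠ ⊤ ∧ volume.real A ≤ 16 * r ^ 4 := by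
  have h1 : volume A ≤ ENNReal.ofReal (16 * r ^ 4) := by
    calc volume A ≤ volume (closedBall x0 r) := measure_mono h
      _ = ENNReal.ofReal ((2 * r) ^ 4) := by
          rw [Real.volume_pi_closedBall x0 hr, Fintype.card_fin]
      _ = ENNReal.ofReal (16 * r ^ 4) := by rw [mul_pow]; norm_num
  exact ⟨ne_top_of_le_ne_top ENNReal.ofReal_ne_top h1,
    ENNReal.toReal_le_of_le_ofReal (by positivity) h1⟩

theorem bd_int {A : Set (D 4)} (mA : MeasurableSet A) (vf : volume A ≠ ⊤) {f g : D 4 → ℝ}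
    {c k1 k2 v l : ℝ} (c0 : 0 ≤ c) (h1 : 0 ≤ k1) (h2 : 0 ≤ k2) (vl : volume.real A ≤ v)
    (gi : IntegrableOn g A) (gl : ∫ x in A, g x ≤ l) (f0 : ∀ x, 0 ≤ f x)
    (hf : ∀ x ∈ A, f x ≤ c * (k1 + k2 * g x)) : ∫ x in A, f x ≤ c * (v * k1 + k2 * l) := by
  have ci : IntegrableOn (fun _ : D 4 => k1) A := integrableOn_const vf
  calc ∫ x in A, f x ≤ ∫ x in A, c * (k1 + k2 * g x) :=
        integral_mono_of_nonneg (Eventually.of_forall f0)
          ((ci.add (gi.const_mul k2)).const_mul _) (ae_restrict_of_forall_mem mA hf)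
    _ = c * (volume.real A * k1 + k2 * ∫ x in A, g x) := by
        rw [integral_const_mul, integral_add ci (gi.const_mul k2), setIntegral_const,
          integral_const_mul, smul_eq_mul]
    _ ≤ _ := by gcongr

end Pool.Agent.Lib.MP_a785f2_an.N4
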