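import Pool.Agent.Lib.MP_a785f2_an.N4.Cut
import Pool.Agent.Lib.MP_a785f2_an.NH.Moll
import Pool.Agent.Lib.MP_a785f2_an.NH.Mass
import Pool.Agent.Lib.MP_a785f2_an.NH.Rec

open MeasureTheory Metric Set Filter Topology
open scoped ContDiff RealInnerProductSpace ENNReal Convolution

namespace Pool.Agent.Lib.MP_a785f2_an.N4

open HS NH

variable {m : ℕ} {H : Type} [NormedAddCommGroup H] [NormedSpace ℝ H]
  {a : V m → H →L[ℝ] V m →L[ℝ] V m} {b : V m → H} {L : ℝ}
  {Ω : Set (D 4)} {u : D 4 → V m} {G : D 4 → D 4 →L[ℝ] V m} {x0 : D 4} {t δ : ℝ}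

theorem Ctx.smU (X : Ctx Ω u G x0 t δ) (s : ℝ) (j : ℕ) : ContDiff ℝ 1 (UU u s j) := by
  exact (mol_smooth (by norm_num) X.sob (sc s j)).of_le (by exact_mod_cast le_top)

theorem Ctx.apx (X : Ctx Ω u G x0 (2 * t) δ) :
    Apx (closedBall x0 (3 * t / 2)) u G (UU u t) := by
  have ht := X.t0
  exact mol_apx (by norm_num) X.sob (s := t / 16) (by positivity)
    ((closedBall_subset_closedBall (by linarith)).trans X.sub)

theorem Ctx.zz_le (X : Ctx Ω u G x0 (2 * t) δ) {x : D 4} (hx : x ∈ closedBall x0 (3 * t / 2))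
    (j : ℕ) : zz G t j x ≤ δ := by
  have ht := X.t0
  have hs := sc_pos ht j
  have hs' := sc_le ht j
  have hd : dist x x0 ≤ 3 * t / 2 := hx
  unfold zz
  rw [div_le_iff₀ (by positivity)]
  exact X.mor x _ (by positivity) (by linarith)

theorem chain0 (S : Sob Ω u G) (ht : 0 < t) {x : D 4} {j : ℕ}
    (hx : closedBall x (2 * sc t j) ⊆ Ω) :
    ‖UU u t (j + 1) x - UU u t j x‖ ≤ 140 * zz G t j x ∧
      ‖fderiv ℝ (UU u t j) x‖ ≤ 140 * (zz G t j x / sc t j) ∧
      ‖fderiv ℝ (UU u t (j + 1)) x‖ ≤ 140 * (zz G t j x / sc t j) := by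
  have hs := sc_pos ht j
  have hsub : ∀ r, r ≤ 2 * sc t j → closedBall x r ⊆ Ω := fun r hr =>
    (closedBall_subset_closedBall hr).trans hx
  have hmono : ∀ r, r ≤ 2 * sc t j → mass G x r ≤ mass G x (2 * sc t j) := fun r hr =>
    mass_mono (by norm_num) S (closedBall_subset_closedBall hr) subset_rfl
  have hz : mass G x (2 * sc t j) = 8 * sc t j ^ 3 * zz G t j x := by
    unfold zz; field_simp; ring
  have hz0 := zz_nonneg G ht j x
  have hq : 0 ≤ zz G t j x / sc t j := div_nonneg hz0 hs.le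
  refine ⟨?_, ?_, ?_⟩
  · have h := mol_diff (by norm_num) S hs hx
    have e : ((2 : ℝ) ^ 4 + 1) * mass G x (2 * sc t j) / sc t j ^ (4 - 1) = 136 * zz G t j x := by
      rw [hz]; field_simp; ring
    rw [e] at h
    unfold UU
    rw [sc_succ]
    linarith
  · have h := mol_grad (by norm_num) S hs (hsub _ (by linarith))
    have h2 : mass G x (sc t j) / sc t j ^ 4 ≤ mass G x (2 * sc t j) / sc t j ^ 4 :=
      div_le_div_of_nonneg_right (hmono _ (by linarith)) (by positivity)
    have e : mass G x (2 * sc t j) / sc t j ^ 4 = 8 * (zz G t j x / sc t j) := by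
      rw [hz]; field_simp
    unfold UU
    linarith
  · have h := mol_grad (by norm_num) S (half_pos hs) (hsub _ (by linarith))
    have h2 : mass G x (sc t j / 2) / (sc t j / 2) ^ 4 ≤
        mass G x (2 * sc t j) / (sc t j / 2) ^ 4 :=
      div_le_div_of_nonneg_right (hmono _ (by linarith)) (by positivity)
    have e : mass G x (2 * sc t j) / (sc t j / 2) ^ 4 = 128 * (zz G t j x / sc t j) := by
      rw [hz]; field_simp; ring
    unfold UU
    rw [sc_succ]
    linarith

theorem Ctx.chain_sub (X : Ctx Ω u G x0 (2 * t) δ) {x : D 4}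
    (hx : x ∈ closedBall x0 (3 * t / 2)) (j : ℕ) : closedBall x (2 * sc t j) ⊆ Ω := by
  have ht := X.t0
  have hs' := sc_le ht j
  have hd : dist x x0 ≤ 3 * t / 2 := hx
  exact (closedBall_subset_closedBall' (by linarith)).trans X.sub

theorem Ctx.chain (X : Ctx Ω u G x0 (2 * t) δ) {x : D 4} (hx : x ∈ closedBall x0 (3 * t / 2))
    (j : ℕ) : ‖UU u t (j + 1) x - UU u t j x‖ ≤ 140 * zz G t j x ∧
      ‖fderiv ℝ (UU u t j) x‖ ≤ 140 * (zz G t j x / sc t j) ∧
      ‖fderiv ℝ (UU u t (j + 1)) x‖ ≤ 140 * (zz G t j x / sc t j) := by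
  exact chain0 X.sob X.t0 (X.chain_sub hx j)

/-- A linear image of a Sobolev map is a Sobolev map. -/
theorem sob_comp (S : Sob Ω u G) (T : V m →L[ℝ] V m) :
    Sob Ω (fun y => T (u y)) fun y => T.comp (G y) := by
  refine ⟨S.op, T.continuous.comp_stronglyMeasurable S.mu, ?_, T.comp_memLp' S.lu, ?_,
    fun φ hφ hc hs w => ?_⟩
  · exact (ContinuousLinearMap.compL ℝ (D 4) (V m) (V m) T).continuous.comp_stronglyMeasurable S.mG
  · exact (ContinuousLinearMap.compL ℝ (D 4) (V m) (V m) T).comp_memLp' S.lG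
  · have h1 : Integrable fun x => fderiv ℝ φ x w • u x :=
      (S.liu (by norm_num)).integrable_smul_left_of_hasCompactSupport
        ((hφ.continuous_fderiv (by simp)).clm_apply continuous_const) (hc.fderiv_apply ℝ w)
    have h3 : MemLp (fun x => G x w) (4 : ℕ) volume :=
      (ContinuousLinearMap.apply ℝ (V m) w).comp_memLp' S.lG
    have h2 : Integrable fun x => φ x • G x w :=
      (h3.locallyIntegrable (by norm_num)).integrable_smul_left_of_hasCompactSupport
        hφ.continuous hc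
    have h := congrArg T (S.wk φ hφ hc hs w)
    rw [map_neg, ← T.integral_comp_comm h1, ← T.integral_comp_comm h2] at h
    simpa only [map_smul, ContinuousLinearMap.comp_apply] using h

/-- Mollification commutes with linear maps of the target. -/
theorem mol_comp (S : Sob Ω u G) (T : V m →L[ℝ] V m) (s : ℝ) :
    mol s (fun y => T (u y)) = fun y => T (mol s u y) := by
  funext x
  have h : ConvolutionExistsAt ((bmp 4 s).normed volume) u x
      (ContinuousLinearMap.lsmul ℝ ℝ) volume :=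
    (bmp 4 s).hasCompactSupport_normed.convolutionExists_left _ (bmp 4 s).continuous_normed
      (S.liu (by norm_num)) x
  simp only [mol, convolution_def]
  rw [← T.integral_comp_comm h]
  simp only [ContinuousLinearMap.lsmul_apply, map_smul]

/-- `chain0` for the Sobolev map `TV v ∘ u`, whose gradient is `tg G v`; mollification commutes
with `TV v`. -/
theorem Ctx.chainT (X : Ctx Ω u G x0 (2 * t) δ) {x : D 4} (hx : x ∈ closedBall x0 (3 * t / 2))
    (j : ℕ) (v : V m) : ‖TV v (UU u t (j + 1) x - UU u t j x)‖ ≤ 140 * zz (tg G v) t j x ∧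
      ‖(TV v).comp (fderiv ℝ (UU u t j) x)‖ ≤ 140 * (zz (tg G v) t j x / sc t j) ∧
      ‖(TV v).comp (fderiv ℝ (UU u t (j + 1)) x)‖ ≤ 140 * (zz (tg G v) t j x / sc t j) := by
  have h := chain0 (sob_comp X.sob (TV v)) X.t0 (X.chain_sub hx j)
  have e : ∀ i, UU (fun y => TV v (u y)) t i = fun y => TV v (UU u t i y) := fun i =>
    mol_comp X.sob (TV v) _
  have e' : ∀ i, fderiv ℝ (fun y => TV v (UU u t i y)) x =
      (TV v).comp (fderiv ℝ (UU u t i) x) := fun i =>
    ((TV v).hasFDerivAt.comp x ((X.smU t i).differentiable one_ne_zero x).hasFDerivAt).fderiv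
  rw [e, e, e', e', ← map_sub] at h
  exact h

theorem Ctx.w0_in (X : Ctx Ω u G x0 (2 * t) δ) {x : D 4} (hx : x ∈ closedBall x0 (3 * t / 2)) :
    ‖UU u t 0 x - UU u t 0 (cor x0 t)‖ ≤ 40 * δ := by
  have ht := X.t0
  have hδ := X.dp
  have hs : sc t 0 = t / 16 := by unfold sc; simp
  have hc : dist (cor x0 t) x0 ≤ 13 * t / 16 := by
    rw [dist_pi_le_iff (by positivity)]
    intro i
    rw [cor, Real.dist_eq, add_sub_cancel_left, abs_of_nonneg (by positivity)]
  have hg : ∀ y ∈ closedBall x0 (3 * t / 2), ‖fderiv ℝ (UU u t 0) y‖ ≤ 16 * δ / t := by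
    intro y hy
    have hd : dist y x0 ≤ 3 * t / 2 := hy
    have h := mol_grad (by norm_num) X.sob (s := t / 16) (by positivity) (x := y)
      ((closedBall_subset_closedBall' (by linarith)).trans X.sub)
    have h2 := X.mor y (t / 16) (by positivity) (by linarith)
    have h3 : mass G y (t / 16) / (t / 16) ^ 4 ≤ δ * (t / 16) ^ 3 / (t / 16) ^ 4 :=
      div_le_div_of_nonneg_right h2 (by positivity)
    have e : δ * (t / 16) ^ 3 / (t / 16) ^ 4 = 16 * δ / t := by field_simp
    unfold UU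
    rw [hs]
    linarith
  have h := (convex_closedBall x0 (3 * t / 2)).norm_image_sub_le_of_norm_fderiv_le
    (fun y _ => (X.smU t 0).differentiable one_ne_zero y) hg
    (mem_closedBall.2 (hc.trans (by linarith))) hx
  have hd : ‖x - cor x0 t‖ ≤ 40 * t / 16 := by
    rw [← dist_eq_norm]
    have h1 : dist x x0 ≤ 3 * t / 2 := hx
    have h3 := dist_triangle_right x (cor x0 t) x0
    linarith
  have h4 : 16 * δ / t * ‖x - cor x0 t‖ ≤ 16 * δ / t * (40 * t / 16) :=
    mul_le_mul_of_nonneg_left hd (by positivity)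
  have e : 16 * δ / t * (40 * t / 16) = 40 * δ := by field_simp
  exact h.trans (h4.trans e.le)

theorem Ctx.w0_sh (X : Ctx Ω u G x0 (2 * t) δ) {η : ℝ}
    (hη : ∫ y in closedBall x0 t \ closedBall x0 (t / 2), ‖G y‖ ≤ η * δ * t ^ 3)
    {x : D 4} (hx : x ∈ Sh x0 t) : ‖UU u t 0 x - UU u t 0 (cor x0 t)‖ ≤ 262144 * η * δ := by
  have ht := X.t0
  have hs : sc t 0 = t / 16 := by unfold sc; simp
  have hg : ∀ y ∈ Sh x0 t, ‖fderiv ℝ (UU u t 0) y‖ ≤ 65536 * η * δ / t := by
    intro y hy
    have hd : dist y x0 ≤ 13 * t / 16 := hy.1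
    have hd' : 11 * t / 16 ≤ dist y x0 := not_lt.1 hy.2
    have h := mol_grad (by norm_num) X.sob (s := t / 16) (by positivity) (x := y)
      ((closedBall_subset_closedBall' (by linarith)).trans X.sub)
    have h1 : closedBall y (t / 16) ⊆ closedBall x0 t \ closedBall x0 (t / 2) := by
      intro z hz
      have hz' : dist z y ≤ t / 16 := hz
      have h5 := dist_triangle z y x0
      have h6 := dist_triangle_left y x0 z
      refine ⟨?_, fun h7 => ?_⟩
      · rw [mem_closedBall]; linarith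
      · have h8 : dist z x0 ≤ t / 2 := h7
        linarith
    have h2 := (mass_mono (by norm_num) X.sob h1 sdiff_subset).trans hη
    have h3 : mass G y (t / 16) / (t / 16) ^ 4 ≤ η * δ * t ^ 3 / (t / 16) ^ 4 :=
      div_le_div_of_nonneg_right h2 (by positivity)
    have e : η * δ * t ^ 3 / (t / 16) ^ 4 = 65536 * η * δ / t := by field_simp; ring
    unfold UU
    rw [hs]
    linarith
  have h := shell_osc (X.smU t 0) ht hg hx
  have e : 4 * t * (65536 * η * δ / t) = 262144 * η * δ := by field_simp; ring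
  exact h.trans e.le

end Pool.Agent.Lib.MP_a785f2_an.N4
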