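import Pool.Agent.Lib.MP_a785f2_an.N4.Chain
import Pool.Agent.Lib.MP_a785f2_an.NH.Psi

open MeasureTheory Metric Set Filter Topology
open scoped ContDiff RealInnerProductSpace ENNReal Convolution

namespace Pool.Agent.Lib.MP_a785f2_an.N4

open HS NH

variable {m : ℕ} {H : Type} [NormedAddCommGroup H] [NormedSpace ℝ H]
  {a : V m → H →L[ℝ] V m →L[ℝ] V m} {b : V m → H} {L : ℝ}
  {Ω : Set (D 4)} {u : D 4 → V m} {G : D 4 → D 4 →L[ℝ] V m} {x0 : D 4} {t δ : ℝ}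

/-- The crude bound of the defect (field `st` with `v = 0`, `sg_zero`, induction on `j`). -/
theorem crude (T : Str a b L) (κ : ℝ) : ∃ C : ℝ, 1 ≤ C ∧ ∀ (Ω : Set (D 4)) (u : D 4 → V m)
    (G : D 4 → D 4 →L[ℝ] V m) (x0 : D 4) (t δ : ℝ) (J : ℕ) (W : ℕ → D 4 → V m),
    Chn a b Ω u G x0 t δ κ J W →
    ∀ x ∈ closedBall x0 (3 * t / 2), ∀ j ≤ J,
      sc t j * sg a b (UU u t j) (W j) x ≤ C * δ ^ 2 := by
  have hL : 1 ≤ L ^ 2 := one_le_pow₀ T.L1
  refine ⟨11200 * L ^ 2 + 4 * |κ|, by linarith [abs_nonneg κ], ?_⟩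
  intro Ω u G x0 t δ J W Y x hx j
  have ht := Y.X.t0
  have hδ := Y.X.dp
  have hk := Y.k1
  have hkd := Y.kd
  rw [abs_of_nonneg (by linarith : 0 ≤ κ)]
  have hδ1 : δ ≤ 1 := by nlinarith
  induction j with
  | zero =>
    intro _
    have h1 := sg_zero T (U := UU u t 0) (UU u t 0 (cor x0 t)) x
    have h2 := Y.X.w0_in hx
    have h3 := (Y.X.chain hx 0).2.1
    have h4 := Y.X.zz_le hx 0
    have hs := sc_pos ht 0
    have h5 : sc t 0 * ‖fderiv ℝ (UU u t 0) x‖ ≤ 140 * δ := by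
      calc sc t 0 * ‖fderiv ℝ (UU u t 0) x‖ ≤ sc t 0 * (140 * (zz G t 0 x / sc t 0)) := by gcongr
        _ = 140 * zz G t 0 x := by field_simp
        _ ≤ 140 * δ := by gcongr
    rw [Y.w0]
    calc sc t 0 * sg a b (UU u t 0) (fun x => UU u t 0 x - UU u t 0 (cor x0 t)) x
        ≤ sc t 0 * (2 * L ^ 2 * ‖UU u t 0 x - UU u t 0 (cor x0 t)‖ * ‖fderiv ℝ (UU u t 0) x‖) := by
          gcongr
      _ = 2 * L ^ 2 * ‖UU u t 0 x - UU u t 0 (cor x0 t)‖ * (sc t 0 * ‖fderiv ℝ (UU u t 0) x‖) := by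
          ring
      _ ≤ 2 * L ^ 2 * (40 * δ) * (140 * δ) := by gcongr
      _ = 11200 * L ^ 2 * δ ^ 2 := by ring
      _ ≤ (11200 * L ^ 2 + 4 * κ) * δ ^ 2 := by gcongr; linarith
  | succ j ih =>
    intro hj
    have ih' := ih (by omega)
    have h1 := Y.st x hx j (by omega) 0 (by simp)
    rw [tg_zero] at h1
    have hs := sc_pos ht j
    have hz := Y.X.zz_le hx j
    have hz0 := zz_nonneg G ht j x
    have hg := sg_nonneg a b (UU u t j) (W j) x
    set z := zz G t j x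
    set s := sc t j with hsd
    set p := sg a b (UU u t j) (W j) x
    set C := 11200 * L ^ 2 + 4 * κ with hC
    have hkz : κ * z ≤ 1 / 1000 := by nlinarith
    have h2 : κ * z * (z + δ * z) ≤ κ * δ * (δ + 1 * δ) := by gcongr
    have hC4 : 4 * κ * δ ^ 2 ≤ C * δ ^ 2 := by gcongr; linarith
    have hp : 0 ≤ s * p := by positivity
    rw [sc_succ, ← hsd]
    calc s / 2 * sg a b (UU u t (j + 1)) (W (j + 1)) x
        ≤ s / 2 * ((1 + κ * z) * p + κ * (z / s) * (z + δ * z)) := by gcongr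
      _ = ((1 + κ * z) * (s * p) + κ * z * (z + δ * z)) / 2 := by field_simp
      _ ≤ ((1 + 1 / 1000) * (C * δ ^ 2) + κ * δ * (δ + 1 * δ)) / 2 := by gcongr
      _ ≤ C * δ ^ 2 := by nlinarith [mul_pos (by linarith : 0 < κ) (pow_pos hδ 2)]

theorem vv_eq : (vv : V m → V m) = Yf 0 1 := by
  funext w
  rw [psi_eq, vv, br, one_pow]

theorem vv_fderiv_le (w v : V m) : ‖fderiv ℝ (vv : V m → V m) w v‖ ≤ 2 * (‖v‖ / br w) := by
  rw [vv_eq, psi_fderiv one_pos, one_pow]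
  have hb := br_pos w
  have hw := norm_le_br w
  change ‖(br w)⁻¹ • v - (⟪w, v⟫ / br w ^ 3) • w‖ ≤ _
  have h1 : ‖(br w)⁻¹ • v‖ = ‖v‖ / br w := by
    rw [norm_smul, norm_inv, Real.norm_of_nonneg hb.le, div_eq_inv_mul]
  have h2 : ‖(⟪w, v⟫ / br w ^ 3) • w‖ ≤ ‖v‖ / br w := by
    rw [norm_smul, Real.norm_eq_abs, abs_div, abs_of_pos (pow_pos hb 3)]
    calc |⟪w, v⟫| / br w ^ 3 * ‖w‖ ≤ ‖w‖ * ‖v‖ / br w ^ 3 * ‖w‖ := by
          gcongr; exact abs_real_inner_le_norm _ _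
      _ ≤ br w * ‖v‖ / br w ^ 3 * br w := by gcongr
      _ = ‖v‖ / br w := by field_simp
  linarith [norm_sub_le ((br w)⁻¹ • v) ((⟪w, v⟫ / br w ^ 3) • w)]

theorem fderiv_W_le (T : Str a b L) (U W : D 4 → V m) (x : D 4) :
    ‖fderiv ℝ W x‖ / br (W x) ≤ sg a b U W x + 2 * L ^ 2 * ‖fderiv ℝ U x‖ := by
  have hb := br_pos (W x)
  have hw := norm_le_br (W x)
  have hL : 1 ≤ L ^ 2 := one_le_pow₀ T.L1
  have e : fderiv ℝ W x = dfc a b U W x + br (W x) • fderiv ℝ U x -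
      om a b (U x) (fderiv ℝ U x) (W x) := by
    rw [dfc]; abel
  have h1 := om_norm T (U x) (fderiv ℝ U x) (W x)
  have h2 : ‖br (W x) • fderiv ℝ U x‖ = br (W x) * ‖fderiv ℝ U x‖ := by
    rw [norm_smul, Real.norm_of_nonneg hb.le]
  have h3 : ‖fderiv ℝ W x‖ ≤ ‖dfc a b U W x‖ + br (W x) * ‖fderiv ℝ U x‖ +
      L ^ 2 * ‖fderiv ℝ U x‖ * ‖W x‖ := by
    rw [e]
    refine (norm_sub_le _ _).trans (add_le_add ((norm_add_le _ _).trans ?_) h1)
    rw [h2]
  have h4 : L ^ 2 * ‖fderiv ℝ U x‖ * ‖W x‖ ≤ L ^ 2 * ‖fderiv ℝ U x‖ * br (W x) := by gcongr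
  have h5 : br (W x) * ‖fderiv ℝ U x‖ ≤ L ^ 2 * ‖fderiv ℝ U x‖ * br (W x) := by
    have k : 0 ≤ br (W x) * ‖fderiv ℝ U x‖ := by positivity
    nlinarith [mul_le_mul_of_nonneg_right hL k]
  rw [div_le_iff₀ hb, sg, add_mul, div_mul_cancel₀ _ hb.ne']
  linarith

theorem vv_tele {κ : ℝ} {J : ℕ} {W : ℕ → D 4 → V m} (Y : Chn a b Ω u G x0 t δ κ J W) {x : D 4}
    (hx : x ∈ closedBall x0 (3 * t / 2)) {j : ℕ} (i : ℕ) (hji : j ≤ i) (hi : i ≤ J) :
    ‖vv (W i x) - vv (W j x)‖ ≤ κ * Lam G t j i x := by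
  induction i, hji using Nat.le_induction with
  | base => simp [Lam]
  | succ i hji ih =>
    have h1 := ih (by omega)
    have h2 := Y.mv x hx i (by omega)
    rw [Lam, Finset.sum_Ico_succ_top hji, mul_add]
    have h3 := norm_sub_le_norm_sub_add_norm_sub (vv (W (i + 1) x)) (vv (W i x)) (vv (W j x))
    rw [Lam] at h1
    linarith

/-- The direction fields at two neighbouring points: telescope down to level `j` with `mv`, then
the mean value inequality for `vv ∘ W j`, whose derivative is at most `C δ / sc t j`. -/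
theorem cmp (T : Str a b L) (κ : ℝ) : ∃ C : ℝ, 1 ≤ C ∧ ∀ (Ω : Set (D 4)) (u : D 4 → V m)
    (G : D 4 → D 4 →L[ℝ] V m) (x0 : D 4) (t δ : ℝ) (J : ℕ) (W : ℕ → D 4 → V m),
    Chn a b Ω u G x0 t δ κ J W →
    ∀ x ∈ closedBall x0 (5 * t / 4), ∀ j ≤ J, ∀ y ∈ closedBall x (2 * sc t j),
      ‖vv (W J x) - vv (W J y)‖ ≤ C * (δ + Lam G t j J x + Lam G t j J y) := by
  obtain ⟨C, hC, hcr⟩ := crude T κ
  have hL : 1 ≤ L ^ 2 := one_le_pow₀ T.L1
  refine ⟨4 * (C + 280 * L ^ 2) + |κ|, by linarith [abs_nonneg κ], ?_⟩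
  intro Ω u G x0 t δ J W Y x hx j hj y hy
  have ht := Y.X.t0
  have hδ := Y.X.dp
  have hk := Y.k1
  have hkd := Y.kd
  rw [abs_of_nonneg (by linarith : 0 ≤ κ)]
  have hδ1 : δ ≤ 1 := by nlinarith
  have hs := sc_pos ht j
  have hsub : closedBall x (2 * sc t j) ⊆ closedBall x0 (3 * t / 2) := by
    apply closedBall_subset_closedBall'
    have := sc_le ht j
    have := mem_closedBall.1 hx
    linarith
  have hx' : x ∈ closedBall x (2 * sc t j) := mem_closedBall_self (by positivity)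
  have hvd : Differentiable ℝ (vv : V m → V m) := by
    rw [vv_eq]; exact (Yf_contDiff 0 one_pos).differentiable (by simp)
  have hWd : Differentiable ℝ (W j) := (Y.sm j).differentiable one_ne_zero
  have hder : ∀ z ∈ closedBall x (2 * sc t j),
      ‖fderiv ℝ (fun z => vv (W j z)) z‖ ≤ 2 * ((C + 280 * L ^ 2) * δ / sc t j) := by
    intro z hz
    have hz' := hsub hz
    have h1 := hcr Ω u G x0 t δ J W Y z hz' j hj
    have h2 := (Y.X.chain hz' j).2.1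
    have h3 := Y.X.zz_le hz' j
    have h4 := fderiv_W_le T (UU u t j) (W j) z
    have h5 : sc t j * ‖fderiv ℝ (UU u t j) z‖ ≤ 140 * δ := by
      calc sc t j * ‖fderiv ℝ (UU u t j) z‖ ≤ sc t j * (140 * (zz G t j z / sc t j)) := by gcongr
        _ = 140 * zz G t j z := by field_simp
        _ ≤ 140 * δ := by gcongr
    have h6 : C * δ ^ 2 ≤ C * δ := by
      gcongr
      nlinarith
    have h7 : ‖fderiv ℝ (W j) z‖ / br (W j z) ≤ (C + 280 * L ^ 2) * δ / sc t j := by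
      refine h4.trans ?_
      rw [le_div_iff₀ hs]
      have h8 : 2 * L ^ 2 * (sc t j * ‖fderiv ℝ (UU u t j) z‖) ≤ 2 * L ^ 2 * (140 * δ) := by gcongr
      nlinarith
    have e : fderiv ℝ (fun z => vv (W j z)) z = (fderiv ℝ vv (W j z)).comp (fderiv ℝ (W j) z) :=
      fderiv_comp z (hvd _) (hWd _)
    rw [e]
    refine ContinuousLinearMap.opNorm_le_bound _ (by positivity) fun v => ?_
    rw [ContinuousLinearMap.comp_apply]
    refine (vv_fderiv_le _ _).trans ?_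
    have hb := br_pos (W j z)
    calc 2 * (‖fderiv ℝ (W j) z v‖ / br (W j z))
        ≤ 2 * (‖fderiv ℝ (W j) z‖ * ‖v‖ / br (W j z)) := by
          gcongr; exact ContinuousLinearMap.le_opNorm _ _
      _ = 2 * (‖fderiv ℝ (W j) z‖ / br (W j z)) * ‖v‖ := by ring
      _ ≤ _ := by gcongr
  have hmv := (convex_closedBall x (2 * sc t j)).norm_image_sub_le_of_norm_fderiv_le
    (f := fun z => vv (W j z)) (fun z _ => (hvd _).comp z (hWd _)) hder hy hx'
  have hxy : ‖x - y‖ ≤ 2 * sc t j := by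
    rw [← dist_eq_norm, dist_comm]; exact mem_closedBall.1 hy
  have h1 : ‖vv (W j x) - vv (W j y)‖ ≤ 4 * (C + 280 * L ^ 2) * δ := by
    refine hmv.trans ?_
    calc 2 * ((C + 280 * L ^ 2) * δ / sc t j) * ‖x - y‖
        ≤ 2 * ((C + 280 * L ^ 2) * δ / sc t j) * (2 * sc t j) := by gcongr
      _ = 4 * (C + 280 * L ^ 2) * δ := by field_simp; ring
  have h2 := vv_tele Y (hsub hx') J hj le_rfl
  have h3 := vv_tele Y (hsub hy) J hj le_rfl
  have h4 := norm_sub_le_norm_sub_add_norm_sub (vv (W J x)) (vv (W j x)) (vv (W J y))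
  have h5 := norm_sub_le_norm_sub_add_norm_sub (vv (W j x)) (vv (W j y)) (vv (W J y))
  rw [norm_sub_rev (vv (W j y))] at h5
  have l1 := Lam_nonneg G ht j J x
  have l2 := Lam_nonneg G ht j J y
  have hA : 0 ≤ 4 * (C + 280 * L ^ 2) := by positivity
  nlinarith [mul_nonneg hA l1, mul_nonneg hA l2, mul_pos (by linarith : 0 < κ) hδ]

end Pool.Agent.Lib.MP_a785f2_an.N4
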