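import Pool.Agent.Lib.MP_a785f2_an.N4.Young
import Pool.Agent.Lib.MP_a785f2_an.NH.Moll
import Pool.Agent.Lib.MP_a785f2_an.NH.Mass
import Pool.Agent.Lib.MP_a785f2_an.HS.Rep

open MeasureTheory Metric Set Filter Topology
open scoped ContDiff RealInnerProductSpace ENNReal Convolution

namespace Pool.Agent.Lib.MP_a785f2_an.N4

open HS NH

variable {m : ℕ} {H : Type} [NormedAddCommGroup H] [NormedSpace ℝ H]
  {a : V m → H →L[ℝ] V m →L[ℝ] V m} {b : V m → H} {L : ℝ}
  {Ω : Set (D 4)} {u : D 4 → V m} {G : D 4 → D 4 →L[ℝ] V m} {x0 : D 4} {t δ : ℝ}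

theorem it_mor {R r : ℝ} {y : D 4} (h : Mor G x0 R δ) (hy : dist y x0 + r ≤ R) : Mor G y r δ :=
  fun z s hs hz => h z s hs (by linarith [dist_triangle z y x0])

theorem it_en (S : Sob Ω u G) {R r : ℝ} {y : D 4} (hy : dist y x0 + r ≤ R) :
    En G y r ≤ En G x0 R :=
  setIntegral_mono_set (S.powG (by norm_num)).integrableOn (ae_of_all _ fun _ => by positivity)
    (closedBall_subset_closedBall' (by linarith)).eventuallyLE

/-- Iteration of the decay. -/
theorem mor_iter (S : Sob Ω u G) {δ0 ε0 : ℝ} {N : ℕ}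
    (dec : ∀ (x0 : D 4) (t δ : ℝ), Ctx Ω u G x0 t δ → δ ≤ δ0 → En G x0 t ≤ ε0 →
      mass G x0 (t / 2 ^ N) ≤ δ / 2 * (t / 2 ^ N) ^ 3)
    (X : Ctx Ω u G x0 t δ) (h1 : δ ≤ δ0) (h2 : En G x0 t ≤ ε0) (k : ℕ) :
    Mor G x0 (t / (2 ^ N) ^ k) (δ / 2 ^ k) := by
  induction k with
  | zero => simpa using X.mor
  | succ k ih =>
    intro y r hr hy
    have hN : (1 : ℝ) ≤ 2 ^ N := one_le_pow₀ one_le_two
    have hN0 : (0 : ℝ) < 2 ^ N := by positivity
    have a1 : dist y x0 + r * 2 ^ N ≤ t / (2 ^ N) ^ k := by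
      rw [pow_succ, ← div_div, le_div_iff₀ hN0] at hy
      nlinarith [dist_nonneg (x := y) (y := x0)]
    have a2 : dist y x0 + r * 2 ^ N ≤ t := a1.trans (div_le_self X.tp.le (one_le_pow₀ hN))
    have hd := X.dp
    have := dec y (r * 2 ^ N) (δ / 2 ^ k) ⟨S, by positivity,
      (closedBall_subset_closedBall' (by linarith)).trans X.sub, it_mor ih a1, by positivity⟩
      ((div_le_self hd.le (one_le_pow₀ one_le_two)).trans h1) ((it_en S a2).trans h2)
    rwa [mul_div_cancel_right₀ _ hN0.ne', div_div, ← pow_succ] at this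

theorem it_geo {N : ℕ} (hN : 1 ≤ N) (J : ℕ) :
    ∑ j ∈ Finset.range J, (1 : ℝ) / 2 ^ (j / N) ≤ 2 * N := by
  have h : ∀ k : ℕ, ∑ j ∈ Finset.range (N * k), (1 : ℝ) / 2 ^ (j / N) = N * (2 - 2 / 2 ^ k) := by
    intro k
    induction k with
    | zero => simp
    | succ k ih =>
      have e : ∀ j ∈ Finset.range N, (1 : ℝ) / 2 ^ ((N * k + j) / N) = 1 / 2 ^ k := fun j hj => by
        rw [Nat.mul_add_div (by omega), Nat.div_eq_of_lt (Finset.mem_range.1 hj), add_zero]
      rw [mul_add, mul_one, Finset.sum_range_add, ih, Finset.sum_congr rfl e, Finset.sum_const,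
        Finset.card_range, nsmul_eq_mul, pow_succ]
      field_simp
      ring
  have h1 := Finset.sum_le_sum_of_subset_of_nonneg (f := fun j => (1 : ℝ) / 2 ^ (j / N))
    (Finset.range_mono (Nat.le_mul_of_pos_left J hN)) fun _ _ _ => by positivity
  rw [h] at h1
  have : (0 : ℝ) ≤ N * (2 / 2 ^ J) := by positivity
  linarith

theorem it_small (S : Sob Ω u G) (x0 : D 4) : Tendsto (En G x0) (𝓝[>] 0) (𝓝 0) := by
  refine (S.powG (by norm_num)).tendsto_setIntegral_nhds_zero ?_
  have h : Tendsto (fun r : ℝ => ENNReal.ofReal ((2 * r) ^ Fintype.card (Fin 4))) (𝓝[>] 0)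
      (𝓝 0) := by
    have c : Continuous fun r : ℝ => ENNReal.ofReal ((2 * r) ^ Fintype.card (Fin 4)) :=
      ENNReal.continuous_ofReal.comp (by fun_prop)
    simpa using (c.tendsto 0).mono_left nhdsWithin_le_nhds
  refine h.congr' (eventually_nhdsWithin_of_forall fun r hr => ?_)
  exact (Real.volume_pi_closedBall x0 (le_of_lt hr)).symm

/-- From the decay to a continuous representative. -/
theorem rep_of_decay (S : Sob Ω u G) {δ0 ε0 : ℝ} {N : ℕ} (h1 : 0 < δ0) (h2 : 0 < ε0)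
    (hN : 1 ≤ N)
    (dec : ∀ (x0 : D 4) (t δ : ℝ), Ctx Ω u G x0 t δ → δ ≤ δ0 → En G x0 t ≤ ε0 →
      mass G x0 (t / 2 ^ N) ≤ δ / 2 * (t / 2 ^ N) ^ 3) : Rep Ω u := by
  refine rep S.op fun x0 hx0 γ hγ => ?_
  have hN0 : (0 : ℝ) < N := by exact_mod_cast hN
  set δ : ℝ := min δ0 (γ / (544 * N)) with hδd
  have hδ : 0 < δ := lt_min h1 (by positivity)
  have hδγ : 272 * N * δ ≤ γ / 2 := by
    have := min_le_right δ0 (γ / (544 * N))
    rw [← hδd, le_div_iff₀ (by positivity)] at this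
    linarith
  obtain ⟨ρ, hρ, hsub⟩ := nhds_basis_closedBall.mem_iff.1 (S.op.mem_nhds hx0)
  obtain ⟨t, ⟨⟨e1, e2⟩, htρ⟩, ht⟩ :=
    (((((it_small S x0).eventually_le_const h2).and ((it_small S x0).eventually_le_const
      (by positivity : 0 < δ ^ 4 / 4096))).and
      ((eventually_le_nhds hρ).filter_mono nhdsWithin_le_nhds)).and self_mem_nhdsWithin).exists
  replace ht : 0 < t := ht
  have hs : closedBall x0 t ⊆ Ω := (closedBall_subset_closedBall htρ).trans hsub
  have hM := mor_start S hδ e2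
  have hc : ContinuousAt (mol (t / 4) u) x0 :=
    (mol_smooth (by norm_num) S _).continuous.continuousAt
  obtain ⟨r, hr, hcr⟩ := Metric.continuousAt_iff.1 hc (γ / 2) (half_pos hγ)
  have A := (mol_apx (by norm_num) S (s := t / 4) (R := t / 2) (by positivity)
    ((closedBall_subset_closedBall (by linarith)).trans hs)).ae
  have hb : ball x0 (min r (t / 2)) ⊆ closedBall x0 (t / 2) :=
    (ball_subset_ball (min_le_right _ _)).trans ball_subset_closedBall
  refine ⟨min r (t / 2), lt_min hr (half_pos ht), mol (t / 4) u x0, ?_⟩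
  filter_upwards [ae_restrict_of_ae_restrict_of_subset hb A,
    ae_restrict_mem measurableSet_ball] with x hx hxb
  have hd : dist x x0 + t / 2 ≤ t := by linarith [mem_closedBall.1 (hb hxb)]
  have X : Ctx Ω u G x (t / 2) δ := ⟨S, half_pos ht,
    (closedBall_subset_closedBall' (by linarith)).trans hs, it_mor hM hd, hδ⟩
  have step : ∀ j : ℕ, dist (mol (t / 4 / 2 ^ j) u x) (mol (t / 4 / 2 ^ (j + 1)) u x) ≤
      136 * δ * (1 / 2 ^ (j / N)) := fun j => by
    have s0 : 0 < t / 4 / 2 ^ j := by positivity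
    have a1 : 2 * (t / 4 / 2 ^ j) ≤ t / 2 / (2 ^ N) ^ (j / N) := by
      rw [← pow_mul, ← mul_div_assoc, (by ring : 2 * (t / 4) = t / 2)]
      exact div_le_div_of_nonneg_left (by positivity) (by positivity)
        (pow_le_pow_right₀ one_le_two (Nat.mul_div_le j N))
    have a2 : 2 * (t / 4 / 2 ^ j) ≤ t / 2 :=
      a1.trans (div_le_self (by positivity) (one_le_pow₀ (one_le_pow₀ one_le_two)))
    have a3 := mor_iter S dec X (min_le_left _ _) ((it_en S hd).trans e1) (j / N) x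
      (2 * (t / 4 / 2 ^ j)) (by positivity) (by simpa using a1)
    have a4 := mol_diff (by norm_num) S s0 ((closedBall_subset_closedBall a2).trans X.sub)
    rw [dist_comm, dist_eq_norm, pow_succ, ← div_div]
    refine a4.trans ?_
    rw [div_le_iff₀ (by positivity)]
    calc _ ≤ ((2 : ℝ) ^ 4 + 1) * (δ / 2 ^ (j / N) * (2 * (t / 4 / 2 ^ j)) ^ 3) := by gcongr
      _ = _ := by norm_num; ring
  have tot : ∀ J : ℕ, dist (mol (t / 4) u x) (mol (t / 4 / 2 ^ J) u x) ≤ γ / 2 := fun J => by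
    have := dist_le_range_sum_of_dist_le (f := fun j => mol (t / 4 / 2 ^ j) u x) J
      (d := fun j => 136 * δ * (1 / 2 ^ (j / N))) fun _ => step _
    rw [← Finset.mul_sum] at this
    have h3 := mul_le_mul_of_nonneg_left (it_geo hN J) (by positivity : 0 ≤ 136 * δ)
    simp only [pow_zero, div_one] at this
    linarith
  have lim : dist (mol (t / 4) u x) (u x) ≤ γ / 2 :=
    le_of_tendsto' (tendsto_const_nhds.dist hx) tot
  have h4 := hcr (ball_subset_ball (min_le_left _ _) hxb)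
  rw [← dist_eq_norm]
  linarith [dist_triangle_left (u x) (mol (t / 4) u x0) (mol (t / 4) u x)]

end Pool.Agent.Lib.MP_a785f2_an.N4
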