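import Pool.Agent.Lib.MP_a785f2_an.N4.Decay
import Pool.Agent.Lib.MP_a785f2_an.N4.Iter
import Pool.Agent.Lib.MP_a785f2_an.NH.Test

open MeasureTheory Metric Set Filter Topology
open scoped ContDiff RealInnerProductSpace ENNReal Convolution

namespace Pool.Agent.Lib.MP_a785f2_an.N4

open HS NH

variable {m : ℕ} {H : Type} [NormedAddCommGroup H] [NormedSpace ℝ H]
  {a : V m → H →L[ℝ] V m →L[ℝ] V m} {b : V m → H} {L : ℝ}
  {Ω : Set (D 4)} {u : D 4 → V m} {G : D 4 → D 4 →L[ℝ] V m} {x0 : D 4} {t δ : ℝ}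

theorem core_eqn (T : Str a b L) (S : Sob Ω u G) (hE : Eqn a b Ω u G) : Rep Ω u := by
  obtain ⟨δ0, ε0, N, h1, h2, hN, dec⟩ := decay T
  exact rep_of_decay S h1 h2 hN fun x0 t δ X h3 h4 => dec Ω u G x0 t δ X hE h3 h4

/-- The continuity theorem in dimension four, internal form. -/
theorem core (T : Str a b L) {F : D 4 → V m} (S : GSol Ω u G F)
    (hF : ∀ᵐ x, x ∈ Ω → F x = fro (G x) ^ (4 - 2) •
      ∑ α, a (u x) (fderiv ℝ b (u x) (col (G x) α)) (col (G x) α)) : Rep Ω u :=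
  core_eqn T S.sob (S.eqn (by norm_num) T hF)

end Pool.Agent.Lib.MP_a785f2_an.N4
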