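import Pool.Agent.Lib.MP_a785f2_an.N4.Defs

open MeasureTheory Metric Set Filter Topology
open scoped ContDiff RealInnerProductSpace ENNReal Convolution

namespace Pool.Agent.Lib.MP_a785f2_an.N4

open HS NH

variable {m : ℕ} {H : Type} [NormedAddCommGroup H] [NormedSpace ℝ H]
  {a : V m → H →L[ℝ] V m →L[ℝ] V m} {b : V m → H} {L : ℝ}
  {Ω : Set (D 4)} {u : D 4 → V m} {G : D 4 → D 4 →L[ℝ] V m} {x0 : D 4} {t δ : ℝ}

/-- Cut-off between two concentric cubes (rescale one bump). -/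
theorem exists_cut2 {r1 r2 : ℝ} (h1 : 0 < r1) (h2 : r1 < r2) : ∃ B : ℝ, 1 ≤ B ∧
    ∀ (x0 : D 4) (t : ℝ), 0 < t → ∃ χ : D 4 → ℝ, ContDiff ℝ 1 χ ∧
      tsupport χ ⊆ closedBall x0 (r2 * t) ∧ (∀ x, 0 ≤ χ x) ∧ (∀ x, χ x ≤ 1) ∧
      (∀ x ∈ closedBall x0 (r1 * t), χ x = 1) ∧ ∀ x, ‖fderiv ℝ χ x‖ ≤ B / t := by
  let φ : ContDiffBump (0 : D 4) := ⟨r1, r2, h1, h2⟩
  have hφ : ContDiff ℝ 1 φ := φ.contDiff
  obtain ⟨C, hC⟩ := (hφ.continuous_fderiv one_ne_zero).bounded_above_of_compact_support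
    (φ.hasCompactSupport.fderiv ℝ)
  refine ⟨max C 1, le_max_right _ _, fun x0 t ht => ⟨fun x => φ (t⁻¹ • (x - x0)), ?_⟩⟩
  have hn : ∀ x : D 4, dist (t⁻¹ • (x - x0)) 0 = dist x x0 / t := fun x => by
    rw [dist_zero_right, norm_smul, dist_eq_norm, norm_inv, Real.norm_of_nonneg ht.le,
      inv_mul_eq_div]
  refine ⟨hφ.comp (by fun_prop), ?_, fun x => φ.nonneg, fun x => φ.le_one,
    fun x hx => ?_, fun x => ?_⟩
  · refine closure_minimal (fun x hx => ?_) isClosed_closedBall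
    by_contra h
    refine hx (φ.zero_of_le_dist ?_)
    rw [hn, le_div_iff₀ ht]
    exact (not_le.1 (mt mem_closedBall.2 h)).le
  · refine φ.one_of_mem_closedBall ?_
    rw [mem_closedBall, hn, div_le_iff₀ ht]
    exact mem_closedBall.1 hx
  · have h2 : HasFDerivAt (fun x : D 4 => t⁻¹ • (x - x0))
        (t⁻¹ • ContinuousLinearMap.id ℝ (D 4)) x := ((hasFDerivAt_id x).sub_const x0).const_smul t⁻¹
    have h3 := ((hφ.differentiable one_ne_zero _).hasFDerivAt.comp x h2).fderiv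
    change fderiv ℝ (fun x => φ (t⁻¹ • (x - x0))) x = _ at h3
    rw [h3, ContinuousLinearMap.comp_smul, ContinuousLinearMap.comp_id, norm_smul, norm_inv,
      Real.norm_of_nonneg ht.le, inv_mul_eq_div]
    exact div_le_div_of_nonneg_right ((hC _).trans (le_max_left _ _)) ht.le

theorem exists_cut : ∃ B : ℝ, 1 ≤ B ∧ ∀ (x0 : D 4) (t : ℝ), 0 < t → ∃ χ, Cut χ x0 t B := by
  let φ : ContDiffBump (0 : D 4) := ⟨11 / 16, 13 / 16, by norm_num, by norm_num⟩
  have hφ : ContDiff ℝ 1 φ := φ.contDiff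
  obtain ⟨C, hC⟩ := (hφ.continuous_fderiv one_ne_zero).bounded_above_of_compact_support
    (φ.hasCompactSupport.fderiv ℝ)
  refine ⟨max C 1, le_max_right _ _, fun x0 t ht => ⟨fun x => φ (t⁻¹ • (x - x0)), ?_⟩⟩
  have hn : ∀ x : D 4, dist (t⁻¹ • (x - x0)) 0 = dist x x0 / t := fun x => by
    rw [dist_zero_right, norm_smul, dist_eq_norm, norm_inv, Real.norm_of_nonneg ht.le,
      inv_mul_eq_div]
  have h1 : ∀ x ∈ ball x0 (11 * t / 16), φ (t⁻¹ • (x - x0)) = 1 := fun x hx => by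
    refine φ.one_of_mem_closedBall ?_
    rw [mem_closedBall, hn, div_le_iff₀ ht]
    have := mem_ball.1 hx
    change _ ≤ 11 / 16 * t
    linarith
  refine ⟨hφ.comp (by fun_prop), ?_, fun x => φ.nonneg, fun x => φ.le_one,
    fun x hx => h1 x (closedBall_subset_ball (by linarith) hx), fun x => ?_, fun x hx => ?_⟩
  · refine closure_minimal (fun x hx => ?_) isClosed_closedBall
    by_contra h
    refine hx (φ.zero_of_le_dist ?_)
    rw [hn, le_div_iff₀ ht]
    have := not_le.1 (mt mem_closedBall.2 h)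
    change 13 / 16 * t ≤ _
    linarith
  · have h2 : HasFDerivAt (fun x : D 4 => t⁻¹ • (x - x0))
        (t⁻¹ • ContinuousLinearMap.id ℝ (D 4)) x := ((hasFDerivAt_id x).sub_const x0).const_smul t⁻¹
    have h3 := ((hφ.differentiable one_ne_zero _).hasFDerivAt.comp x h2).fderiv
    change fderiv ℝ (fun x => φ (t⁻¹ • (x - x0))) x = _ at h3
    rw [h3, ContinuousLinearMap.comp_smul, ContinuousLinearMap.comp_id, norm_smul, norm_inv,
      Real.norm_of_nonneg ht.le, inv_mul_eq_div]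
    exact div_le_div_of_nonneg_right ((hC _).trans (le_max_left _ _)) ht.le
  · have h2 : (fun x => φ (t⁻¹ • (x - x0))) =ᶠ[𝓝 x] fun _ => (1 : ℝ) :=
      Filter.eventually_of_mem (isOpen_ball.mem_nhds hx) h1
    rw [h2.fderiv_eq]
    simp

theorem slab_osc {U : D 4 → V m} (hU : ContDiff ℝ 1 U) (ht : 0 < t) {A : ℝ}
    (hA : ∀ y ∈ Sh x0 t, ‖fderiv ℝ U y‖ ≤ A) (i : Fin 4) {σ : ℝ} (hσ : |σ| = 1) {p q : D 4}
    (hp : p ∈ closedBall x0 (13 * t / 16)) (hq : q ∈ closedBall x0 (13 * t / 16))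
    (hp' : 11 * t / 16 ≤ σ * (p i - x0 i)) (hq' : 11 * t / 16 ≤ σ * (q i - x0 i)) :
    ‖U p - U q‖ ≤ 2 * t * A := by
  have hK : Convex ℝ (closedBall x0 (13 * t / 16) ∩
      {y : D 4 | 11 * t / 16 ≤ σ * (y i - x0 i)}) := by
    refine (convex_closedBall _ _).inter fun y hy z hz α β hα hβ hs => ?_
    simp only [mem_ofPred_eq, Pi.add_apply, Pi.smul_apply, smul_eq_mul] at hy hz ⊢
    obtain rfl : β = 1 - α := by linarith
    nlinarith [mul_le_mul_of_nonneg_left hy hα, mul_le_mul_of_nonneg_left hz hβ]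
  have hS : ∀ y ∈ closedBall x0 (13 * t / 16) ∩ {y : D 4 | 11 * t / 16 ≤ σ * (y i - x0 i)},
      y ∈ Sh x0 t := fun y hy => ⟨hy.1, fun h => by
    have h1 : dist (y i) (x0 i) < 11 * t / 16 := (dist_le_pi_dist y x0 i).trans_lt (mem_ball.1 h)
    have h2 : σ * (y i - x0 i) ≤ |y i - x0 i| := by
      refine (le_abs_self _).trans_eq ?_
      rw [abs_mul, hσ, one_mul]
    have h3 : 11 * t / 16 ≤ σ * (y i - x0 i) := hy.2
    rw [Real.dist_eq] at h1
    linarith⟩
  have h0 : 0 ≤ A := (norm_nonneg _).trans (hA p (hS p ⟨hp, hp'⟩))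
  have h1 := hK.norm_image_sub_le_of_norm_fderiv_le
    (fun y _ => hU.differentiable one_ne_zero y) (fun y hy => hA y (hS y hy)) ⟨hq, hq'⟩ ⟨hp, hp'⟩
  have h2 : ‖p - q‖ ≤ 2 * t := by
    rw [← dist_eq_norm]
    have := dist_triangle_right p q x0
    have := mem_closedBall.1 hp
    have := mem_closedBall.1 hq
    linarith
  nlinarith [mul_le_mul_of_nonneg_left h2 h0]

/-- Two segments inside the shell join a point to the corner. -/
theorem shell_osc {U : D 4 → V m} (hU : ContDiff ℝ 1 U) (ht : 0 < t) {A : ℝ}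
    (hA : ∀ y ∈ Sh x0 t, ‖fderiv ℝ U y‖ ≤ A) {x : D 4} (hx : x ∈ Sh x0 t) :
    ‖U x - U (cor x0 t)‖ ≤ 4 * t * A := by
  change ‖U x - U fun i => x0 i + 13 * t / 16‖ ≤ 4 * t * A
  obtain ⟨i, hi⟩ : ∃ i, 11 * t / 16 ≤ |x i - x0 i| := by
    by_contra h
    push Not at h
    exact hx.2 (mem_ball.2 ((dist_pi_lt_iff (by positivity)).2 h))
  obtain ⟨σ, hσ, hσ'⟩ : ∃ σ : ℝ, |σ| = 1 ∧ 11 * t / 16 ≤ σ * (x i - x0 i) := by
    rcases le_abs.1 hi with h | h
    · exact ⟨1, abs_one, by linarith⟩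
    · exact ⟨-1, by simp, by linarith⟩
  obtain ⟨j, hj⟩ := exists_ne i
  have hc : ∀ k, dist (x0 k + 13 * t / 16) (x0 k) ≤ 13 * t / 16 := fun k => by
    rw [Real.dist_eq, add_sub_cancel_left, abs_of_pos (by positivity)]
  have hq : (fun k => x0 k + 13 * t / 16) ∈ closedBall x0 (13 * t / 16) :=
    mem_closedBall.2 ((dist_pi_le_iff (by positivity)).2 hc)
  have hy : Function.update (fun k => x0 k + 13 * t / 16) i (x i) ∈
      closedBall x0 (13 * t / 16) := by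
    refine mem_closedBall.2 ((dist_pi_le_iff (by positivity)).2 fun k => ?_)
    rcases eq_or_ne k i with rfl | hk
    · rw [Function.update_self]
      exact (dist_le_pi_dist x x0 k).trans (mem_closedBall.1 hx.1)
    · rw [Function.update_of_ne hk]
      exact hc k
  have h1 := slab_osc hU ht hA i hσ hx.1 hy hσ' (by rwa [Function.update_self])
  have h2 := slab_osc hU ht hA j abs_one hy hq (by rw [Function.update_of_ne hj]; linarith)
    (by linarith)
  have h3 := norm_sub_le_norm_sub_add_norm_sub (U x)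
    (U (Function.update (fun k => x0 k + 13 * t / 16) i (x i))) (U fun k => x0 k + 13 * t / 16)
  linarith

end Pool.Agent.Lib.MP_a785f2_an.N4
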