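import Mathlib

/-! Real lemmas for the second order recursion. -/

namespace Pool.Agent.Lib.MP_a785f2_an.N4

/-- A sequence below `δ` and below `32 / 2 ^ i` has sums at most `65 δ l`. -/
theorem r3_sum {δ : ℝ} {l n : ℕ} {w : ℕ → ℝ} (hδ : 0 < δ) (l1 : 1 ≤ l) (l2 : 1 ≤ δ * 2 ^ l)
    (h1 : ∀ i < n, w i ≤ δ) (h2 : ∀ i < n, w i ≤ 32 / 2 ^ i) :
    ∑ i ∈ Finset.range n, w i ≤ 65 * δ * l := by
  have l1' : (1 : ℝ) ≤ l := by exact_mod_cast l1
  have hA : ∀ m ≤ n, ∑ i ∈ Finset.range m, w i ≤ m * δ := by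
    intro m hm
    induction m with
    | zero => simp
    | succ m ih =>
      rw [Finset.sum_range_succ]
      have := ih (by omega)
      have := h1 m (by omega)
      push_cast
      linarith
  have hB : ∀ k, l + k ≤ n →
      ∑ i ∈ Finset.range (l + k), w i ≤ l * δ + 64 / 2 ^ l - 64 / 2 ^ (l + k) := by
    intro k hk
    induction k with
    | zero => simpa using hA l (by omega)
    | succ k ih =>
      rw [← add_assoc, Finset.sum_range_succ]
      have a1 := ih (by omega)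
      have a2 := h2 (l + k) (by omega)
      have a3 : (64 : ℝ) / 2 ^ (l + k + 1) = 32 / 2 ^ (l + k) := by
        rw [pow_succ]; field_simp; norm_num
      have a4 : (64 : ℝ) / 2 ^ (l + k) = 2 * (32 / 2 ^ (l + k)) := by ring
      rw [a3]
      linarith
  have hδl : δ ≤ δ * l := by nlinarith
  rcases le_total n l with h | h
  · have a1 := hA n le_rfl
    have a2 : (n : ℝ) ≤ l := by exact_mod_cast h
    nlinarith
  · obtain ⟨k, rfl⟩ := Nat.exists_eq_add_of_le h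
    have a1 := hB k le_rfl
    have a2 : (64 : ℝ) / 2 ^ l ≤ 64 * δ := by
      rw [div_le_iff₀ (by positivity)]; linarith
    have a3 : (0 : ℝ) ≤ 64 / 2 ^ (l + k) := by positivity
    linarith

/-- Discrete Gronwall step. -/
theorem r3_gron {κ B : ℝ} {n : ℕ} {w τ : ℕ → ℝ} (hκ : 0 ≤ κ) (h0 : 0 ≤ τ 0 + B)
    (hw : ∀ i < n, 0 ≤ w i) (hS : ∀ m ≤ n, 2 * κ * ∑ i ∈ Finset.range m, w i ≤ 1)
    (hr : ∀ i < n, τ (i + 1) + B ≤ (1 + κ * w i) * (τ i + B)) :
    τ n + B ≤ (1 + 2 * κ * ∑ i ∈ Finset.range n, w i) * (τ 0 + B) := by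
  induction n with
  | zero => simp
  | succ n ih =>
    have a1 := ih (fun i hi => hw i (by omega)) (fun m hm => hS m (by omega))
      (fun i hi => hr i (by omega))
    have a2 := hr n (by omega)
    have a3 := hS n (by omega)
    have a4 : 0 ≤ κ * w n := mul_nonneg hκ (hw n (by omega))
    rw [Finset.sum_range_succ]
    set S := ∑ i ∈ Finset.range n, w i
    have a5 : (1 + κ * w n) * (τ n + B) ≤ (1 + κ * w n) * ((1 + 2 * κ * S) * (τ 0 + B)) :=
      mul_le_mul_of_nonneg_left a1 (by linarith)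
    have a6 : (1 + κ * w n) * (1 + 2 * κ * S) ≤ 1 + 2 * κ * (S + w n) := by nlinarith
    have a7 := mul_le_mul_of_nonneg_right a6 h0
    calc τ (n + 1) + B ≤ (1 + κ * w n) * ((1 + 2 * κ * S) * (τ 0 + B)) := a2.trans a5
      _ = (1 + κ * w n) * (1 + 2 * κ * S) * (τ 0 + B) := by ring
      _ ≤ _ := a7

/-- Start at the first index `j` with `s / 2 ^ j * M ≤ 1`; from there on the sum of the `z j` is
at most `65 δ l`. -/
theorem r3 {C κ δ s M Mg : ℝ} {l J : ℕ} {z zT σ : ℕ → ℝ} (hC : 1 ≤ C) (hκ : 1 ≤ κ) (hδ : 0 < δ)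
    (hs : 0 < s) (hM : 1 ≤ 16 * s * M) (hg : 0 ≤ Mg) (l1 : 1 ≤ l) (l2 : 1 ≤ δ * 2 ^ l)
    (l3 : 1000 * κ * δ * l ≤ 1)
    (hz : ∀ j ≤ J, 0 ≤ z j ∧ z j ≤ δ ∧ z j ≤ 32 * (s / 2 ^ j) * M)
    (hT : ∀ j ≤ J, zT j ≤ C * (s / 2 ^ j) * (Mg + (δ + ∑ i ∈ Finset.Ico j J, z i) * M))
    (hc : ∀ j ≤ J, 0 ≤ σ j ∧ s / 2 ^ j * σ j ≤ C * δ ^ 2)
    (hr : ∀ j < J, σ (j + 1) ≤
      (1 + κ * z j) * σ j + κ * (z j / (s / 2 ^ j)) * (zT j + δ * z j)) :
    σ J ≤ 20000 * κ * C * δ * l * (Mg + δ * l * M) := by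
  have l1' : (1 : ℝ) ≤ l := by exact_mod_cast l1
  have hM0 : 0 < M := by
    by_contra h
    have : 16 * s * M ≤ 0 := mul_nonpos_of_nonneg_of_nonpos (by positivity) (not_lt.1 h)
    linarith
  have hex : ∃ j : ℕ, s / 2 ^ j * M ≤ 1 := by
    obtain ⟨j, hj⟩ := pow_unbounded_of_one_lt (s * M) (by norm_num : (1 : ℝ) < 2)
    refine ⟨j, ?_⟩
    rw [div_mul_eq_mul_div, div_le_one (by positivity)]
    exact hj.le
  classical
  set j0 := Nat.find hex with hj0
  have h1 : s / 2 ^ j0 * M ≤ 1 := Nat.find_spec hex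
  have h2 : ∀ j ≤ j0, 1 ≤ 16 * (s / 2 ^ j) * M := by
    intro j hj
    rcases j with _ | j
    · simpa using hM
    · have a1 : ¬ s / 2 ^ j * M ≤ 1 := Nat.find_min hex (by omega)
      have a2 : s / 2 ^ j = 2 * (s / 2 ^ (j + 1)) := by rw [pow_succ]; field_simp
      rw [a2] at a1
      have a3 : 0 ≤ s / 2 ^ (j + 1) * M := by positivity
      linarith
  have h3 : ∀ j ≤ j0, j ≤ J → σ j ≤ 16 * C * δ ^ 2 * M := by
    intro j hj hJ
    obtain ⟨a1, a2⟩ := hc j hJ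
    have a3 := mul_le_mul_of_nonneg_right (h2 j hj) a1
    have a4 := mul_le_mul_of_nonneg_right a2 hM0.le
    nlinarith
  set D := δ * l with hD
  have hD0 : δ ≤ D := by rw [hD]; nlinarith
  have hDp : 0 < D := hδ.trans_le hD0
  have hX : 0 ≤ D * M := by positivity
  have hκC : 1 ≤ κ * C := by nlinarith
  have hb : C * δ ^ 2 * M ≤ κ * C * D * (Mg + D * M) := by
    have a1 : δ ^ 2 ≤ D * D := by nlinarith
    have a2 : C * δ ^ 2 * M ≤ C * (D * D) * M := by gcongr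
    have a3 : C * (D * D) * M ≤ κ * (C * (D * D) * M) :=
      le_mul_of_one_le_left (by positivity) hκ
    have a4 : 0 ≤ κ * C * D * Mg := by positivity
    nlinarith
  have hpos : 0 ≤ κ * C * D * (Mg + D * M) := by positivity
  have hgoal : 20000 * κ * C * δ * l * (Mg + D * M) = 20000 * (κ * C * D * (Mg + D * M)) := by
    rw [hD]; ring
  rw [hgoal]
  rcases le_total J j0 with hJ | hJ
  · have := h3 J hJ le_rfl
    linarith
  obtain ⟨n, rfl⟩ := Nat.exists_eq_add_of_le hJ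
  have hsum : ∀ m ≤ n, ∑ i ∈ Finset.range m, z (j0 + i) ≤ 65 * D := by
    intro m hm
    have := r3_sum (w := fun i => z (j0 + i)) (n := m) hδ l1 l2
      (fun i hi => (hz (j0 + i) (by omega)).2.1) (fun i hi => by
        have a1 := (hz (j0 + i) (by omega)).2.2
        have a2 : 32 * (s / 2 ^ (j0 + i)) * M = 32 / 2 ^ i * (s / 2 ^ j0 * M) := by
          rw [pow_add]; field_simp
        have a3 : 32 / 2 ^ i * (s / 2 ^ j0 * M) ≤ 32 / 2 ^ i :=
          mul_le_of_le_one_right (by positivity) h1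
        linarith)
    rw [hD]
    linarith
  have hIco : ∀ i ≤ n, ∑ k ∈ Finset.Ico (j0 + i) (j0 + n), z k ≤ 65 * D := by
    intro i hi
    have a1 : ∑ k ∈ Finset.Ico (j0 + i) (j0 + n), z k ≤ ∑ k ∈ Finset.Ico j0 (j0 + n), z k := by
      refine Finset.sum_le_sum_of_subset_of_nonneg (Finset.Ico_subset_Ico (by omega) le_rfl) ?_
      intro k hk _
      exact (hz k (Finset.mem_Ico.1 hk).2.le).1
    refine a1.trans ?_
    rw [Finset.sum_Ico_eq_sum_range, Nat.add_sub_cancel_left]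
    exact hsum n le_rfl
  set B := C * (Mg + (δ + 65 * D) * M) + 32 * δ * M with hB
  have hB0 : 0 ≤ B := by positivity
  have hκD : 1000 * (κ * D) ≤ 1 := by rw [hD]; linarith
  have hσ0 := (hc j0 (by omega)).1
  have hg1 := r3_gron (κ := κ) (B := B) (n := n) (w := fun i => z (j0 + i))
    (τ := fun i => σ (j0 + i)) (by linarith) (by simpa using add_nonneg hσ0 hB0)
    (fun i hi => (hz (j0 + i) (by omega)).1)
    (fun m hm => by
      have a1 := mul_le_mul_of_nonneg_left (hsum m hm) (by linarith : 0 ≤ 2 * κ)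
      have a2 : 0 ≤ κ * D := by positivity
      linarith)
    (fun i hi => by
      have a1 := hr (j0 + i) (by omega)
      obtain ⟨z0, -, z2⟩ := hz (j0 + i) (by omega)
      have a2 := hT (j0 + i) (by omega)
      have a3 := hIco i hi.le
      set t := s / 2 ^ (j0 + i) with ht
      have t0 : 0 < t := by positivity
      have a4 : C * t * (Mg + (δ + ∑ k ∈ Finset.Ico (j0 + i) (j0 + n), z k) * M) ≤
          C * t * (Mg + (δ + 65 * D) * M) := by gcongr
      have a5 : δ * z (j0 + i) ≤ δ * (32 * t * M) := by gcongr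
      have a6 : zT (j0 + i) + δ * z (j0 + i) ≤ t * B := by
        rw [hB]; linarith
      have a7 : κ * (z (j0 + i) / t) * (zT (j0 + i) + δ * z (j0 + i)) ≤
          κ * (z (j0 + i) / t) * (t * B) := by
        refine mul_le_mul_of_nonneg_left a6 ?_
        positivity
      have a8 : κ * (z (j0 + i) / t) * (t * B) = κ * z (j0 + i) * B := by field_simp
      show σ (j0 + i + 1) + B ≤ (1 + κ * z (j0 + i)) * (σ (j0 + i) + B)
      linarith)
  simp only [Nat.add_zero] at hg1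
  have a1 : (1 + 2 * κ * ∑ i ∈ Finset.range n, z (j0 + i)) * (σ j0 + B) ≤
      (1 + 2 * κ * (65 * D)) * (σ j0 + B) := by
    refine mul_le_mul_of_nonneg_right ?_ (add_nonneg hσ0 hB0)
    have := mul_le_mul_of_nonneg_left (hsum n le_rfl) (by linarith : 0 ≤ 2 * κ)
    linarith
  have a2 := h3 j0 le_rfl (by omega)
  have a3 : B ≤ 98 * (C * (Mg + D * M)) := by
    have b1 : δ * M ≤ D * M := by gcongr
    have b2 : D * M ≤ C * (D * M) := le_mul_of_one_le_left hX hC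
    have b3 : C * (δ * M) ≤ C * (D * M) := by gcongr
    have b4 : 0 ≤ C * Mg := by positivity
    rw [hB]
    nlinarith
  have a4 : κ * D * B ≤ κ * D * (98 * (C * (Mg + D * M))) := by gcongr
  have a5 : κ * D * σ j0 ≤ 1 / 1000 * σ j0 := by
    refine mul_le_mul_of_nonneg_right ?_ hσ0
    linarith
  nlinarith

theorem exists_ell {ε : ℝ} (hε : 0 < ε) : ∃ δ0 : ℝ, 0 < δ0 ∧ ∀ δ : ℝ, 0 < δ → δ ≤ δ0 →
    ∃ l : ℕ, 1 ≤ l ∧ 1 ≤ δ * 2 ^ l ∧ δ * (l : ℝ) ^ 8 ≤ ε := by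
  have ht := tendsto_pow_const_div_const_pow_of_one_lt 8 (by norm_num : (1 : ℝ) < 2)
  obtain ⟨L, hL⟩ := Filter.eventually_atTop.1 (ht.eventually (gt_mem_nhds (half_pos hε)))
  refine ⟨1 / 2 ^ (L + 1), by positivity, fun δ hδ hle => ?_⟩
  have hex : ∃ l : ℕ, 1 ≤ δ * 2 ^ l := by
    obtain ⟨j, hj⟩ := pow_unbounded_of_one_lt (1 / δ) (by norm_num : (1 : ℝ) < 2)
    refine ⟨j, ?_⟩
    rw [div_lt_iff₀ hδ] at hj
    linarith
  classical
  have h1 : 1 ≤ δ * 2 ^ Nat.find hex := Nat.find_spec hex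
  have h2 : L + 1 ≤ Nat.find hex := by
    by_contra h
    have a1 : (2 : ℝ) ^ Nat.find hex < 2 ^ (L + 1) :=
      pow_lt_pow_right₀ (by norm_num) (not_le.1 h)
    have a2 : δ * 2 ^ Nat.find hex < δ * 2 ^ (L + 1) := by gcongr
    rw [le_div_iff₀ (by positivity)] at hle
    linarith
  obtain ⟨m, hm⟩ : ∃ m, Nat.find hex = m + 1 := ⟨Nat.find hex - 1, by omega⟩
  have h3 : ¬ 1 ≤ δ * 2 ^ m := Nat.find_min hex (by omega)
  rw [hm] at h1 h2
  refine ⟨m + 1, by omega, h1, ?_⟩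
  have h4 := hL (m + 1) (by omega)
  rw [div_lt_iff₀ (by positivity)] at h4
  have h5 : δ * ((m + 1 : ℕ) : ℝ) ^ 8 ≤ δ * (ε / 2 * 2 ^ (m + 1)) := by gcongr
  have h6 : δ * (ε / 2 * 2 ^ (m + 1)) = ε * (δ * 2 ^ m) := by ring
  have h7 : ε * (δ * 2 ^ m) ≤ ε := mul_le_of_le_one_right hε.le (not_le.1 h3).le
  linarith

end Pool.Agent.Lib.MP_a785f2_an.N4
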