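import Pool.Agent.Lib.MP_a785f2_an.N4.Pass
import Pool.Agent.Lib.MP_a785f2_an.N4.Young
import Pool.Agent.Lib.MP_a785f2_an.N4.R3

open MeasureTheory Metric Set Filter Topology
open scoped ContDiff RealInnerProductSpace ENNReal Convolution

namespace Pool.Agent.Lib.MP_a785f2_an.N4

open HS NH

variable {m : ℕ} {H : Type} [NormedAddCommGroup H] [NormedSpace ℝ H]
  {a : V m → H →L[ℝ] V m →L[ℝ] V m} {b : V m → H} {L : ℝ}
  {Ω : Set (D 4)} {u : D 4 → V m} {G : D 4 → D 4 →L[ℝ] V m} {x0 : D 4} {t δ : ℝ}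

theorem dec_int (S : Sob Ω u G) {w : D 4 → ℝ} (hw : Continuous w) (h1 : ∀ x, 1 ≤ w x) :
    Integrable (fun x => ‖G x‖ ^ 4 / w x ^ 3) volume := by
  refine (S.powG (by norm_num)).mono' ((S.mG.norm.measurable.pow_const 4).div
    (hw.measurable.pow_const 3)).aestronglyMeasurable (ae_of_all _ fun x => ?_)
  have h2 : 1 ≤ w x ^ 3 := one_le_pow₀ (h1 x)
  rw [Real.norm_of_nonneg (by positivity)]
  exact div_le_self (by positivity) h2

theorem dec_en (S : Sob Ω u G) {s : ℝ} (h : s ≤ t) : En G x0 s ≤ En G x0 t :=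
  setIntegral_mono_set (S.powG (by norm_num)).integrableOn
    (ae_of_all _ fun x => by positivity) (closedBall_subset_closedBall h).eventuallyLE

theorem dec_alg {Z C γ δ s P η : ℝ} (hγ : 0 < γ) (hδ : 0 < δ) (hs : 0 < s)
    (hZ : Z ≤ γ ^ 3 * (η / 2) * δ ^ 4) (hP : P ≤ C * s ^ 4) (hC : C * γ ≤ η / 2) :
    Z / (γ * δ / s) ^ 3 + γ * δ / s * P ≤ η * δ * s ^ 3 := by
  have h1 : Z / (γ * δ / s) ^ 3 ≤ η / 2 * δ * s ^ 3 := by
    rw [div_le_iff₀ (by positivity)]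
    refine hZ.trans (le_of_eq ?_)
    field_simp
  have h2 : γ * δ / s * P ≤ η / 2 * δ * s ^ 3 := by
    calc γ * δ / s * P ≤ γ * δ / s * (C * s ^ 4) :=
          mul_le_mul_of_nonneg_left hP (by positivity)
      _ = C * γ * (δ * s ^ 3) := by field_simp
      _ ≤ η / 2 * (δ * s ^ 3) := mul_le_mul_of_nonneg_right hC (by positivity)
      _ = _ := by ring
  linarith

/-- Decay of the Morrey quotient at the centre (passes at radius `t / 2` and `t / 2 / 2 ^ i`,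
`N = K + 2`; `l` from `exists_ell`). -/
theorem decay (T : Str a b L) : ∃ δ0 ε0 : ℝ, ∃ N : ℕ, 0 < δ0 ∧ 0 < ε0 ∧ 1 ≤ N ∧
    ∀ (Ω : Set (D 4)) (u : D 4 → V m) (G : D 4 → D 4 →L[ℝ] V m) (x0 : D 4) (t δ : ℝ),
      Ctx Ω u G x0 t δ → Eqn a b Ω u G → δ ≤ δ0 → En G x0 t ≤ ε0 →
        mass G x0 (t / 2 ^ N) ≤ δ / 2 * (t / 2 ^ N) ^ 3 := by
  obtain ⟨C, κ, hC, hκ, P⟩ := pass T
  have C0 : 0 < C := lt_of_lt_of_le one_pos hC
  have k0 : 0 < κ := lt_of_lt_of_le one_pos hκ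
  set η : ℝ := 1 / (512 * C ^ 4) with hη
  have η0 : 0 < η := by positivity
  have η1 : η ≤ 1 := by
    rw [hη, div_le_one (by positivity)]
    nlinarith [one_le_pow₀ hC (n := 4)]
  set γ : ℝ := η / (2 * C) with hγ
  have γ0 : 0 < γ := by positivity
  obtain ⟨K, hK⟩ := exists_nat_ge (4 * C / (γ ^ 3 * η))
  have K0 : (0 : ℝ) < K := lt_of_lt_of_le (by positivity) hK
  have K1 : 1 ≤ K := by exact_mod_cast K0
  have K1' : (1 : ℝ) ≤ K := by exact_mod_cast K1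
  obtain ⟨δ1, δ10, hl⟩ := exists_ell (ε := η / (2000 * κ * K)) (by positivity)
  refine ⟨min δ1 (1 / (1000 * κ * K)), η / (2 * K), K + 2, by positivity, by positivity, by omega,
    fun Ω u G x0 t' δ X' hE h1 h2 => ?_⟩
  have δ0 := X'.dp
  obtain ⟨t, rfl⟩ : ∃ t, t' = 2 * t := ⟨t' / 2, by ring⟩
  have t0 := X'.t0
  have X : Ctx Ω u G x0 t δ := X'.mono t0 (by linarith)
  obtain ⟨l, l1, l2, l3⟩ := hl δ δ0 (h1.trans (min_le_left _ _))
  have l1' : (1 : ℝ) ≤ l := by exact_mod_cast l1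
  have p0 : 0 ≤ δ * (l : ℝ) ^ 8 := by positivity
  rw [le_div_iff₀ (by positivity)] at l3
  have l4 : K * (δ * (l : ℝ) ^ 8) ≤ η / 2 := by
    have h3 : 0 ≤ K * (δ * (l : ℝ) ^ 8) := by positivity
    nlinarith [mul_le_mul_of_nonneg_left hκ h3]
  have l5 : δ * (l : ℝ) ^ 8 ≤ 1 := by nlinarith [mul_le_mul_of_nonneg_left K1' p0]
  have l6 : 1000 * κ * δ * l ≤ 1 := by
    have h3 : (l : ℝ) ≤ (l : ℝ) ^ 8 := le_self_pow₀ l1' (by norm_num)
    have h4 : κ * δ * l ≤ κ * δ * (l : ℝ) ^ 8 := mul_le_mul_of_nonneg_left h3 (by positivity)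
    have h5 : 0 ≤ κ * δ * (l : ℝ) ^ 8 := by positivity
    nlinarith [mul_le_mul_of_nonneg_left K1' h5]
  have hs : 1000 * κ * δ * K ≤ 1 := by
    have h3 := h1.trans (min_le_right _ _)
    rw [le_div_iff₀ (by positivity)] at h3
    linarith
  have hKE : K * En G x0 (2 * t) ≤ η / 2 := by
    rw [le_div_iff₀ (by positivity)] at h2
    linarith
  have En0 : 0 ≤ En G x0 (2 * t) := integral_nonneg fun _ => by positivity
  have En1 : En G x0 (2 * t) ≤ 1 := by nlinarith [mul_le_mul_of_nonneg_left K1' En0]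
  have m1 : ∫ y in closedBall x0 t \ closedBall x0 (t / 2), ‖G y‖ ≤ 1 * δ * t ^ 3 := by
    have h3 := X.mor x0 t t0 (by simp)
    rw [one_mul]
    exact (setIntegral_mono_set (X.sob.locG (by norm_num) x0 t)
      (ae_of_all _ fun _ => norm_nonneg _) sdiff_subset.eventuallyLE).trans h3
  obtain ⟨w, wc, w1, Z1, M1⟩ :=
    P Ω u G x0 t δ X' hE En1 K K1 hs l l1 l2 l6 l5 1 one_pos le_rfl m1
  have f0 : ∀ x, 0 ≤ ‖G x‖ ^ 4 / w x ^ 3 := fun x =>
    div_nonneg (by positivity) (pow_nonneg (zero_le_one.trans (w1 x)) 3)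
  obtain ⟨i, i1, iK, hi⟩ := shell_pick (x0 := x0) f0 t0 (dec_int X.sob wc w1).integrableOn K1
  have s0 : 0 < t / 2 ^ i := by positivity
  have s2 : 2 * (t / 2 ^ i) ≤ 2 * t := by
    have h3 : t / 2 ^ i ≤ t := div_le_self t0.le (one_le_pow₀ one_le_two)
    linarith
  have X2 : Ctx Ω u G x0 (2 * (t / 2 ^ i)) δ := X'.mono (by positivity) s2
  have E2 : En G x0 (2 * (t / 2 ^ i)) ≤ En G x0 (2 * t) := dec_en X.sob s2
  have m2 : ∫ y in closedBall x0 (t / 2 ^ i) \ closedBall x0 (t / 2 ^ i / 2), ‖G y‖ ≤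
      η * δ * (t / 2 ^ i) ^ 3 := by
    refine (mass_young X.sob wc w1 (measurableSet_closedBall.diff measurableSet_closedBall)
      sdiff_subset (θ := γ * δ / (t / 2 ^ i)) (by positivity)).trans
      (dec_alg γ0 δ0 s0 ?_ (M1 i i1 iK) (le_of_eq (by rw [hγ]; field_simp)))
    refine le_of_mul_le_mul_left (hi.trans (Z1.trans ?_)) K0
    rw [div_le_iff₀ (by positivity)] at hK
    have h3 : 1 + K * (En G x0 (2 * t) + δ * (l : ℝ) ^ 8) ≤ 2 := by linarith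
    have h4 : C * (1 + K * (En G x0 (2 * t) + δ * (l : ℝ) ^ 8)) ≤ K * (γ ^ 3 * (η / 2)) := by
      have h5 := mul_le_mul_of_nonneg_left h3 C0.le
      linarith
    calc C * (1 + K * (En G x0 (2 * t) + δ * (l : ℝ) ^ 8)) * δ ^ 4 ≤
          K * (γ ^ 3 * (η / 2)) * δ ^ 4 := mul_le_mul_of_nonneg_right h4 (by positivity)
      _ = _ := by ring
  obtain ⟨v, vc, v1, Z2, M2⟩ :=
    P Ω u G x0 (t / 2 ^ i) δ X2 hE (E2.trans En1) K K1 hs l l1 l2 l6 l5 η η0 η1 m2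
  have e0 : 2 * t / 2 ^ (K + 2) = t / 2 ^ (K + 1) := by
    rw [pow_succ 2 (K + 1)]; field_simp
  have e1 : t / 2 ^ i / 2 ^ (K + 1 - i) = t / 2 ^ (K + 1) := by
    rw [div_div, ← pow_add]
    congr 2
    omega
  have M3 := M2 (K + 1 - i) (by omega) (by omega)
  rw [e1] at M3
  have s1 : 0 < t / 2 ^ (K + 1) := by positivity
  have sub : closedBall x0 (t / 2 ^ (K + 1)) ⊆ closedBall x0 (t / 2 ^ i / 2) := by
    refine closedBall_subset_closedBall ?_
    rw [div_div, ← pow_succ]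
    exact div_le_div_of_nonneg_left t0.le (by positivity)
      (pow_le_pow_right₀ one_le_two (by omega))
  have Z3 : ∫ x in closedBall x0 (t / 2 ^ (K + 1)), ‖G x‖ ^ 4 / v x ^ 3 ≤
      (1 / (4 * C)) ^ 3 * (1 / 2 / 2) * δ ^ 4 := by
    refine (setIntegral_mono_set (dec_int X.sob vc v1).integrableOn
      (ae_of_all _ fun x => div_nonneg (by positivity)
        (pow_nonneg (zero_le_one.trans (v1 x)) 3)) sub.eventuallyLE).trans (Z2.trans ?_)
    refine mul_le_mul_of_nonneg_right ?_ (by positivity)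
    have h5 : K * En G x0 (2 * (t / 2 ^ i)) ≤ η / 2 :=
      (mul_le_mul_of_nonneg_left E2 K0.le).trans hKE
    calc C * (η + K * (En G x0 (2 * (t / 2 ^ i)) + δ * (l : ℝ) ^ 8)) ≤ C * (η + η) :=
          mul_le_mul_of_nonneg_left (by linarith) C0.le
      _ = _ := by rw [hη]; field_simp; ring
  have h6 := (mass_young X.sob vc v1 measurableSet_closedBall Subset.rfl
    (θ := 1 / (4 * C) * δ / (t / 2 ^ (K + 1))) (by positivity)).trans
    (dec_alg (η := 1 / 2) (by positivity) δ0 s1 Z3 M3 (le_of_eq (by field_simp; ring)))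
  rw [e0]
  refine h6.trans (le_of_eq ?_)
  ring

end Pool.Agent.Lib.MP_a785f2_an.N4
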