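import Pool.Agent.Lib.MP_a785f2_an.NH.Defs

/-!
Vocabulary for the continuity theorem in dimension four.
-/

open MeasureTheory Metric Set Filter Topology
open scoped ContDiff RealInnerProductSpace ENNReal Convolution

namespace Pool.Agent.Lib.MP_a785f2_an.N4

open HS NH

variable {m : ℕ} {H : Type} [NormedAddCommGroup H] [NormedSpace ℝ H]

/-- Morrey bound on all cubes inside the cube of radius `R`. -/
def Mor (G : D 4 → D 4 →L[ℝ] V m) (x0 : D 4) (R δ : ℝ) : Prop :=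
  ∀ y t, 0 < t → dist y x0 + t ≤ R → mass G y t ≤ δ * t ^ 3

/-- Energy in a cube. -/
noncomputable def En (G : D 4 → D 4 →L[ℝ] V m) (x0 : D 4) (R : ℝ) : ℝ :=
  ∫ x in closedBall x0 R, ‖G x‖ ^ 4

/-- The data on a cube of radius `t`. -/
structure Ctx (Ω : Set (D 4)) (u : D 4 → V m) (G : D 4 → D 4 →L[ℝ] V m) (x0 : D 4) (t δ : ℝ) :
    Prop where
  sob : Sob Ω u G
  tp : 0 < t
  sub : closedBall x0 t ⊆ Ω
  mor : Mor G x0 t δ
  dp : 0 < δ

/-- The chain of mollifications of a pass. -/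
noncomputable def UU (u : D 4 → V m) (t : ℝ) (j : ℕ) : D 4 → V m := mol (sc t j) u

/-- The corner of the shell. -/
noncomputable def cor (x0 : D 4) (t : ℝ) : D 4 := fun i => x0 i + 13 * t / 16

/-- The scale invariant local mass. -/
noncomputable def zz (G : D 4 → D 4 →L[ℝ] V m) (t : ℝ) (j : ℕ) (x : D 4) : ℝ :=
  mass G x (2 * sc t j) / (2 * sc t j) ^ 3

/-- The weighted sum of the local masses from scale `i` on. -/
noncomputable def lam (G : D 4 → D 4 →L[ℝ] V m) (t δ : ℝ) (i J : ℕ) (x : D 4) : ℝ :=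
  ∑ k ∈ Finset.range (J - i), (3 / 2) ^ k * zz G t (i + k) x / δ

/-- The plain sum of the local masses from scale `j` on. -/
noncomputable def Lam (G : D 4 → D 4 →L[ℝ] V m) (t : ℝ) (j J : ℕ) (x : D 4) : ℝ :=
  ∑ i ∈ Finset.Ico j J, zz G t i x

/-- The shell that carries the gradient of the cut-off. -/
def Sh (x0 : D 4) (t : ℝ) : Set (D 4) := closedBall x0 (13 * t / 16) \ ball x0 (11 * t / 16)

/-- A cut-off function for a pass of radius `t`. -/
structure Cut (χ : D 4 → ℝ) (x0 : D 4) (t B : ℝ) : Prop where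
  sm : ContDiff ℝ 1 χ
  supp : tsupport χ ⊆ closedBall x0 (13 * t / 16)
  lo : ∀ x, 0 ≤ χ x
  hi : ∀ x, χ x ≤ 1
  one : ∀ x ∈ closedBall x0 (t / 2), χ x = 1
  der : ∀ x, ‖fderiv ℝ χ x‖ ≤ B / t
  zero : ∀ x ∈ ball x0 (11 * t / 16), fderiv ℝ χ x = 0

/-- The map `y ↦ y - <v, y> v`. -/
noncomputable def TV (v : V m) : V m →L[ℝ] V m :=
  ContinuousLinearMap.id ℝ (V m) - (innerSL ℝ v).smulRight v

/-- The direction field of the development. -/
noncomputable def vv (w : V m) : V m := (br w)⁻¹ • w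

/-- The part of the gradient that is transverse to the fixed vector `v`. -/
noncomputable def tg (G : D 4 → D 4 →L[ℝ] V m) (v : V m) (y : D 4) : D 4 →L[ℝ] V m :=
  (TV v).comp (G y)

/-- The size of the part of the gradient that is transverse to the field `W`. -/
noncomputable def ga (G : D 4 → D 4 →L[ℝ] V m) (W : D 4 → V m) (y : D 4) : ℝ :=
  ‖tg G (vv (W y)) y‖

/-- A development of the chain of mollifications down to the scale `J`, with all its bounds. -/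
structure Chn (a : V m → H →L[ℝ] V m →L[ℝ] V m) (b : V m → H) (Ω : Set (D 4)) (u : D 4 → V m)
    (G : D 4 → D 4 →L[ℝ] V m) (x0 : D 4) (t δ κ : ℝ) (J : ℕ) (W : ℕ → D 4 → V m) : Prop where
  X : Ctx Ω u G x0 (2 * t) δ
  k1 : 1 ≤ κ
  kd : 1000 * κ * δ ≤ 1
  sm : ∀ j, ContDiff ℝ 1 (W j)
  w0 : W 0 = fun x => UU u t 0 x - UU u t 0 (cor x0 t)
  gr : ∀ x ∈ closedBall x0 (3 * t / 2), ∀ j < J,
    1 + ‖W (j + 1) x‖ ≤ (1 + ‖W j x‖) * (1 + κ * zz G t j x)
  mv : ∀ x ∈ closedBall x0 (3 * t / 2), ∀ j < J,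
    ‖vv (W (j + 1) x) - vv (W j x)‖ ≤ κ * zz G t j x
  st : ∀ x ∈ closedBall x0 (3 * t / 2), ∀ j < J, ∀ v : V m, ‖v‖ ≤ 1 →
    sg a b (UU u t (j + 1)) (W (j + 1)) x ≤ (1 + κ * zz G t j x) * sg a b (UU u t j) (W j) x +
      κ * (zz G t j x / sc t j) * (zz (tg G v) t j x + δ * zz G t j x)

theorem zz_nonneg (G : D 4 → D 4 →L[ℝ] V m) {t : ℝ} (ht : 0 < t) (j : ℕ) (x : D 4) :
    0 ≤ zz G t j x :=
  div_nonneg (mass_nonneg _ _ _) (pow_nonneg (by have := sc_pos ht j; positivity) 3)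

theorem Lam_nonneg (G : D 4 → D 4 →L[ℝ] V m) {t : ℝ} (ht : 0 < t) (j J : ℕ) (x : D 4) :
    0 ≤ Lam G t j J x := Finset.sum_nonneg fun i _ => zz_nonneg G ht i x

theorem ga_nonneg (G : D 4 → D 4 →L[ℝ] V m) (W : D 4 → V m) (y : D 4) : 0 ≤ ga G W y :=
  norm_nonneg _

theorem TV_apply (v y : V m) : TV v y = y - ⟪v, y⟫ • v := by
  simp [TV]

theorem TV_zero : TV (0 : V m) = ContinuousLinearMap.id ℝ (V m) := by
  ext y; simp [TV]

theorem tg_zero (G : D 4 → D 4 →L[ℝ] V m) : tg G 0 = G := by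
  funext y; simp [tg, TV_zero]

theorem norm_vv_le (w : V m) : ‖vv w‖ ≤ 1 := by
  rw [vv, norm_smul, norm_inv, Real.norm_of_nonneg (br_pos w).le, inv_mul_le_iff₀ (br_pos w),
    mul_one]
  exact norm_le_br w

theorem norm_TV_apply {v : V m} (hv : ‖v‖ ≤ 1) (y : V m) : ‖TV v y‖ ≤ 2 * ‖y‖ := by
  rw [TV_apply]
  have h1 : ‖⟪v, y⟫ • v‖ ≤ ‖y‖ := by
    rw [norm_smul, Real.norm_eq_abs]
    calc |⟪v, y⟫| * ‖v‖ ≤ ‖v‖ * ‖y‖ * ‖v‖ := by gcongr; exact abs_real_inner_le_norm _ _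
      _ ≤ 1 * ‖y‖ * 1 := by gcongr
      _ = ‖y‖ := by ring
  linarith [norm_sub_le y (⟪v, y⟫ • v)]

theorem norm_TV_le {v : V m} (hv : ‖v‖ ≤ 1) : ‖TV v‖ ≤ 2 :=
  ContinuousLinearMap.opNorm_le_bound _ zero_le_two (norm_TV_apply hv)

theorem norm_TV_sub {v v' : V m} (hv : ‖v‖ ≤ 1) (hv' : ‖v'‖ ≤ 1) :
    ‖TV v - TV v'‖ ≤ 2 * ‖v - v'‖ := by
  refine ContinuousLinearMap.opNorm_le_bound _ (by positivity) fun y => ?_
  have e : (TV v - TV v') y = -(⟪v - v', y⟫ • v') - ⟪v, y⟫ • (v - v') := by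
    rw [sub_apply, TV_apply, TV_apply, inner_sub_left]; module
  have h1 : ‖⟪v - v', y⟫ • v'‖ ≤ ‖v - v'‖ * ‖y‖ := by
    rw [norm_smul, Real.norm_eq_abs]
    calc |⟪v - v', y⟫| * ‖v'‖ ≤ ‖v - v'‖ * ‖y‖ * 1 := by
          gcongr; exact abs_real_inner_le_norm _ _
      _ = _ := mul_one _
  have h2 : ‖⟪v, y⟫ • (v - v')‖ ≤ ‖v - v'‖ * ‖y‖ := by
    rw [norm_smul, Real.norm_eq_abs, mul_comm]
    gcongr
    exact (abs_real_inner_le_norm _ _).trans (mul_le_of_le_one_left (norm_nonneg _) hv)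
  rw [e]
  have h3 := norm_sub_le (-(⟪v - v', y⟫ • v')) (⟪v, y⟫ • (v - v'))
  rw [norm_neg] at h3
  linarith

theorem ga_le (G : D 4 → D 4 →L[ℝ] V m) (W : D 4 → V m) (y : D 4) : ga G W y ≤ 2 * ‖G y‖ :=
  (ContinuousLinearMap.opNorm_comp_le _ _).trans
    (mul_le_mul_of_nonneg_right (norm_TV_le (norm_vv_le _)) (norm_nonneg _))

theorem continuous_vv : Continuous (vv : V m → V m) :=
  (continuous_br.inv₀ fun w => (br_pos w).ne').smul continuous_id

theorem continuous_TV : Continuous (TV : V m → V m →L[ℝ] V m) := by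
  unfold TV
  refine continuous_const.sub ?_
  exact ((ContinuousLinearMap.smulRightL ℝ (V m) (V m)).continuous₂.comp
    ((innerSL ℝ).continuous.prodMk continuous_id))

theorem ga_meas {G : D 4 → D 4 →L[ℝ] V m} (hG : StronglyMeasurable G) {W : D 4 → V m}
    (hW : Continuous W) : Measurable (ga G W) := by
  have h1 : StronglyMeasurable fun y => TV (vv (W y)) :=
    (continuous_TV.comp (continuous_vv.comp hW)).stronglyMeasurable
  have h2 : Continuous fun p : (V m →L[ℝ] V m) × (D 4 →L[ℝ] V m) => ‖p.1.comp p.2‖ :=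
    (continuous_fst.clm_comp continuous_snd).norm
  exact (h2.comp_stronglyMeasurable (h1.prodMk hG)).measurable

theorem Ctx.t0 {Ω : Set (D 4)} {u : D 4 → V m} {G : D 4 → D 4 →L[ℝ] V m} {x0 : D 4} {t δ : ℝ}
    (X : Ctx Ω u G x0 (2 * t) δ) : 0 < t := by linarith [X.tp]

theorem Ctx.mono {Ω : Set (D 4)} {u : D 4 → V m} {G : D 4 → D 4 →L[ℝ] V m} {x0 : D 4}
    {t t' δ : ℝ} (X : Ctx Ω u G x0 t δ) (h0 : 0 < t') (h : t' ≤ t) : Ctx Ω u G x0 t' δ :=
  ⟨X.sob, h0, (closedBall_subset_closedBall h).trans X.sub,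
    fun y r hr hy => X.mor y r hr (hy.trans h), X.dp⟩

end Pool.Agent.Lib.MP_a785f2_an.N4
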