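import Pool.Agent.Lib.MP_a785f2_an.NH.Three
import Pool.Agent.Lib.MP_a785f2_an.N4.Core

namespace Pool.Agent.Lib.MP_a785f2_an.N4

theorem core_four : NH.Core 4 := fun _ _ _ _ _ _ _ _ _ _ _ T S hF => core T S hF

theorem core_three_or_four {n : ℕ} (hn : n = 3 ∨ n = 4) : NH.Core n := by
  rcases hn with rfl | rfl
  · exact NH.core_three
  · exact core_four

end Pool.Agent.Lib.MP_a785f2_an.N4
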