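import Pool.Agent.Lib.MP_a785f2_an.N4.Defs
import Pool.Agent.Lib.MP_a785f2_an.NH.Rec
import Pool.Agent.Lib.MP_a785f2_an.NH.Err
import Pool.Agent.Lib.MP_a785f2_an.NH.Psi
import Pool.Agent.Lib.MP_a785f2_an.NH.Test

open MeasureTheory Metric Set Filter Topology
open scoped ContDiff RealInnerProductSpace ENNReal Convolution

namespace Pool.Agent.Lib.MP_a785f2_an.N4

open HS NH

variable {m : ℕ} {H : Type} [NormedAddCommGroup H] [NormedSpace ℝ H]
  {a : V m → H →L[ℝ] V m →L[ℝ] V m} {b : V m → H} {L : ℝ}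

theorem s1_inner (v x y : V m) : ⟪x, TV v y⟫ = ⟪x, y⟫ - ⟪v, x⟫ * ⟪v, y⟫ := by
  rw [TV_apply, inner_sub_right, inner_smul_right, real_inner_comm v x]
  ring

theorem s1_sq {v : V m} (hv : ‖v‖ ≤ 1) (y : V m) : ‖TV v y‖ ^ 2 ≤ ⟪y, TV v y⟫ := by
  rw [s1_inner, TV_apply, norm_sub_sq_real, inner_smul_right, norm_smul, Real.norm_eq_abs, mul_pow,
    sq_abs, real_inner_self_eq_norm_sq, real_inner_comm v y]
  have h1 : ‖v‖ ^ 2 ≤ 1 := pow_le_one₀ (norm_nonneg _) hv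
  nlinarith [mul_le_mul_of_nonneg_left h1 (sq_nonneg ⟪v, y⟫)]

theorem s1_young {v : V m} (hv : ‖v‖ ≤ 1) (y s : V m) :
    ‖TV v y‖ ^ 2 / 2 - ‖s‖ ^ 2 / 2 ≤ ⟪y, TV v (y + s)⟫ := by
  have h1 := s1_sq hv y
  have h2 : 0 ≤ ⟪y + s, TV v (y + s)⟫ := (sq_nonneg _).trans (s1_sq hv _)
  rw [s1_inner] at h1 h2 ⊢
  simp only [inner_add_left, inner_add_right, real_inner_self_eq_norm_sq] at h1 h2 ⊢
  rw [real_inner_comm y s] at h2
  nlinarith [sq_nonneg ⟪v, s⟫]

theorem s1_vv_eq : (vv : V m → V m) = Yf 0 1 := by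
  funext w
  rw [psi_eq, one_pow]
  rfl

theorem s1_vv_smooth : ContDiff ℝ 1 (vv : V m → V m) := by
  rw [s1_vv_eq]
  exact (Yf_contDiff 0 one_pos).of_le (by simp)

theorem s1_vv_fderiv (w y : V m) : fderiv ℝ vv w y = (br w)⁻¹ • TV (vv w) y := by
  have h0 := (br_pos w).ne'
  rw [s1_vv_eq, psi_fderiv one_pos, ← s1_vv_eq, one_pow, TV_apply, vv, smul_sub,
    real_inner_smul_left, smul_smul, smul_smul]
  change (br w)⁻¹ • y - (⟪w, y⟫ / br w ^ 3) • w = _
  have e : ⟪w, y⟫ / br w ^ 3 = (br w)⁻¹ * ((br w)⁻¹ * ⟪w, y⟫) * (br w)⁻¹ := by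
    field_simp
  rw [e]

theorem s1_vv_le (w : V m) : ‖vv w‖ ≤ ‖w‖ := by
  rw [vv, norm_smul, norm_inv, Real.norm_of_nonneg (br_pos w).le]
  exact mul_le_of_le_one_left (norm_nonneg _) (inv_le_one_of_one_le₀ (one_le_br w))

theorem s1_split (T : Str a b L) {U W : D 4 → V m} {χ : D 4 → ℝ} (hW : ContDiff ℝ 1 W)
    (hχ : ContDiff ℝ 1 χ) (x : D 4) (q : V m) (A : D 4 →L[ℝ] V m) :
    fderiv ℝ (fun y => χ y ^ 4 • vv (W y)) x + om a b q A (χ x ^ 4 • vv (W x)) =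
      χ x ^ 4 • (TV (vv (W x))).comp (A + (br (W x))⁻¹ • dfc a b U W x) +
      ((4 * χ x ^ 3) • fderiv ℝ χ x).smulRight (vv (W x)) +
      χ x ^ 4 • ((TV (vv (W x))).comp (fderiv ℝ U x - A) +
        (om a b q A (vv (W x)) - om a b (U x) (fderiv ℝ U x) (vv (W x)))) := by
  have h0 := (br_pos (W x)).ne'
  have d1 := (hχ.differentiable one_ne_zero x).hasFDerivAt.pow 4
  have d2 := ((s1_vv_smooth.differentiable one_ne_zero (W x)).hasFDerivAt).comp x
    (hW.differentiable one_ne_zero x).hasFDerivAt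
  have d3 := (d1.smul d2).fderiv
  have e0 : fderiv ℝ (fun y => χ y ^ 4 • vv (W y)) x = _ := d3
  rw [e0]
  ext1 v
  have e1 : ∀ p : H, TV (vv (W x)) (a (U x) p (W x)) = a (U x) p (W x) := fun p => by
    rw [TV_apply, vv, real_inner_smul_left, real_inner_comm, T.anti, mul_zero, zero_smul, sub_zero]
  have e2 : ∀ p : H, a (U x) p (vv (W x)) = (br (W x))⁻¹ • a (U x) p (W x) := fun p => by
    rw [vv, map_smul]
  simp only [_root_.add_apply, _root_.sub_apply,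
    _root_.smul_apply, ContinuousLinearMap.comp_apply,
    ContinuousLinearMap.smulRight_apply, Function.comp_apply, s1_vv_fderiv, dfc, om_apply, map_add,
    map_sub, map_smul, e1, e2, smul_add, smul_sub, smul_smul, inv_mul_cancel₀ h0, nsmul_eq_mul,
    smul_eq_mul]
  have e3 : (4 - 1 : ℕ) = 3 := rfl
  rw [e3]
  push_cast
  module

theorem s1_om_sub (T : Str a b L) (q q' : V m) (A A' : D 4 →L[ℝ] V m) {w : V m} (hw : ‖w‖ ≤ 1) :
    ‖om a b q A w - om a b q' A' w‖ ≤ ‖A‖ * ‖con a b q' - con a b q‖ + L ^ 2 * ‖A' - A‖ := by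
  have e : om a b q A w - om a b q' A' w =
      -(((con a b q' - con a b q).flip w).comp A) - om a b q' (A' - A) w := by
    ext1 v
    simp only [_root_.sub_apply, _root_.neg_apply,
      ContinuousLinearMap.comp_apply, ContinuousLinearMap.flip_apply, om_apply, con_apply, map_sub]
    abel
  have h1 : ‖((con a b q' - con a b q).flip w).comp A‖ ≤ ‖A‖ * ‖con a b q' - con a b q‖ := by
    refine ContinuousLinearMap.opNorm_le_bound _ (by positivity) fun v => ?_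
    calc ‖(con a b q' - con a b q) (A v) w‖ ≤ ‖con a b q' - con a b q‖ * ‖A v‖ * ‖w‖ :=
          (con a b q' - con a b q).le_opNorm₂ _ _
      _ ≤ ‖con a b q' - con a b q‖ * (‖A‖ * ‖v‖) * 1 := by
          gcongr
          exact A.le_opNorm v
      _ = _ := by ring
  have h2 : ‖om a b q' (A' - A) w‖ ≤ L ^ 2 * ‖A' - A‖ :=
    (om_norm T _ _ _).trans (mul_le_of_le_one_right (by positivity) hw)
  rw [e]
  refine (norm_sub_le _ _).trans ?_
  rw [norm_neg]
  linarith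

theorem s1_pr_le (A B : D 4 →L[ℝ] V m) : |pr A B| ≤ 256 * (‖A‖ ^ 3 * ‖B‖) := by
  have h1 := abs_pr_le (n := 4) (by norm_num) A B
  have h2 : fro A ^ 3 ≤ (4 * ‖A‖) ^ 3 :=
    pow_le_pow_left₀ (fro_nonneg A) (by exact_mod_cast fro_le_norm A) 3
  have h3 := mul_le_mul_of_nonneg_right h2 (norm_nonneg B)
  norm_num at h1
  nlinarith

theorem s1_main {v : V m} (hv : ‖v‖ ≤ 1) (A S : D 4 →L[ℝ] V m) {c : ℝ} (c0 : 0 ≤ c) (c1 : c ≤ 1) :
    c * ‖(TV v).comp A‖ ^ 4 / 2048 - 32 * (‖A‖ ^ 2 * ‖S‖ ^ 2) ≤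
      pr A (c • (TV v).comp (A + S)) := by
  have h1 : ∀ α, ‖col ((TV v).comp A) α‖ ^ 2 / 2 - ‖S‖ ^ 2 / 2 ≤
      ⟪col A α, TV v (col A α + col S α)⟫ := fun α => by
    have h2 := s1_young hv (col A α) (col S α)
    have h3 := pow_le_pow_left₀ (norm_nonneg _) (col_le_norm S α) 2
    have e : col ((TV v).comp A) α = TV v (col A α) := rfl
    rw [e]
    linarith
  have h2 := Finset.sum_le_sum fun α (_ : α ∈ Finset.univ) => h1 α
  rw [Finset.sum_sub_distrib, ← Finset.sum_div, ← fro_sq, Finset.sum_const, Finset.card_univ,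
    Fintype.card_fin, nsmul_eq_mul] at h2
  have e : pr A (c • (TV v).comp (A + S)) =
      c * (fro A ^ 2 * ∑ α, ⟪col A α, TV v (col A α + col S α)⟫) := by
    have e1 : ∀ α, ⟪col A α, col (c • (TV v).comp (A + S)) α⟫ =
        c * ⟪col A α, TV v (col A α + col S α)⟫ := fun α => real_inner_smul_right _ _ _
    rw [pr, Finset.sum_congr rfl fun α _ => e1 α, ← Finset.mul_sum]
    ring
  have g1 : ‖(TV v).comp A‖ ≤ 4 * fro ((TV v).comp A) := by exact_mod_cast norm_le_fro _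
  have g2 : ‖(TV v).comp A‖ ≤ 8 * fro A := by
    have g3 : ‖A‖ ≤ 4 * fro A := by exact_mod_cast norm_le_fro A
    have g4 := (ContinuousLinearMap.opNorm_comp_le (TV v) A).trans
      (mul_le_mul_of_nonneg_right (norm_TV_le hv) (norm_nonneg _))
    linarith
  have g3 : fro A ≤ 4 * ‖A‖ := by exact_mod_cast fro_le_norm A
  have k1 := pow_le_pow_left₀ (norm_nonneg _) g1 2
  have k2 := pow_le_pow_left₀ (norm_nonneg _) g2 2
  have k3 := pow_le_pow_left₀ (fro_nonneg _) g3 2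
  have k4 := mul_le_mul k1 k2 (sq_nonneg _) (sq_nonneg _)
  have k5 := mul_le_mul_of_nonneg_left h2 (sq_nonneg (fro A))
  have k6 := mul_le_mul_of_nonneg_right k3 (sq_nonneg ‖S‖)
  have k7 : ‖(TV v).comp A‖ ^ 4 / 2048 - 32 * (‖A‖ ^ 2 * ‖S‖ ^ 2) ≤
      fro A ^ 2 * ∑ α, ⟪col A α, TV v (col A α + col S α)⟫ := by
    push_cast at k5
    nlinarith
  have k8 := mul_le_mul_of_nonneg_left k7 c0
  have k9 : c * (‖A‖ ^ 2 * ‖S‖ ^ 2) ≤ 1 * (‖A‖ ^ 2 * ‖S‖ ^ 2) :=
    mul_le_mul_of_nonneg_right c1 (by positivity)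
  rw [e]
  nlinarith

theorem s1_pt (T : Str a b L) {u U W : D 4 → V m} {G : D 4 → D 4 →L[ℝ] V m} {χ : D 4 → ℝ}
    (hW : ContDiff ℝ 1 W) (hχ : ContDiff ℝ 1 χ) (x : D 4) (c0 : 0 ≤ χ x) (c1 : χ x ≤ 1) :
    χ x ^ 4 * ga G W x ^ 4 ≤
      2048 * pr (G x) (fderiv ℝ (fun y => χ y ^ 4 • vv (W y)) x +
        om a b (u x) (G x) (χ x ^ 4 • vv (W x))) +
      2 ^ 21 * (‖G x‖ ^ 2 * sg a b U W x ^ 2 + ‖fderiv ℝ χ x‖ * (‖G x‖ ^ 3 * ‖W x‖)) +
      2 ^ 19 * ((2 + L ^ 2) * (‖G x‖ ^ (4 - 1) * ‖fderiv ℝ U x - G x‖) +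
        ‖G x‖ ^ 4 * ‖con a b (U x) - con a b (u x)‖) := by
  have hv := norm_vv_le (W x)
  have p4 : χ x ^ 4 ≤ 1 := pow_le_one₀ c0 c1
  have p3 : χ x ^ 3 ≤ 1 := pow_le_one₀ c0 c1
  rw [s1_split T (U := U) hW hχ, test_pr_add, test_pr_add]
  have h1 := s1_main hv (G x) ((br (W x))⁻¹ • dfc a b U W x) (pow_nonneg c0 4) p4
  have e1 : ‖(br (W x))⁻¹ • dfc a b U W x‖ = sg a b U W x := by
    rw [norm_smul, norm_inv, Real.norm_of_nonneg (br_pos _).le, sg, inv_mul_eq_div]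
  rw [e1] at h1
  have h2 := neg_le_of_abs_le
    (s1_pr_le (G x) (((4 * χ x ^ 3) • fderiv ℝ χ x).smulRight (vv (W x))))
  have n2 : ‖((4 * χ x ^ 3) • fderiv ℝ χ x).smulRight (vv (W x))‖ ≤
      4 * (‖fderiv ℝ χ x‖ * ‖W x‖) := by
    rw [ContinuousLinearMap.norm_smulRight_apply, norm_smul, Real.norm_of_nonneg (by positivity)]
    calc 4 * χ x ^ 3 * ‖fderiv ℝ χ x‖ * ‖vv (W x)‖ ≤ 4 * 1 * ‖fderiv ℝ χ x‖ * ‖W x‖ := by
          gcongr
          exact s1_vv_le _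
      _ = _ := by ring
  have h3 := neg_le_of_abs_le (s1_pr_le (G x) (χ x ^ 4 • ((TV (vv (W x))).comp
    (fderiv ℝ U x - G x) + (om a b (u x) (G x) (vv (W x)) -
      om a b (U x) (fderiv ℝ U x) (vv (W x))))))
  have n3 : ‖χ x ^ 4 • ((TV (vv (W x))).comp (fderiv ℝ U x - G x) +
      (om a b (u x) (G x) (vv (W x)) - om a b (U x) (fderiv ℝ U x) (vv (W x))))‖ ≤
      (2 + L ^ 2) * ‖fderiv ℝ U x - G x‖ + ‖G x‖ * ‖con a b (U x) - con a b (u x)‖ := by
    rw [norm_smul, Real.norm_of_nonneg (by positivity)]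
    refine (mul_le_of_le_one_left (norm_nonneg _) p4).trans ((norm_add_le _ _).trans ?_)
    have k1 := (ContinuousLinearMap.opNorm_comp_le (TV (vv (W x))) (fderiv ℝ U x - G x)).trans
      (mul_le_mul_of_nonneg_right (norm_TV_le hv) (norm_nonneg _))
    have k2 := s1_om_sub T (u x) (U x) (G x) (fderiv ℝ U x) hv
    linarith
  have k2 := mul_le_mul_of_nonneg_left n2 (pow_nonneg (norm_nonneg (G x)) 3)
  have k3 := mul_le_mul_of_nonneg_left n3 (pow_nonneg (norm_nonneg (G x)) 3)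
  have k4 : 0 ≤ ‖G x‖ ^ 2 * sg a b U W x ^ 2 := by positivity
  have e2 : ga G W x = ‖(TV (vv (W x))).comp (G x)‖ := rfl
  have e3 : (4 - 1 : ℕ) = 3 := rfl
  rw [e2, e3]
  linarith

theorem s1_om_cont (T : Str a b L) :
    Continuous fun p : V m × (D 4 →L[ℝ] V m) × V m => om a b p.1 p.2.1 p.2.2 := by
  have cb := (T.cb.continuous_fderiv one_ne_zero).comp
    (continuous_fst : Continuous fun p : V m × (D 4 →L[ℝ] V m) × V m => p.1)
  have ca := T.ca.continuous.comp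
    (continuous_fst : Continuous fun p : V m × (D 4 →L[ℝ] V m) × V m => p.1)
  have c1 : Continuous fun p : V m × (D 4 →L[ℝ] V m) × V m => (a p.1).flip p.2.2 :=
    ((ContinuousLinearMap.flipₗᵢ ℝ H (V m) (V m)).continuous.comp ca).clm_apply
      (continuous_snd.comp continuous_snd)
  exact c1.clm_comp (cb.clm_comp (continuous_fst.comp continuous_snd))

theorem s1_pow_int {Ω : Set (D 4)} {u : D 4 → V m} {G : D 4 → D 4 →L[ℝ] V m} (S : Sob Ω u G)
    {K : Set (D 4)} (hK : IsCompact K) {j : ℕ} (hj : j ≤ 4) {f : D 4 → ℝ} (hf : Continuous f) :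
    IntegrableOn (fun x => ‖G x‖ ^ j * f x) K := by
  refine IntegrableOn.mul_continuousOn ?_ hf.continuousOn hK
  refine ((integrableOn_const (C := (1 : ℝ)) hK.measure_lt_top.ne).add
    (S.powG (by norm_num)).integrableOn).mono'
    ((continuous_pow j).comp_stronglyMeasurable S.mG.norm).aestronglyMeasurable
    (ae_of_all _ fun x => ?_)
  have h0 := norm_nonneg (G x)
  rw [Real.norm_of_nonneg (pow_nonneg h0 _)]
  rcases le_total ‖G x‖ 1 with h | h
  · exact (pow_le_one₀ h0 h).trans (le_add_of_nonneg_right (pow_nonneg h0 _))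
  · exact (pow_le_pow_right₀ h hj).trans (le_add_of_nonneg_left zero_le_one)

theorem s1_pr_int (T : Str a b L) {Ω : Set (D 4)} {u : D 4 → V m} {G : D 4 → D 4 →L[ℝ] V m}
    (S : Sob Ω u G) {K : Set (D 4)} (hK : IsCompact K) {φ : D 4 → V m} (hφ : ContDiff ℝ 1 φ) :
    IntegrableOn (fun x => pr (G x) (fderiv ℝ φ x + om a b (u x) (G x) (φ x))) K := by
  have dφ := hφ.continuous_fderiv one_ne_zero
  have m1 : StronglyMeasurable fun x => om a b (u x) (G x) (φ x) := by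
    have h := (s1_om_cont T).comp_stronglyMeasurable
      (S.mu.prodMk (S.mG.prodMk hφ.continuous.stronglyMeasurable))
    simp only at h
    exact h
  have m2 : StronglyMeasurable fun x => pr (G x) (fderiv ℝ φ x + om a b (u x) (G x) (φ x)) := by
    have h := continuous_pr.comp_stronglyMeasurable (S.mG.prodMk (dφ.stronglyMeasurable.add m1))
    simp only [Pi.add_apply] at h
    exact h
  have i1 := s1_pow_int S hK (j := 3) (by norm_num) dφ.norm
  have i2 := s1_pow_int S hK (j := 4) le_rfl (hφ.continuous.norm.const_mul (L ^ 2))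
  refine ((i1.add i2).const_mul 256).mono' m2.aestronglyMeasurable (ae_of_all _ fun x => ?_)
  refine (s1_pr_le _ _).trans ?_
  have h1 := (norm_add_le (fderiv ℝ φ x) _).trans
    (add_le_add le_rfl (om_norm T (u x) (G x) (φ x)))
  have h2 := mul_le_mul_of_nonneg_left h1 (pow_nonneg (norm_nonneg (G x)) 3)
  simp only [Pi.add_apply]
  linarith

theorem s1_zero {Ω : Set (D 4)} {u : D 4 → V m} {G : D 4 → D 4 →L[ℝ] V m} (E : Eqn a b Ω u G)
    {K : Set (D 4)} (hK : IsCompact K) (hΩ : K ⊆ Ω) {φ : D 4 → V m} (hφ : ContDiff ℝ 1 φ)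
    (hs : tsupport φ ⊆ K) :
    ∫ x in K, pr (G x) (fderiv ℝ φ x + om a b (u x) (G x) (φ x)) = 0 := by
  rw [setIntegral_eq_integral_of_forall_compl_eq_zero fun x hx => ?_]
  · exact E φ hφ (hK.of_isClosed_subset (isClosed_tsupport _) hs) (hs.trans hΩ)
  · have h0 : φ x = 0 := image_eq_zero_of_notMem_tsupport fun h => hx (hs h)
    have h4 : om a b (u x) (G x) (φ x) = 0 := by
      ext1 v
      rw [om_apply, h0, map_zero, _root_.zero_apply]
    rw [h4, fderiv_of_notMem_tsupport ℝ fun h => hx (hs h), add_zero, test_pr_zero]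

end Pool.Agent.Lib.MP_a785f2_an.N4
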