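import Pool.Agent.Lib.MP_a785f2_an.N4.Defs
import Pool.Agent.Lib.MP_a785f2_an.NH.Rec
import Pool.Agent.Lib.MP_a785f2_an.NH.Err
import Pool.Agent.Lib.MP_a785f2_an.NH.Psi
import Pool.Agent.Lib.MP_a785f2_an.N4.Star1A

open MeasureTheory Metric Set Filter Topology
open scoped ContDiff RealInnerProductSpace ENNReal Convolution

namespace Pool.Agent.Lib.MP_a785f2_an.N4

open HS NH

variable {m : ℕ} {H : Type} [NormedAddCommGroup H] [NormedSpace ℝ H]
  {a : V m → H →L[ℝ] V m →L[ℝ] V m} {b : V m → H} {L : ℝ}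
  {Ω : Set (D 4)} {u : D 4 → V m} {G : D 4 → D 4 →L[ℝ] V m} {x0 : D 4} {t δ : ℝ}

/-- The test field `χ ^ 4 • vv (W k)` (that is `h = 1`): `br W • D vv (W) = TV (vv W)`, and
`‖TV v y‖ ^ 2 ≤ ⟪y, TV v y⟫ ≤ ‖y‖ ^ 2` for `‖v‖ ≤ 1`. -/
theorem star1 (T : Str a b L) : ∃ C : ℝ, 1 ≤ C ∧ ∀ (Ω : Set (D 4)) (u : D 4 → V m)
    (G : D 4 → D 4 →L[ℝ] V m), Sob Ω u G → Eqn a b Ω u G → ∀ (x0 : D 4) (R : ℝ)
    (U W : ℕ → D 4 → V m), closedBall x0 R ⊆ Ω → Apx (closedBall x0 R) u G U →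
    (∀ k, ContDiff ℝ 1 (W k)) → ∀ χ : D 4 → ℝ, ContDiff ℝ 1 χ → tsupport χ ⊆ closedBall x0 R →
    (∀ x, 0 ≤ χ x) → (∀ x, χ x ≤ 1) → ∀ ε : ℝ, 0 < ε → ∀ᶠ k in atTop,
      ∫ x in closedBall x0 R, χ x ^ 4 * ga G (W k) x ^ 4 ≤
        C * ((∫ x in closedBall x0 R, ‖G x‖ ^ 2 * sg a b (U k) (W k) x ^ 2) +
          ∫ x in closedBall x0 R, ‖fderiv ℝ χ x‖ * (‖G x‖ ^ 3 * ‖W k x‖)) + ε := by
  refine ⟨2 ^ 21, by norm_num, fun Ω u G S E x0 R U W hΩ hU hW χ hχ hs c0 c1 ε hε => ?_⟩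
  have hK := isCompact_closedBall x0 R
  obtain ⟨i1, t1⟩ := err_grad (n := 4) (by norm_num) S hU
  obtain ⟨i2, t2⟩ := err_con (n := 4) (by norm_num) T S hU
  have t3 := ((t1.const_mul (2 + L ^ 2)).add t2).const_mul (2 ^ 19)
  simp only [mul_zero, add_zero] at t3
  filter_upwards [t3.eventually (ge_mem_nhds hε)] with k hk
  have hφ : ContDiff ℝ 1 fun y => χ y ^ 4 • vv (W k y) :=
    (hχ.pow 4).smul (s1_vv_smooth.comp (hW k))
  have hsφ : tsupport (fun y => χ y ^ 4 • vv (W k y)) ⊆ closedBall x0 R := by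
    refine subset_trans (closure_mono fun y hy => ?_) hs
    intro h0
    exact hy (by simp [h0])
  have j0 := s1_pr_int T S hK hφ
  have j1 : IntegrableOn (fun x => ‖G x‖ ^ 2 * sg a b (U k) (W k) x ^ 2) (closedBall x0 R) :=
    s1_pow_int S hK (j := 2) (by norm_num)
      ((sg_cont T ((hU.sm k).of_le (by simp)) (hW k)).pow 2)
  have j2 : IntegrableOn (fun x => ‖fderiv ℝ χ x‖ * (‖G x‖ ^ 3 * ‖W k x‖)) (closedBall x0 R) := by
    have j3 := s1_pow_int S hK (j := 3) (by norm_num)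
      ((hχ.continuous_fderiv one_ne_zero).norm.mul (hW k).continuous.norm)
    refine j3.congr_fun (fun x _ => ?_) hK.measurableSet
    simp only [Pi.mul_apply]
    ring
  have j4 := (j1.add j2).const_mul (2 ^ 21)
  have j5 := (((i1 k).const_mul (2 + L ^ 2)).add (i2 k)).const_mul (2 ^ 19)
  have h1 := integral_mono_of_nonneg (μ := volume.restrict (closedBall x0 R))
    (ae_of_all _ fun x => mul_nonneg (pow_nonneg (c0 x) 4) (pow_nonneg (ga_nonneg G (W k) x) 4))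
    (((j0.const_mul 2048).add j4).add j5)
    (ae_of_all _ fun x => s1_pt T (u := u) (U := U k) (hW k) hχ x (c0 x) (c1 x))
  rw [integral_add' ((j0.const_mul 2048).add j4) j5, integral_add' (j0.const_mul 2048) j4,
    integral_const_mul, integral_const_mul, integral_const_mul, s1_zero E hK hΩ hφ hsφ] at h1
  simp only [Pi.add_apply] at h1
  rw [integral_add j1 j2, integral_add ((i1 k).const_mul (2 + L ^ 2)) (i2 k),
    integral_const_mul] at h1
  linarith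

end Pool.Agent.Lib.MP_a785f2_an.N4
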