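import Pool.Agent.Lib.MP_a785f2_an.N4.ImpA
import Pool.Agent.Lib.MP_a785f2_an.N4.Star1

open MeasureTheory Metric Set Filter Topology
open scoped ContDiff RealInnerProductSpace ENNReal Convolution

namespace Pool.Agent.Lib.MP_a785f2_an.N4

open HS NH

variable {m : ℕ} {H : Type} [NormedAddCommGroup H] [NormedSpace ℝ H]
  {a : V m → H →L[ℝ] V m →L[ℝ] V m} {b : V m → H} {L : ℝ}
  {Ω : Set (D 4)} {u : D 4 → V m} {G : D 4 → D 4 →L[ℝ] V m} {x0 : D 4} {t δ : ℝ}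

theorem imp_int3 (S : Sob Ω u G) {w : D 4 → V m} (hw : Continuous w) (R : ℝ) :
    IntegrableOn (fun x => ‖G x‖ ^ 3 * ‖w x‖) (closedBall x0 R) := by
  have h3 : IntegrableOn (fun x => ‖G x‖ ^ 3) (closedBall x0 R) := by
    have h4 : IntegrableOn (fun x => 1 + ‖G x‖ ^ 4) (closedBall x0 R) :=
      Integrable.fun_add (integrableOn_const measure_closedBall_lt_top.ne)
        (S.powG (by norm_num)).integrableOn
    refine h4.mono' (S.mG.norm.measurable.pow_const 3).aestronglyMeasurable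
      (ae_of_all _ fun x => ?_)
    rw [Real.norm_of_nonneg (by positivity)]
    rcases le_total ‖G x‖ 1 with h | h
    · exact (pow_le_one₀ (norm_nonneg _) h).trans (le_add_of_nonneg_right (by positivity))
    · exact (pow_le_pow_right₀ h (by norm_num)).trans (le_add_of_nonneg_left zero_le_one)
  exact h3.mul_continuousOn hw.norm.continuousOn (isCompact_closedBall x0 R)

/-- from the conclusion of `star1` to the transverse energy of the smaller cube -/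
theorem imp_pass (S : Sob Ω u G) {w : D 4 → V m} (hw : Continuous w) {χ : D 4 → ℝ}
    (c1 : ContDiff ℝ 1 χ) (lo : ∀ x, 0 ≤ χ x) (hi : ∀ x, χ x ≤ 1) {r1 r2 r3 P C A Z ε : ℝ}
    (h12 : r1 ≤ r2) (h23 : r2 ≤ r3) (one : ∀ x ∈ closedBall x0 r1, χ x = 1)
    (der : ∀ x, ‖fderiv ℝ χ x‖ ≤ P) (hC : 0 ≤ C)
    (hZ : ∫ x in closedBall x0 r3, P * (‖G x‖ ^ 3 * ‖w x‖) ≤ Z)
    (h : ∫ x in closedBall x0 r2, χ x ^ 4 * ga G w x ^ 4 ≤
      C * (A + ∫ x in closedBall x0 r2, ‖fderiv ℝ χ x‖ * (‖G x‖ ^ 3 * ‖w x‖)) + ε) :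
    ∫ x in closedBall x0 r1, ga G w x ^ 4 ≤ C * (A + Z) + ε := by
  have P0 : 0 ≤ P := (norm_nonneg _).trans (der x0)
  have nn : ∀ x, 0 ≤ χ x ^ 4 * ga G w x ^ 4 := fun x => by positivity
  have i1 : Integrable (fun x => χ x ^ 4 * ga G w x ^ 4) volume := by
    refine ((S.powG (by norm_num)).const_mul 16).mono'
      ((c1.continuous.measurable.pow_const 4).mul
        ((ga_meas S.mG hw).pow_const 4)).aestronglyMeasurable (ae_of_all _ fun x => ?_)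
    rw [Real.norm_of_nonneg (nn x)]
    calc χ x ^ 4 * ga G w x ^ 4 ≤ ga G w x ^ 4 :=
          mul_le_of_le_one_left (by positivity) (pow_le_one₀ (lo x) (hi x))
      _ ≤ (2 * ‖G x‖) ^ 4 := pow_le_pow_left₀ (ga_nonneg _ _ _) (ga_le _ _ _) 4
      _ = 16 * ‖G x‖ ^ 4 := by ring
  have i3 : IntegrableOn (fun x => P * (‖G x‖ ^ 3 * ‖w x‖)) (closedBall x0 r3) :=
    (imp_int3 S hw r3).const_mul P
  have e1 : ∫ x in closedBall x0 r1, ga G w x ^ 4 =
      ∫ x in closedBall x0 r1, χ x ^ 4 * ga G w x ^ 4 :=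
    setIntegral_congr_fun measurableSet_closedBall fun x hx => by
      simp only [one x hx, one_pow, one_mul]
  have e2 : ∫ x in closedBall x0 r1, χ x ^ 4 * ga G w x ^ 4 ≤
      ∫ x in closedBall x0 r2, χ x ^ 4 * ga G w x ^ 4 :=
    setIntegral_mono_set i1.integrableOn (ae_of_all _ nn)
      (closedBall_subset_closedBall h12).eventuallyLE
  have e3 : ∫ x in closedBall x0 r2, ‖fderiv ℝ χ x‖ * (‖G x‖ ^ 3 * ‖w x‖) ≤
      ∫ x in closedBall x0 r2, P * (‖G x‖ ^ 3 * ‖w x‖) :=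
    integral_mono_of_nonneg (ae_of_all _ fun x => by positivity)
      (i3.mono_set (closedBall_subset_closedBall h23))
      (ae_of_all _ fun x => mul_le_mul_of_nonneg_right (der x) (by positivity))
  have e4 : ∫ x in closedBall x0 r2, P * (‖G x‖ ^ 3 * ‖w x‖) ≤
      ∫ x in closedBall x0 r3, P * (‖G x‖ ^ 3 * ‖w x‖) :=
    setIntegral_mono_set i3 (ae_of_all _ fun x => by positivity)
      (closedBall_subset_closedBall h23).eventuallyLE
  rw [e1]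
  refine e2.trans (h.trans (add_le_add (mul_le_mul_of_nonneg_left ?_ hC) le_rfl))
  linarith

theorem imp_young (S : Sob Ω u G) {s : D 4 → ℝ} (hs : Continuous s) {R R' θ : ℝ} (hR : R ≤ R')
    (hθ : 0 < θ) : ∫ x in closedBall x0 R, ‖G x‖ ^ 2 * s x ^ 2 ≤
      θ * En G x0 R' + (∫ x in closedBall x0 R, s x ^ 4) / θ := by
  have i1 : Integrable (fun x => ‖G x‖ ^ 4) volume := S.powG (by norm_num)
  have i2 : IntegrableOn (fun x => s x ^ 4) (closedBall x0 R) :=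
    (hs.pow 4).continuousOn.integrableOn_compact (isCompact_closedBall x0 R)
  calc ∫ x in closedBall x0 R, ‖G x‖ ^ 2 * s x ^ 2
      ≤ ∫ x in closedBall x0 R, (θ * ‖G x‖ ^ 4 + s x ^ 4 / θ) := by
        refine integral_mono_of_nonneg (ae_of_all _ fun x => by positivity)
          (Integrable.fun_add (i1.integrableOn.const_mul θ) (i2.div_const θ))
          (ae_of_all _ fun x => ?_)
        have h1 : θ * ‖G x‖ ^ 4 + s x ^ 4 / θ - 2 * (‖G x‖ ^ 2 * s x ^ 2) =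
            (θ * ‖G x‖ ^ 2 - s x ^ 2) ^ 2 / θ := by
          field_simp
          ring
        have h2 : 0 ≤ (θ * ‖G x‖ ^ 2 - s x ^ 2) ^ 2 / θ := by positivity
        have h3 : 0 ≤ ‖G x‖ ^ 2 * s x ^ 2 := by positivity
        show ‖G x‖ ^ 2 * s x ^ 2 ≤ θ * ‖G x‖ ^ 4 + s x ^ 4 / θ
        linarith
    _ = θ * (∫ x in closedBall x0 R, ‖G x‖ ^ 4) + (∫ x in closedBall x0 R, s x ^ 4) / θ := by
        rw [integral_add (i1.integrableOn.const_mul θ) (i2.div_const θ), integral_const_mul,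
          integral_div]
    _ ≤ _ := add_le_add (mul_le_mul_of_nonneg_left (setIntegral_mono_set i1.integrableOn
        (ae_of_all _ fun x => by positivity) (closedBall_subset_closedBall hR).eventuallyLE)
        hθ.le) le_rfl

/-- Two passes with `star1` (cubes `19/16 → 18/16`, `16/16 → 15/16`) and `sig_int`. -/
theorem imp (T : Str a b L) (κ : ℝ) : ∃ C : ℝ, 1 ≤ C ∧ ∀ (Ω : Set (D 4)) (u : D 4 → V m)
    (G : D 4 → D 4 →L[ℝ] V m) (x0 : D 4) (t δ : ℝ) (W : ℕ → ℕ → D 4 → V m),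
    (∀ J, Chn a b Ω u G x0 t δ κ J (W J)) → Eqn a b Ω u G → En G x0 (2 * t) ≤ 1 →
    ∀ l : ℕ, 1 ≤ l → 1 ≤ δ * 2 ^ l → 1000 * κ * δ * l ≤ 1 → δ * (l : ℝ) ^ 8 ≤ 1 →
    ∀ᶠ J in atTop,
      ∫ x in closedBall x0 (13 * t / 16), sg a b (UU u t J) (W J J) x ^ 4 ≤
        C * δ ^ 7 * (l : ℝ) ^ 8 := by
  obtain ⟨B1, hB1, cut1⟩ := exists_cut2 (r1 := 18 / 16) (r2 := 19 / 16) (by norm_num) (by norm_num)
  obtain ⟨B2, -, cut2⟩ := exists_cut2 (r1 := 15 / 16) (r2 := 1) (by norm_num) (by norm_num)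
  obtain ⟨C0, h0, H0⟩ := imp0 T κ (B := max B1 B2) (hB1.trans (le_max_left _ _))
  obtain ⟨C1, h1, H1⟩ := star1 T
  obtain ⟨C2, h2, H2⟩ := sig_int T κ
  have p0 : 0 ≤ C0 := zero_le_one.trans h0
  have p1 : 0 ≤ C1 := zero_le_one.trans h1
  have p2 : 0 ≤ C2 := zero_le_one.trans h2
  obtain ⟨C3, hC3⟩ : ∃ C3, C3 = C2 * (C1 * (C0 + C0) + 2) := ⟨_, rfl⟩
  have p3 : 0 ≤ C3 := by rw [hC3]; positivity
  obtain ⟨C4, hC4⟩ : ∃ C4, C4 = C1 * (1 + C3 + C0) + 1 := ⟨_, rfl⟩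
  have p4 : 0 ≤ C4 := by rw [hC4]; positivity
  refine ⟨C2 * (C4 + 1), one_le_mul_of_one_le_of_one_le h2 (by linarith), ?_⟩
  intro Ω u G x0 t δ W hW E hE l l1 l2 l3 l4
  have X := (hW 0).X
  have ht := X.t0
  have hδ := X.dp
  have S := X.sob
  have L1 : (1 : ℝ) ≤ l := by exact_mod_cast l1
  have L0 : (0 : ℝ) < l := lt_of_lt_of_le one_pos L1
  have q2 : δ * (l : ℝ) ^ 2 ≤ 1 :=
    (mul_le_mul_of_nonneg_left (pow_le_pow_right₀ L1 (by norm_num)) hδ.le).trans l4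
  have q1 : δ * l ≤ 1 :=
    (mul_le_mul_of_nonneg_left (le_self_pow₀ L1 two_ne_zero) hδ.le).trans q2
  have q0 : δ ≤ 1 := (le_mul_of_one_le_right hδ.le L1).trans q1
  obtain ⟨χ1, a1, a2, a3, a4, a5, a6⟩ := cut1 x0 t ht
  obtain ⟨χ2, b1, b2, b3, b4, b5, b6⟩ := cut2 x0 t ht
  have sub : ∀ r : ℝ, r ≤ 2 * t → closedBall x0 r ⊆ Ω := fun r hr =>
    (closedBall_subset_closedBall hr).trans X.sub
  have apx : ∀ r : ℝ, r ≤ 3 * t / 2 → Apx (closedBall x0 r) u G (UU u t) := fun r hr =>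
    X.apx.mono (closedBall_subset_closedBall hr)
  have hε : 0 < δ ^ 3 * (l : ℝ) ^ 3 := by positivity
  have ev1 := H1 Ω u G S E x0 (19 / 16 * t) (UU u t) (fun J => W J J) (sub _ (by linarith))
    (apx _ (by linarith)) (fun J => (hW J).sm J) χ1 a1 a2 a3 a4 _ hε
  have ev2 := H1 Ω u G S E x0 (1 * t) (UU u t) (fun J => W J J) (sub _ (by linarith))
    (apx _ (by linarith)) (fun J => (hW J).sm J) χ2 b1 b2 b3 b4 _ hε
  filter_upwards [H0 Ω u G x0 t δ W hW E hE l l1 l2 l3 l4, ev1, ev2] with J k0 k1 k2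
  obtain ⟨k0, k0'⟩ := k0
  have cw : Continuous (W J J) := ((hW J).sm J).continuous
  have cs : Continuous (sg a b (UU u t J) (W J J)) := sg_cont T (X.smU t J) ((hW J).sm J)
  have e19 : 19 / 16 * t = 19 * t / 16 := by ring
  have d1 := imp_pass S cw a1 a3 a4 (r1 := 18 / 16 * t) (by linarith) e19.le a5
    (fun x => (a6 x).trans (div_le_div_of_nonneg_right (le_max_left B1 B2) ht.le)) p1 k0' k1
  have d2 := imp_pass S cw b1 b3 b4 (r1 := 15 / 16 * t) (r3 := 19 * t / 16) (by linarith)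
    (by linarith) b5
    (fun x => (b6 x).trans (div_le_div_of_nonneg_right (le_max_right B1 B2) ht.le)) p1 k0' k2
  have s1 := H2 Ω u G x0 t δ J (W J) (hW J) hE l l1 l2 l3 (1 * t) (by linarith)
  have s2 := H2 Ω u G x0 t δ J (W J) (hW J) hE l l1 l2 l3 (13 * t / 16) (by linarith)
  have y1 := imp_young (x0 := x0) S cs (R := 1 * t) (R' := 2 * t) (by linarith) hε
  rw [show 1 * t + t / 8 = 18 / 16 * t by ring] at s1
  rw [show 13 * t / 16 + t / 8 = 15 / 16 * t by ring] at s2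
  rw [e19] at d1
  have n2 : 0 ≤ δ ^ 2 * (l : ℝ) ^ 2 := by positivity
  have n34 : 0 ≤ δ ^ 3 * (l : ℝ) ^ 4 := by positivity
  have m1 : δ ^ 3 * (l : ℝ) ^ 4 ≤ δ ^ 2 * (l : ℝ) ^ 2 :=
    calc δ ^ 3 * (l : ℝ) ^ 4 = δ ^ 2 * (l : ℝ) ^ 2 * (δ * (l : ℝ) ^ 2) := by ring
      _ ≤ _ := mul_le_of_le_one_right n2 q2
  have m2 : δ ^ 3 * (l : ℝ) ^ 3 ≤ δ ^ 3 * (l : ℝ) ^ 4 :=
    mul_le_mul_of_nonneg_left (pow_le_pow_right₀ L1 (by norm_num)) (by positivity)
  have m3 : δ ^ 4 * (l : ℝ) ^ 4 ≤ δ ^ 3 * (l : ℝ) ^ 4 :=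
    mul_le_mul_of_nonneg_right (pow_le_pow_of_le_one hδ.le q0 (by norm_num)) (by positivity)
  have f1 : ∫ x in closedBall x0 (18 / 16 * t), ga G (W J J) x ^ 4 ≤
      (C1 * (C0 + C0) + 1) * (δ ^ 2 * (l : ℝ) ^ 2) := by
    refine d1.trans ?_
    have z1 : C0 * δ ^ 3 * (l : ℝ) ^ 4 ≤ C0 * (δ ^ 2 * (l : ℝ) ^ 2) := by
      rw [mul_assoc]; exact mul_le_mul_of_nonneg_left m1 p0
    rw [mul_assoc C0] at k0
    have z2 := mul_le_mul_of_nonneg_left (add_le_add k0 z1) p1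
    linarith
  have f2 : ∫ x in closedBall x0 (1 * t), sg a b (UU u t J) (W J J) x ^ 4 ≤
      C3 * (δ ^ 3 * (l : ℝ) ^ 3) * (δ ^ 3 * (l : ℝ) ^ 3) := by
    refine s1.trans ((mul_le_mul_of_nonneg_left (add_le_add f1 (m3.trans m1))
      (by positivity)).trans (le_of_eq ?_))
    rw [hC3]; ring
  have f3 : ∫ x in closedBall x0 (1 * t), ‖G x‖ ^ 2 * sg a b (UU u t J) (W J J) x ^ 2 ≤
      (1 + C3) * (δ ^ 3 * (l : ℝ) ^ 4) := by
    have z1 := (div_le_iff₀ hε).2 f2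
    have z2 := mul_le_of_le_one_right hε.le hE
    have z3 := mul_le_mul_of_nonneg_left m2 p3
    linarith
  have f4 : ∫ x in closedBall x0 (15 / 16 * t), ga G (W J J) x ^ 4 ≤
      C4 * (δ ^ 3 * (l : ℝ) ^ 4) := by
    refine d2.trans ?_
    have z2 := mul_le_mul_of_nonneg_left (add_le_add f3 (le_refl (C0 * δ ^ 3 * (l : ℝ) ^ 4))) p1
    rw [hC4]
    linarith
  refine s2.trans ((mul_le_mul_of_nonneg_left (add_le_add f4 m3)
    (by positivity)).trans (le_of_eq ?_))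
  ring

end Pool.Agent.Lib.MP_a785f2_an.N4
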