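import Pool.Agent.Lib.MP_a785f2_an.N4.Defs

open MeasureTheory Metric Set Filter Topology
open scoped ContDiff RealInnerProductSpace ENNReal Convolution

namespace Pool.Agent.Lib.MP_a785f2_an.N4

open HS NH

variable {m : ℕ} {H : Type} [NormedAddCommGroup H] [NormedSpace ℝ H]
  {a : V m → H →L[ℝ] V m →L[ℝ] V m} {b : V m → H} {L : ℝ}
  {Ω : Set (D 4)} {u : D 4 → V m} {G : D 4 → D 4 →L[ℝ] V m} {x0 : D 4} {t δ : ℝ}

theorem ia_am (g s : ℝ) {θ : ℝ} (hθ : 0 < θ) : g ^ 2 * s ^ 2 ≤ θ * g ^ 4 + s ^ 4 / θ := by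
  have h : g ^ 2 * s ^ 2 * θ ≤ (θ * g ^ 4 + s ^ 4 / θ) * θ := by
    have e : (θ * g ^ 4 + s ^ 4 / θ) * θ = (θ * g ^ 2) ^ 2 + (s ^ 2) ^ 2 := by
      field_simp
    rw [e]
    nlinarith [sq_nonneg (θ * g ^ 2 - s ^ 2), sq_nonneg (θ * g ^ 2), sq_nonneg (s ^ 2)]
  exact le_of_mul_le_mul_right h hθ

theorem ia_young {g r P w : ℝ} (hg : 0 ≤ g) (hr : 0 ≤ r) (hP : 0 ≤ P) (hw : 1 ≤ w) :
    P * (g ^ 3 * r) ≤ g ^ 4 / w ^ 3 + P ^ 4 * (r ^ 4 * w ^ 9) := by
  have w0 : 0 < w := lt_of_lt_of_le one_pos hw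
  have n1 : 0 ≤ g ^ 4 / w ^ 3 := by positivity
  have n2 : 0 ≤ P ^ 4 * (r ^ 4 * w ^ 9) := by positivity
  rcases le_total g (P * r * w ^ 3) with h | h
  · have h3 : g ^ 3 ≤ (P * r * w ^ 3) ^ 3 := pow_le_pow_left₀ hg h 3
    calc P * (g ^ 3 * r) ≤ P * ((P * r * w ^ 3) ^ 3 * r) := by gcongr
      _ = P ^ 4 * (r ^ 4 * w ^ 9) := by ring
      _ ≤ _ := le_add_of_nonneg_left n1
  · refine le_trans ?_ (le_add_of_nonneg_right n2)
    rw [le_div_iff₀ (by positivity)]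
    calc P * (g ^ 3 * r) * w ^ 3 = g ^ 3 * (P * r * w ^ 3) := by ring
      _ ≤ g ^ 3 * g := by gcongr
      _ = g ^ 4 := by ring

theorem ia_int4 (S : Sob Ω u G) (A : Set (D 4)) : IntegrableOn (fun x => ‖G x‖ ^ 4) A :=
  (S.powG (by norm_num)).integrableOn

theorem ia_en (S : Sob Ω u G) {R R' : ℝ} (h : R ≤ R') :
    ∫ x in closedBall x0 R, ‖G x‖ ^ 4 ≤ En G x0 R' :=
  setIntegral_mono_set (ia_int4 S _) (Eventually.of_forall fun _ => by positivity)
    (closedBall_subset_closedBall h).eventuallyLE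

theorem ia_int_gs (S : Sob Ω u G) {s : D 4 → ℝ} (hs : Continuous s) (x0 : D 4) (R : ℝ) :
    IntegrableOn (fun x => ‖G x‖ ^ 2 * s x ^ 2) (closedBall x0 R) := by
  have i1 : IntegrableOn (fun x => s x ^ 4) (closedBall x0 R) :=
    (hs.pow 4).continuousOn.integrableOn_compact (isCompact_closedBall _ _)
  refine Integrable.mono' ((ia_int4 S (closedBall x0 R)).add i1) ?_
    (Eventually.of_forall fun x => ?_)
  · exact ((S.mG.norm.measurable.pow_const 2).mul (hs.measurable.pow_const 2)).aestronglyMeasurable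
  · rw [Real.norm_of_nonneg (by positivity)]
    simpa using ia_am ‖G x‖ (s x) one_pos

/-- The mixed term by the energy and the fourth moment. -/
theorem ia_gs (S : Sob Ω u G) {s : D 4 → ℝ} (hs : Continuous s) (x0 : D 4) (R : ℝ) {θ : ℝ}
    (hθ : 0 < θ) : ∫ x in closedBall x0 R, ‖G x‖ ^ 2 * s x ^ 2 ≤
      θ * (∫ x in closedBall x0 R, ‖G x‖ ^ 4) + (∫ x in closedBall x0 R, s x ^ 4) / θ := by
  have i1 : IntegrableOn (fun x => s x ^ 4) (closedBall x0 R) :=
    (hs.pow 4).continuousOn.integrableOn_compact (isCompact_closedBall _ _)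
  rw [← integral_const_mul, ← integral_div,
    ← integral_add ((ia_int4 S _).const_mul θ) (i1.div_const θ)]
  exact integral_mono (ia_int_gs S hs x0 R) (((ia_int4 S _).const_mul θ).add (i1.div_const θ))
    fun x => ia_am _ _ hθ

theorem ia_ga (S : Sob Ω u G) {W : D 4 → V m} (x0 : D 4) (R : ℝ) :
    ∫ x in closedBall x0 R, ga G W x ^ 4 ≤ 16 * ∫ x in closedBall x0 R, ‖G x‖ ^ 4 := by
  rw [← integral_const_mul]
  refine integral_mono_of_nonneg (Eventually.of_forall fun x => pow_nonneg (ga_nonneg _ _ _) 4)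
    ((ia_int4 S _).const_mul 16) (Eventually.of_forall fun x => ?_)
  calc ga G W x ^ 4 ≤ (2 * ‖G x‖) ^ 4 := pow_le_pow_left₀ (ga_nonneg _ _ _) (ga_le _ _ _) 4
    _ = 16 * ‖G x‖ ^ 4 := by ring

theorem ia_int_w (S : Sob Ω u G) {χ w : D 4 → ℝ} (hχ : Continuous χ) (h0 : ∀ x, 0 ≤ χ x)
    (h1 : ∀ x, χ x ≤ 1) (hw : Continuous w) (w1 : ∀ x, 1 ≤ w x) :
    Integrable (fun x => χ x ^ 4 * (‖G x‖ ^ 4 / w x ^ 3)) volume := by
  refine (S.powG (by norm_num)).mono' ?_ (Eventually.of_forall fun x => ?_)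
  · exact ((hχ.measurable.pow_const 4).mul
      ((S.mG.norm.measurable.pow_const 4).div (hw.measurable.pow_const 3))).aestronglyMeasurable
  · have e3 : 0 ≤ ‖G x‖ ^ 4 / w x ^ 3 :=
      div_nonneg (by positivity) (pow_nonneg (zero_le_one.trans (w1 x)) 3)
    rw [Real.norm_of_nonneg (mul_nonneg (pow_nonneg (h0 x) 4) e3)]
    exact (mul_le_of_le_one_left e3 (pow_le_one₀ (h0 x) (h1 x))).trans
      (div_le_self (by positivity) (one_le_pow₀ (w1 x)))

/-- Young's inequality on the cube where the cut-off equals one. -/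
theorem ia_bd (S : Sob Ω u G) {χ : D 4 → ℝ} (hχ : Continuous χ) (h0 : ∀ x, 0 ≤ χ x)
    (h1 : ∀ x, χ x ≤ 1) {W : D 4 → V m} (hW : Continuous W) {R R' P : ℝ} (h : R ≤ R') (hP : 0 ≤ P)
    (one : ∀ x ∈ closedBall x0 R, χ x = 1) :
    ∫ x in closedBall x0 R, P * (‖G x‖ ^ 3 * ‖W x‖) ≤
      (∫ x in closedBall x0 R', χ x ^ 4 * (‖G x‖ ^ 4 / wt δ (W x) ^ 3)) +
        P ^ 4 * ∫ x in closedBall x0 R', ‖W x‖ ^ 4 * wt δ (W x) ^ 9 := by
  have cw : Continuous fun x => wt δ (W x) := (continuous_wt _).comp hW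
  have i1 := ia_int_w S hχ h0 h1 cw fun x => one_le_wt _ _
  have c2 : Continuous fun x => P ^ 4 * (‖W x‖ ^ 4 * wt δ (W x) ^ 9) :=
    continuous_const.mul ((hW.norm.pow 4).mul (cw.pow 9))
  have i2 : ∀ r : ℝ, IntegrableOn (fun x => P ^ 4 * (‖W x‖ ^ 4 * wt δ (W x) ^ 9))
      (closedBall x0 r) := fun r => c2.continuousOn.integrableOn_compact (isCompact_closedBall _ _)
  have w0 : ∀ x, 0 ≤ wt δ (W x) := fun x => zero_le_one.trans (one_le_wt _ _)
  rw [← integral_const_mul, ← integral_add i1.integrableOn (i2 R')]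
  refine le_trans (b := ∫ x in closedBall x0 R, (χ x ^ 4 * (‖G x‖ ^ 4 / wt δ (W x) ^ 3) +
    P ^ 4 * (‖W x‖ ^ 4 * wt δ (W x) ^ 9))) ?_ ?_
  · refine integral_mono_of_nonneg (Eventually.of_forall fun x => by positivity)
      (i1.integrableOn.add (i2 R)) ?_
    filter_upwards [ae_restrict_mem measurableSet_closedBall] with x hx
    simp only [one x hx, one_pow, one_mul]
    exact ia_young (norm_nonneg _) (norm_nonneg _) hP (one_le_wt _ _)
  · refine setIntegral_mono_set (i1.integrableOn.add (i2 R')) (Eventually.of_forall fun x => ?_)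
      (closedBall_subset_closedBall h).eventuallyLE
    have := w0 x
    have := h0 x
    simp only [Pi.zero_apply]
    positivity

/-- The boundary term of the crude pass. -/
theorem ia_cut {χ : D 4 → ℝ} {W : D 4 → V m} (hW : Continuous W) {R P : ℝ}
    (der : ∀ x, ‖fderiv ℝ χ x‖ ≤ P) :
    ∫ x in closedBall x0 R, ‖fderiv ℝ χ x‖ ^ 4 * (‖W x‖ ^ 4 * wt δ (W x) ^ 5) ≤
      P ^ 4 * ∫ x in closedBall x0 R, ‖W x‖ ^ 4 * wt δ (W x) ^ 9 := by
  have cw : Continuous fun x => wt δ (W x) := (continuous_wt _).comp hW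
  have c2 : Continuous fun x => P ^ 4 * (‖W x‖ ^ 4 * wt δ (W x) ^ 9) :=
    continuous_const.mul ((hW.norm.pow 4).mul (cw.pow 9))
  have w0 : ∀ x, 0 ≤ wt δ (W x) := fun x => zero_le_one.trans (one_le_wt _ _)
  rw [← integral_const_mul]
  refine integral_mono_of_nonneg (Eventually.of_forall fun x => ?_)
    (c2.continuousOn.integrableOn_compact (isCompact_closedBall _ _))
    (Eventually.of_forall fun x => ?_)
  · have := w0 x
    simp only [Pi.zero_apply]
    positivity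
  · have := w0 x
    have hP : 0 ≤ P := (norm_nonneg _).trans (der x)
    exact mul_le_mul (pow_le_pow_left₀ (norm_nonneg _) (der x) 4)
      (mul_le_mul_of_nonneg_left (pow_le_pow_right₀ (one_le_wt _ _) (by norm_num))
        (by positivity)) (by positivity) (by positivity)

end Pool.Agent.Lib.MP_a785f2_an.N4
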