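import Pool.Agent.Lib.MP_a785f2_an.N4.Qb
import Pool.Agent.Lib.MP_a785f2_an.N4.R3
import Pool.Agent.Lib.MP_a785f2_an.NH.Max

open MeasureTheory Metric Set Filter Topology
open scoped ContDiff RealInnerProductSpace ENNReal Convolution

namespace Pool.Agent.Lib.MP_a785f2_an.N4

open HS NH

variable {m : ℕ} {H : Type} [NormedAddCommGroup H] [NormedSpace ℝ H]
  {a : V m → H →L[ℝ] V m →L[ℝ] V m} {b : V m → H} {L : ℝ}
  {Ω : Set (D 4)} {u : D 4 → V m} {G : D 4 → D 4 →L[ℝ] V m} {x0 : D 4} {t δ : ℝ}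

/-- The local maximal function of a scalar function (port of `NH.mass_max`). -/
theorem loc_max {f : D 4 → ℝ} (hf : Measurable f) (f0 : ∀ x, 0 ≤ f x) (q : ℕ) (x0 : D 4)
    {R ρ : ℝ} (hi : IntegrableOn (fun x => f x ^ (q + 2)) (closedBall x0 (R + ρ))) (J : ℕ)
    (r : ℕ → ℝ) (r0 : ∀ j, 0 < r j) (r1 : ∀ j, r j ≤ ρ) :
    ∃ M : D 4 → ℝ, Measurable M ∧ (∀ x, 0 ≤ M x) ∧ Integrable (fun x => M x ^ (q + 2)) volume ∧
      ∫ x, M x ^ (q + 2) ≤ 2 ^ (q + 3) * 4 ^ 4 * ∫ x in closedBall x0 (R + ρ), f x ^ (q + 2) ∧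
      ∀ x ∈ closedBall x0 R, ∀ j ≤ J, ∫ y in closedBall x (r j), f y ≤ M x * (2 * r j) ^ 4 := by
  have e1 : (fun x => (closedBall x0 (R + ρ)).indicator f x ^ (q + 2)) =
      (closedBall x0 (R + ρ)).indicator fun z => f z ^ (q + 2) := funext fun x => by
    by_cases hx : x ∈ closedBall x0 (R + ρ) <;> simp [hx]
  obtain ⟨M, Mm, M0, hM, MI, hI⟩ := max_fam volume
    (hf.indicator (measurableSet_closedBall (x := x0) (ε := R + ρ)))
    (fun z => indicator_nonneg (fun z _ => f0 z) z) q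
    (e1 ▸ (integrable_indicator_iff measurableSet_closedBall).2 hi) J r r0
  rw [e1, integral_indicator measurableSet_closedBall, Module.finrank_fin_fun] at hI
  refine ⟨M, Mm, M0, MI, hI, fun x hx j hj => ?_⟩
  have h := hM x j hj
  have rp := r0 j
  rw [Measure.real, Real.volume_pi_ball _ rp, ENNReal.toReal_ofReal (by positivity),
    Fintype.card_fin] at h
  refine le_trans (le_of_eq ?_) h
  rw [← setIntegral_congr_set (ae_eq_of_subset_of_measure_ge ball_subset_closedBall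
    (by rw [Real.volume_pi_ball _ rp, Real.volume_pi_closedBall _ rp.le])
    measurableSet_ball.nullMeasurableSet measure_closedBall_lt_top.ne)]
  refine setIntegral_congr_fun measurableSet_ball fun z hz =>
    (indicator_of_mem (s := closedBall x0 (R + ρ)) ?_ f).symm
  have := dist_triangle z x x0
  rw [mem_ball] at hz
  rw [mem_closedBall] at hx ⊢
  linarith [r1 j]

/-- Pointwise bound for the defect (`crude`, `qb`, `r3`). -/
theorem sig_pt (T : Str a b L) (κ : ℝ) : ∃ C : ℝ, 1 ≤ C ∧ ∀ (Ω : Set (D 4)) (u : D 4 → V m)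
    (G : D 4 → D 4 →L[ℝ] V m) (x0 : D 4) (t δ : ℝ) (J : ℕ) (W : ℕ → D 4 → V m),
    Chn a b Ω u G x0 t δ κ J W →
    ∀ l : ℕ, 1 ≤ l → 1 ≤ δ * 2 ^ l → 1000 * κ * δ * l ≤ 1 →
    ∀ x ∈ closedBall x0 (5 * t / 4), ∀ M Mg : ℝ, 1 / t ≤ M → 0 ≤ Mg →
      (∀ j ≤ J, ∫ y in closedBall x (2 * sc t j), ‖G y‖ ^ 2 ≤ M ^ 2 * (2 * (2 * sc t j)) ^ 4) →
      (∀ j ≤ J, ∫ y in closedBall x (2 * sc t j), ga G (W J) y ≤ Mg * (2 * (2 * sc t j)) ^ 4) →
      sg a b (UU u t J) (W J) x ≤ C * δ * l * (Mg + δ * l * M) := by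
  obtain ⟨C1, h1, H1⟩ := crude T κ
  obtain ⟨C2, h2, H2⟩ := qb T κ
  refine ⟨max 1 (20000 * κ * (C1 * C2)), le_max_left _ _,
    fun Ω u G x0 t δ J W Y l l1 l2 l3 x hx M Mg hM hg hG hga => ?_⟩
  have tp := Y.X.t0
  have hδ := Y.X.dp
  have sp := sc_pos tp
  have M0 : 0 ≤ M := le_trans (by positivity) hM
  have hx' : x ∈ closedBall x0 (3 * t / 2) := closedBall_subset_closedBall (by linarith) hx
  have c1 : C1 ≤ C1 * C2 := le_mul_of_one_le_right (by linarith) h2
  have c2 : C2 ≤ C1 * C2 := le_mul_of_one_le_left (by linarith) h1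
  have key := r3 (C := C1 * C2) (κ := κ) (δ := δ) (s := t / 16) (M := M) (Mg := Mg) (l := l)
    (J := J) (z := fun j => zz G t j x) (zT := fun j => zz (tg G (vv (W J x))) t j x)
    (σ := fun j => sg a b (UU u t j) (W j) x) (h1.trans c1) Y.k1 hδ (by positivity)
    (by rw [div_le_iff₀ tp] at hM; linarith) hg l1 l2 l3
    (fun j hj => ⟨zz_nonneg G tp j x, ?_, (H2 Ω u G x0 t δ J W Y x hx j hj M Mg hM (hG j hj)
      (hga j hj)).1⟩) (fun j hj => ?_) (fun j hj => ⟨sg_nonneg _ _ _ _ _, ?_⟩)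
    (fun j hj => Y.st x hx' j hj _ (norm_vv_le _))
  · refine key.trans ?_
    have : 0 ≤ Mg + δ * l * M := by positivity
    gcongr
    exact le_max_right _ _
  · have := sp j
    have h3 := sc_le tp j
    unfold zz
    rw [div_le_iff₀ (by positivity)]
    exact Y.X.mor x _ (by positivity) (by rw [mem_closedBall] at hx; linarith)
  · refine (H2 Ω u G x0 t δ J W Y x hx j hj M Mg hM (hG j hj) (hga j hj)).2.trans ?_
    have h3 := Lam_nonneg G tp j J x
    have h4 : 0 ≤ Mg + (δ + Lam G t j J x) * M := by positivity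
    exact mul_le_mul_of_nonneg_right (mul_le_mul_of_nonneg_right c2 (sp j).le) h4
  · exact (H1 Ω u G x0 t δ J W Y x hx' j hj).trans
      (mul_le_mul_of_nonneg_right c1 (by positivity))

/-- Integrated bound (`loc_max` for `‖G‖ ^ 2` with `q = 0`, `M = √M2 + 1 / t`, and for `ga` with
`q = 2`). -/
theorem sig_int (T : Str a b L) (κ : ℝ) : ∃ C : ℝ, 1 ≤ C ∧ ∀ (Ω : Set (D 4)) (u : D 4 → V m)
    (G : D 4 → D 4 →L[ℝ] V m) (x0 : D 4) (t δ : ℝ) (J : ℕ) (W : ℕ → D 4 → V m),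
    Chn a b Ω u G x0 t δ κ J W →
    En G x0 (2 * t) ≤ 1 → ∀ l : ℕ, 1 ≤ l → 1 ≤ δ * 2 ^ l → 1000 * κ * δ * l ≤ 1 →
    ∀ R : ℝ, R ≤ 5 * t / 4 →
      ∫ x in closedBall x0 R, sg a b (UU u t J) (W J) x ^ 4 ≤ C * δ ^ 4 * (l : ℝ) ^ 4 *
        ((∫ x in closedBall x0 (R + t / 8), ga G (W J) x ^ 4) + δ ^ 4 * (l : ℝ) ^ 4) := by
  obtain ⟨C, hC, HC⟩ := sig_pt T κ
  have c4 : 1 ≤ C ^ 4 := one_le_pow₀ hC
  refine ⟨200000 * C ^ 4, by linarith, fun Ω u G x0 t δ J W Y hE l l1 l2 l3 R hR => ?_⟩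
  have tp := Y.X.t0
  have hδ := Y.X.dp
  have sp := sc_pos tp
  have iG : Integrable (fun y => ‖G y‖ ^ 4) volume := Y.X.sob.powG (by norm_num)
  have mg := ga_meas Y.X.sob.mG (Y.sm J).continuous
  have ig : Integrable (fun y => ga G (W J) y ^ 4) volume := by
    refine (iG.const_mul (2 ^ 4)).mono' (mg.pow_const 4).aestronglyMeasurable
      (Eventually.of_forall fun y => ?_)
    rw [Real.norm_of_nonneg (pow_nonneg (ga_nonneg _ _ _) 4), ← mul_pow]
    exact pow_le_pow_left₀ (ga_nonneg _ _ _) (ga_le _ _ _) 4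
  have e2 : (fun y => (‖G y‖ ^ 2) ^ (0 + 2)) = fun y => ‖G y‖ ^ 4 := funext fun y => by ring
  have r0 : ∀ j, 0 < 2 * sc t j := fun j => by have := sp j; positivity
  have r1 : ∀ j, 2 * sc t j ≤ t / 8 := fun j => by have := sc_le tp j; linarith
  obtain ⟨M, -, M0, iM, bM, hM⟩ := loc_max (f := fun y => ‖G y‖ ^ 2)
    (Y.X.sob.mG.norm.measurable.pow_const 2) (fun y => by positivity) 0 x0 (R := R) (ρ := t / 8)
    (e2 ▸ iG.integrableOn) J (fun j => 2 * sc t j) r0 r1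
  obtain ⟨N, -, N0, iN, bN, hN⟩ := loc_max (f := ga G (W J)) mg (ga_nonneg _ _) 2 x0 (R := R)
    (ρ := t / 8) ig.integrableOn J (fun j => 2 * sc t j) r0 r1
  rw [e2] at bM
  have E2 : ∫ x in closedBall x0 (R + t / 8), ‖G x‖ ^ 4 ≤ 1 :=
    (setIntegral_mono_set iG.integrableOn (Eventually.of_forall fun y => by positivity)
      (closedBall_subset_closedBall (by linarith)).eventuallyLE).trans hE
  have E3 : ∫ x in closedBall x0 R, M x ^ 2 ≤ 2048 :=
    (setIntegral_le_integral iM (Eventually.of_forall fun y => pow_nonneg (M0 y) 2)).trans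
      (bM.trans (by norm_num; linarith))
  set I := ∫ x in closedBall x0 (R + t / 8), ga G (W J) x ^ 4 with hI
  have I0 : 0 ≤ I := integral_nonneg fun y => pow_nonneg (ga_nonneg _ _ _) 4
  have E4 : ∫ x in closedBall x0 R, N x ^ 4 ≤ 8192 * I :=
    (setIntegral_le_integral iN (Eventually.of_forall fun y => pow_nonneg (N0 y) 4)).trans
      (bN.trans (by norm_num))
  have E5 : ∫ _ in closedBall x0 R, (1 / t) ^ 4 ≤ 40 := by
    rw [setIntegral_const, smul_eq_mul]
    have h1 : volume.real (closedBall x0 R) ≤ volume.real (closedBall x0 (5 * t / 4)) :=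
      measureReal_mono (closedBall_subset_closedBall hR) measure_closedBall_lt_top.ne
    rw [Measure.real, Measure.real, Real.volume_pi_closedBall x0 (r := 5 * t / 4) (by positivity),
      ENNReal.toReal_ofReal (by positivity), Fintype.card_fin] at h1
    calc _ ≤ (2 * (5 * t / 4)) ^ 4 * (1 / t) ^ 4 := by rw [Measure.real]; gcongr
      _ = 625 / 16 := by field_simp; norm_num
      _ ≤ 40 := by norm_num
  set k := δ ^ 4 * (l : ℝ) ^ 4 with hk
  have k0 : 0 ≤ k := by positivity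
  have ic : IntegrableOn (fun _ : D 4 => (1 / t) ^ 4) (closedBall x0 R) :=
    integrableOn_const measure_closedBall_lt_top.ne
  have i1 : IntegrableOn (fun x => M x ^ 2 + (1 / t) ^ 4) (closedBall x0 R) :=
    iM.integrableOn.add ic
  have i2 : IntegrableOn (fun x => 8 * k * (M x ^ 2 + (1 / t) ^ 4)) (closedBall x0 R) :=
    i1.const_mul _
  have i3 : IntegrableOn (fun x => N x ^ 4 + 8 * k * (M x ^ 2 + (1 / t) ^ 4))
      (closedBall x0 R) := iN.integrableOn.add i2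
  have p4 : ∀ p q : ℝ, (p + q) ^ 4 ≤ 8 * (p ^ 4 + q ^ 4) := fun p q => by
    nlinarith [sq_nonneg (p - q), sq_nonneg (p + q), sq_nonneg (p ^ 2 - q ^ 2),
      mul_nonneg (sq_nonneg (p - q)) (sq_nonneg (p + q)), sq_nonneg ((p - q) ^ 2)]
  calc _ ≤ ∫ x in closedBall x0 R,
        8 * C ^ 4 * k * (N x ^ 4 + 8 * k * (M x ^ 2 + (1 / t) ^ 4)) := by
        refine integral_mono_of_nonneg
          (Eventually.of_forall fun x => pow_nonneg (sg_nonneg _ _ _ _ _) 4) (i3.const_mul _)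
          ((ae_restrict_iff' measurableSet_closedBall).2 (Eventually.of_forall fun x hx => ?_))
        have s0 := Real.sqrt_nonneg (M x)
        have t0 : 0 < 1 / t := by positivity
        have s2 : √(M x) ^ 2 = M x := Real.sq_sqrt (M0 x)
        have h1 := HC Ω u G x0 t δ J W Y l l1 l2 l3 x (closedBall_subset_closedBall hR hx)
          (√(M x) + 1 / t) (N x) (by linarith) (N0 x) (fun j hj => (hM x hx j hj).trans (by
            have := r0 j
            have h5 : M x ≤ (√(M x) + 1 / t) ^ 2 := by nlinarith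
            gcongr)) (hN x hx)
        have h2 := p4 (√(M x)) (1 / t)
        have h3 : √(M x) ^ 4 = M x ^ 2 := by rw [← s2]; rw [Real.sqrt_sq s0]; ring
        rw [h3] at h2
        calc _ ≤ (C * δ * l * (N x + δ * l * (√(M x) + 1 / t))) ^ 4 :=
              pow_le_pow_left₀ (sg_nonneg _ _ _ _ _) h1 4
          _ = C ^ 4 * k * (N x + δ * l * (√(M x) + 1 / t)) ^ 4 := by rw [hk]; ring
          _ ≤ C ^ 4 * k * (8 * (N x ^ 4 + (δ * l * (√(M x) + 1 / t)) ^ 4)) :=
              mul_le_mul_of_nonneg_left (p4 _ _) (by positivity)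
          _ = 8 * C ^ 4 * k * (N x ^ 4 + k * (√(M x) + 1 / t) ^ 4) := by rw [hk]; ring
          _ ≤ 8 * C ^ 4 * k * (N x ^ 4 + k * (8 * (M x ^ 2 + (1 / t) ^ 4))) := by gcongr
          _ = _ := by ring
    _ = 8 * C ^ 4 * k * ((∫ x in closedBall x0 R, N x ^ 4) + 8 * k *
          ((∫ x in closedBall x0 R, M x ^ 2) + ∫ _ in closedBall x0 R, (1 / t) ^ 4)) := by
        rw [integral_const_mul, integral_add iN.integrableOn i2, integral_const_mul,
          integral_add iM.integrableOn ic]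
    _ ≤ 8 * C ^ 4 * k * (8192 * I + 8 * k * (2048 + 40)) := by gcongr
    _ ≤ 8 * C ^ 4 * k * (25000 * (I + k)) := by
        refine mul_le_mul_of_nonneg_left ?_ (by positivity)
        nlinarith
    _ = _ := by rw [hk]; ring

end Pool.Agent.Lib.MP_a785f2_an.N4
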