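import Pool.Agent.Lib.MP_a785f2_an.N4.Star
import Pool.Agent.Lib.MP_a785f2_an.N4.Sig
import Pool.Agent.Lib.MP_a785f2_an.N4.Bdry
import Pool.Agent.Lib.MP_a785f2_an.N4.ImpAA

open MeasureTheory Metric Set Filter Topology
open scoped ContDiff RealInnerProductSpace ENNReal Convolution

namespace Pool.Agent.Lib.MP_a785f2_an.N4

open HS NH

variable {m : ℕ} {H : Type} [NormedAddCommGroup H] [NormedSpace ℝ H]
  {a : V m → H →L[ℝ] V m →L[ℝ] V m} {b : V m → H} {L : ℝ}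
  {Ω : Set (D 4)} {u : D 4 → V m} {G : D 4 → D 4 →L[ℝ] V m} {x0 : D 4} {t δ : ℝ}

/-- Pass zero: `star4` with `h = δ` on the cube of radius `20 t / 16`, the crude bound
`∫ sg ^ 4 ≤ C δ ^ 4 l ^ 4` (`sig_int`, `ga_le`), `mom`, then Young
`g ^ 3 r P ≤ g ^ 4 / w ^ 3 + P ^ 4 r ^ 4 w ^ 9` with `P = B / t`. -/
theorem imp0 (T : Str a b L) (κ : ℝ) {B : ℝ} (hB : 1 ≤ B) : ∃ C : ℝ, 1 ≤ C ∧ ∀ (Ω : Set (D 4)) (u : D 4 → V m)
    (G : D 4 → D 4 →L[ℝ] V m) (x0 : D 4) (t δ : ℝ) (W : ℕ → ℕ → D 4 → V m),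
    (∀ J, Chn a b Ω u G x0 t δ κ J (W J)) → Eqn a b Ω u G → En G x0 (2 * t) ≤ 1 →
    ∀ l : ℕ, 1 ≤ l → 1 ≤ δ * 2 ^ l → 1000 * κ * δ * l ≤ 1 → δ * (l : ℝ) ^ 8 ≤ 1 →
    ∀ᶠ J in atTop,
      ∫ x in closedBall x0 (19 * t / 16), ‖G x‖ ^ 2 * sg a b (UU u t J) (W J J) x ^ 2 ≤
        C * δ ^ 2 * (l : ℝ) ^ 2 ∧
      ∫ x in closedBall x0 (19 * t / 16), B / t * (‖G x‖ ^ 3 * ‖W J J x‖) ≤
        C * δ ^ 3 * (l : ℝ) ^ 4 := by
  obtain ⟨B0, hB0, hcut⟩ := exists_cut2 (r1 := 19 / 16) (r2 := 5 / 4) (by norm_num) (by norm_num)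
  obtain ⟨C1, h1, hstar⟩ := star4 T
  obtain ⟨C2, h2, hsig⟩ := sig_int T κ
  obtain ⟨C3, h3, hmom⟩ := mom (a := a) (b := b) κ
  have p1 : 0 ≤ C1 * (1 + 34 * C2 + B0 ^ 4 * C3) := by positivity
  have p2 : 0 ≤ B ^ 4 * C3 := by positivity
  refine ⟨(1 + 17 * C2) + (C1 * (1 + 34 * C2 + B0 ^ 4 * C3) + 1 + B ^ 4 * C3), by linarith, ?_⟩
  intro Ω u G x0 t δ W ch E hE l hl _h hk _h8
  have X := (ch 0).X
  have hδ := X.dp
  have ht := X.t0
  have l1 : (1 : ℝ) ≤ l := by exact_mod_cast hl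
  have k1 := (ch 0).k1
  have dl : δ * l ≤ 1 := by
    have : 0 ≤ δ * l := by positivity
    nlinarith
  have d1 : δ ≤ 1 := le_trans (le_mul_of_one_le_right hδ.le l1) dl
  obtain ⟨χ, sm, supp, lo, hi, one, der⟩ := hcut x0 t ht
  have e54 : 5 / 4 * t = 5 * t / 4 := by ring
  have e19 : 19 / 16 * t = 19 * t / 16 := by ring
  rw [e54] at supp
  rw [e19] at one
  have hsub : closedBall x0 (5 * t / 4) ⊆ Ω :=
    (closedBall_subset_closedBall (by linarith)).trans X.sub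
  have hapx : Apx (closedBall x0 (5 * t / 4)) u G (UU u t) :=
    X.apx.mono (closedBall_subset_closedBall (by linarith))
  have hev := hstar Ω u G X.sob E x0 (5 * t / 4) (UU u t) (fun J => W J J) hsub hapx
    (fun J => (ch J).sm J) χ sm supp lo hi δ hδ d1 (δ ^ 3) (by positivity)
  filter_upwards [hev] with J hJ
  have cW := ((ch J).sm J).continuous
  have cs := sg_cont T (X.smU t J) ((ch J).sm J)
  have s4 := hsig Ω u G x0 t δ J (W J) (ch J) hE l hl _h hk (5 * t / 4) le_rfl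
  have g4 : ∫ x in closedBall x0 (5 * t / 4 + t / 8), ga G (W J J) x ^ 4 ≤ 16 :=
    (ia_ga X.sob x0 _).trans (by
      linarith [(ia_en (x0 := x0) X.sob (show 5 * t / 4 + t / 8 ≤ 2 * t by linarith)).trans hE])
  have dl4 : δ ^ 4 * (l : ℝ) ^ 4 ≤ 1 := by
    rw [← mul_pow]; exact pow_le_one₀ (by positivity) dl
  have s5 : ∫ x in closedBall x0 (5 * t / 4), sg a b (UU u t J) (W J J) x ^ 4 ≤
      17 * C2 * (δ ^ 4 * (l : ℝ) ^ 4) :=
    s4.trans ((mul_le_mul_of_nonneg_left (show _ ≤ (17 : ℝ) by linarith) (by positivity)).trans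
      (le_of_eq (by ring)))
  have en := (ia_en (x0 := x0) X.sob (show 5 * t / 4 ≤ 2 * t by linarith)).trans hE
  have θ0 : 0 < δ ^ 2 * (l : ℝ) ^ 2 := by positivity
  have gs : ∫ x in closedBall x0 (5 * t / 4), ‖G x‖ ^ 2 * sg a b (UU u t J) (W J J) x ^ 2 ≤
      (1 + 17 * C2) * (δ ^ 2 * (l : ℝ) ^ 2) := by
    refine (ia_gs X.sob cs x0 _ θ0).trans ?_
    have q1 := mul_le_mul_of_nonneg_left en θ0.le
    have q2 : (∫ x in closedBall x0 (5 * t / 4), sg a b (UU u t J) (W J J) x ^ 4) /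
        (δ ^ 2 * (l : ℝ) ^ 2) ≤ 17 * C2 * (δ ^ 2 * (l : ℝ) ^ 2) := by
      rw [div_le_iff₀ θ0]
      exact s5.trans (le_of_eq (by ring))
    linarith
  have mo := hmom Ω u G x0 t δ J (W J) (ch J)
  have pw : ∀ P : ℝ, (P / t) ^ 4 * ∫ x in closedBall x0 (5 * t / 4),
      ‖W J J x‖ ^ 4 * wt δ (W J J x) ^ 9 ≤ P ^ 4 * C3 * (δ ^ 3 * (l : ℝ) ^ 4) := fun P => by
    refine (mul_le_mul_of_nonneg_left mo (by positivity)).trans ?_
    have e : (P / t) ^ 4 * (C3 * δ ^ 4 * t ^ 4) = P ^ 4 * C3 * (δ ^ 3 * δ) := by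
      field_simp
    rw [e]
    have : δ ≤ (l : ℝ) ^ 4 := d1.trans (one_le_pow₀ l1)
    gcongr
  have ig := ia_int_gs X.sob cs x0 (5 * t / 4)
  have is4 : IntegrableOn (fun x => sg a b (UU u t J) (W J J) x ^ 4) (closedBall x0 (5 * t / 4)) :=
    (cs.pow 4).continuousOn.integrableOn_compact (isCompact_closedBall _ _)
  have y0 : 0 ≤ δ ^ 3 * (l : ℝ) ^ 4 := by positivity
  have bulk : ∫ x in closedBall x0 (5 * t / 4),
      (δ * (‖G x‖ ^ 2 * sg a b (UU u t J) (W J J) x ^ 2) + sg a b (UU u t J) (W J J) x ^ 4 / δ) ≤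
      (1 + 34 * C2) * (δ ^ 3 * (l : ℝ) ^ 4) := by
    rw [integral_add (ig.const_mul δ) (is4.div_const δ), integral_const_mul, integral_div]
    have q1 : δ * ((1 + 17 * C2) * (δ ^ 2 * (l : ℝ) ^ 2)) ≤
        (1 + 17 * C2) * (δ ^ 3 * (l : ℝ) ^ 4) := by
      have : (l : ℝ) ^ 2 ≤ (l : ℝ) ^ 4 := pow_le_pow_right₀ l1 (by norm_num)
      calc _ = (1 + 17 * C2) * (δ ^ 3 * (l : ℝ) ^ 2) := by ring
        _ ≤ _ := by gcongr
    have q2 : (∫ x in closedBall x0 (5 * t / 4), sg a b (UU u t J) (W J J) x ^ 4) / δ ≤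
        17 * C2 * (δ ^ 3 * (l : ℝ) ^ 4) := by
      rw [div_le_iff₀ hδ]
      exact s5.trans (le_of_eq (by ring))
    linarith [mul_le_mul_of_nonneg_left gs hδ.le]
  constructor
  · refine (setIntegral_mono_set ig (Eventually.of_forall fun _ => by positivity)
      (closedBall_subset_closedBall (show 19 * t / 16 ≤ 5 * t / 4 by linarith)).eventuallyLE).trans
      (gs.trans ?_)
    rw [mul_assoc]
    exact mul_le_mul_of_nonneg_right (by linarith) θ0.le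
  · refine (ia_bd (δ := δ) X.sob sm.continuous lo hi cW
      (show 19 * t / 16 ≤ 5 * t / 4 by linarith) (by positivity) one).trans ?_
    have q1 := (ia_cut (δ := δ) (x0 := x0) (R := 5 * t / 4) cW der).trans (pw B0)
    have q2 := mul_le_mul_of_nonneg_left (add_le_add bulk q1) (zero_le_one.trans h1)
    have q3 : δ ^ 3 ≤ δ ^ 3 * (l : ℝ) ^ 4 :=
      le_mul_of_one_le_right (by positivity) (one_le_pow₀ l1)
    have q4 := pw B
    have q5 : 0 ≤ (1 + 17 * C2) * (δ ^ 3 * (l : ℝ) ^ 4) := by positivity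
    refine (add_le_add (hJ.trans (add_le_add q2 q3)) q4).trans ?_
    nlinarith [q5]

end Pool.Agent.Lib.MP_a785f2_an.N4
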