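import Pool.Agent.Lib.MP_a785f2_an.N4.Rad

open MeasureTheory Metric Set Filter Topology
open scoped ContDiff RealInnerProductSpace ENNReal Convolution

namespace Pool.Agent.Lib.MP_a785f2_an.N4

open HS NH

variable {m : ℕ} {H : Type} [NormedAddCommGroup H] [NormedSpace ℝ H]
  {a : V m → H →L[ℝ] V m →L[ℝ] V m} {b : V m → H} {L : ℝ}
  {Ω : Set (D 4)} {u : D 4 → V m} {G : D 4 → D 4 →L[ℝ] V m} {x0 : D 4} {t δ : ℝ}

/-- Second moment of the weight on the inner cubes. -/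
theorem inner_wt (κ : ℝ) : ∃ C : ℝ, 1 ≤ C ∧ ∀ (Ω : Set (D 4)) (u : D 4 → V m)
    (G : D 4 → D 4 →L[ℝ] V m) (x0 : D 4) (t δ : ℝ) (J : ℕ) (W : ℕ → D 4 → V m),
    Chn a b Ω u G x0 t δ κ J W →
    ∀ K : ℕ, 1 ≤ K → 1000 * κ * δ * K ≤ 1 → ∀ i : ℕ, 1 ≤ i → i ≤ K → K ≤ J →
      ∫ x in closedBall x0 (t / 2 ^ i), wt (K * δ) (W J x) ^ 2 ≤ C * (t / 2 ^ i) ^ 4 := by
  obtain ⟨C, hC, hR⟩ := rad_bd (a := a) (b := b) κ
  refine ⟨16 * (1 + 2 * (40 + C) ^ 2) + 24 * C ^ 3,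
    by nlinarith [pow_nonneg (zero_le_one.trans hC) 3, sq_nonneg (40 + C)],
    fun Ω u G x0 t δ J W Y K hK hs i hi hiK hKJ => ?_⟩
  have X := Y.X
  have ht := X.t0
  have hδ := X.dp
  have hK1 : (1 : ℝ) ≤ K := by exact_mod_cast hK
  have hiK' : (i : ℝ) ≤ K := by exact_mod_cast hiK
  have hk : 0 ≤ 1000 * κ * δ := by have := Y.k1; positivity
  have hsi : 1000 * κ * δ * i ≤ 1 := (mul_le_mul_of_nonneg_left hiK' hk).trans hs
  set ρ : ℝ := t / 2 ^ i with hρ
  have ρ0 : 0 < ρ := by positivity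
  have ρ1 : ρ ≤ t / 2 := by
    refine div_le_div_of_nonneg_left ht.le two_pos ?_
    simpa using pow_le_pow_right₀ (one_le_two : (1 : ℝ) ≤ 2) hi
  obtain ⟨iL, hL⟩ := X.lam_int i J (A := closedBall x0 ρ) (A' := closedBall x0 (9 * ρ / 8))
    measurableSet_closedBall measurableSet_closedBall
    (closedBall_subset_closedBall (by linarith)) fun x hx =>
      closedBall_subset_closedBall' (by
        have h1 : t / 8 / 2 ^ i = ρ / 8 := by rw [hρ]; ring
        rw [h1]; linarith [mem_closedBall.1 hx])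
  have hM : ∫ y in closedBall x0 (9 * ρ / 8), ‖G y‖ ≤ δ * (9 * ρ / 8) ^ 3 :=
    X.mor x0 _ (by positivity) (by rw [dist_self]; linarith)
  have hL' : ∫ x in closedBall x0 ρ, lam G t δ i J x ≤ 12 * ρ ^ 4 := by
    refine hL.trans ?_
    rw [div_le_iff₀ hδ]
    refine (mul_le_mul_of_nonneg_left hM (by positivity)).trans ?_
    nlinarith [mul_pos (pow_pos ρ0 4) hδ]
  have hpt : ∀ x ∈ closedBall x0 ρ, wt (K * δ) (W J x) ^ 2 ≤
      (1 + 2 * (40 + C) ^ 2) + 2 * C ^ 3 * lam G t δ i J x := by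
    intro x hx
    have hx' : x ∈ closedBall x0 (3 * t / 2) := closedBall_subset_closedBall (by linarith) hx
    obtain ⟨τ, τ0, h1, h2⟩ := hR Ω u G x0 t δ J W Y x hx' i (hiK.trans hKJ) hsi
    have h3 : ‖W 0 x‖ ≤ 40 * δ := by rw [Y.w0]; exact X.w0_in hx'
    have C0 : 0 ≤ C := zero_le_one.trans hC
    have h4 : ‖W J x‖ ≤ (40 + C + C * τ) * (K * δ) := by
      have e1 : 40 * δ ≤ 40 * (K * δ) := by nlinarith
      have e2 : C * δ * i ≤ C * (K * δ) := by nlinarith [mul_nonneg C0 hδ.le]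
      have e3 : C * δ * τ ≤ C * τ * (K * δ) := by
        nlinarith [mul_nonneg (mul_nonneg C0 hδ.le) τ0]
      nlinarith
    have h5 : ‖W J x‖ ^ 2 / (K * δ) ^ 2 ≤ (40 + C + C * τ) ^ 2 := by
      rw [div_le_iff₀ (by positivity), ← mul_pow]
      exact pow_le_pow_left₀ (norm_nonneg _) h4 2
    have h6 : C ^ 2 * τ ^ 2 ≤ C ^ 2 * (C * lam G t δ i J x) :=
      mul_le_mul_of_nonneg_left (h2 2 one_le_two (by norm_num)) (sq_nonneg _)
    rw [wt_sq]
    nlinarith [sq_nonneg (40 + C - C * τ)]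
  have hc : Continuous fun x => wt (K * δ) (W J x) ^ 2 :=
    ((continuous_wt _).comp (Y.sm J).continuous).pow 2
  have hv : (volume : Measure (D 4)).real (closedBall x0 ρ) = 16 * ρ ^ 4 := by
    rw [Measure.real, Real.volume_pi_closedBall x0 ρ0.le, ENNReal.toReal_ofReal (by positivity),
      Fintype.card_fin]
    ring
  have i1 : IntegrableOn (fun _ : D 4 => 1 + 2 * (40 + C) ^ 2) (closedBall x0 ρ) :=
    continuous_const.continuousOn.integrableOn_compact (isCompact_closedBall x0 ρ)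
  refine (setIntegral_mono_on (hc.continuousOn.integrableOn_compact (isCompact_closedBall x0 ρ))
    (i1.add (iL.const_mul (2 * C ^ 3))) measurableSet_closedBall hpt).trans ?_
  simp only [Pi.add_apply]
  rw [integral_add i1 (iL.const_mul (2 * C ^ 3)), setIntegral_const, integral_const_mul, hv,
    smul_eq_mul]
  have h7 := mul_le_mul_of_nonneg_left hL' (by positivity : 0 ≤ 2 * C ^ 3)
  nlinarith

end Pool.Agent.Lib.MP_a785f2_an.N4
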