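import Pool.Agent.Lib.MP_a785f2_an.NH.ManC

/-! The normal part of the right-hand side, without assuming that the tangential part vanishes. -/

open MeasureTheory Metric Set Filter Topology
open scoped ContDiff RealInnerProductSpace ENNReal

namespace Pool.Agent.Lib.MP_a785f2_an.NH

open HS

variable {n m : ℕ}

theorem manC_test2 (hn : 2 ≤ n) {Ω : Set (D n)} {u : D n → V m} {G : D n → D n →L[ℝ] V m}
    {F : D n → V m} (S : GSol Ω u G F) {P : V m → V m →L[ℝ] V m} (h1 : ContDiff ℝ 1 P)
    (h2 : HasCompactSupport P) (hs : ∀ q a b, ⟪P q a, b⟫ = ⟪a, P q b⟫)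
    (hG : ∀ᵐ x, x ∈ Ω → ∀ v, P (u x) (G x v) = G x v)
    {x0 : D n} {R : ℝ} (hK : closedBall x0 R ⊆ Ω)
    {g : D n → ℝ} (g1 : ContDiff ℝ ∞ g) (g2 : HasCompactSupport g)
    (g3 : tsupport g ⊆ closedBall x0 R) (v : V m) :
    ∫ x, g x * (⟪F x - P (u x) (F x), v⟫ + quad (fderiv ℝ P (u x)) (G x) (G x) v) = 0 := by
  obtain ⟨w, hw⟩ := S.apx hn hK
  have cP : Continuous P := h1.continuous
  have cD : Continuous (fderiv ℝ P) := h1.continuous_fderiv one_ne_zero
  have cg : Continuous (fderiv ℝ g) := g1.continuous_fderiv (by simp)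
  obtain ⟨L1, L10, hL1⟩ := tr_bdd cP h2
  obtain ⟨L2, L20, hL2⟩ := bdd_fderiv h1 h2
  obtain ⟨L3, L30, hL3⟩ := tr_bdd g1.continuous g2
  obtain ⟨L4, L40, hL4⟩ := tr_bdd cg (g2.fderiv ℝ)
  have ifro := S.ifro hn
  have f0 : ∀ x, 0 ≤ fro (G x) := fun x => fro_nonneg _
  have hpow : ∀ x, fro (G x) ^ (n - 1) * fro (G x) = fro (G x) ^ n := fun x => by
    rw [← pow_succ]; congr 1; omega
  have hpow2 : ∀ x, fro (G x) ^ (n - 1) ≤ 1 + fro (G x) ^ n := fun x => by
    rcases le_total (fro (G x)) 1 with h | h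
    · linarith [pow_le_one₀ (f0 x) h (n := n - 1), pow_nonneg (f0 x) n]
    · linarith [pow_le_pow_right₀ h (by omega : n - 1 ≤ n)]
  have hout : ∀ x, x ∉ closedBall x0 R → g x = 0 ∧ fderiv ℝ g x = 0 := fun x hx =>
    ⟨image_eq_zero_of_notMem_tsupport fun h => hx (g3 h),
      image_eq_zero_of_notMem_tsupport fun h => hx (g3 (tsupport_fderiv_subset ℝ h))⟩
  have hv : ∀ y : V m, ‖v - P y v‖ ≤ (1 + L1) * ‖v‖ := fun y => by
    have := (P y).le_of_opNorm_le (hL1 y) v
    linarith [norm_sub_le v (P y v)]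
  -- the three terms
  set T : D n → V m → ℝ := fun x y =>
    pr (G x) ((fderiv ℝ g x).smulRight (v - P y v)) - g x * quad (fderiv ℝ P y) (G x) (G x) v
      - g x * ⟪F x, v - P y v⟫ with hT
  set Z : ℕ → D n → ℝ := fun k x =>
    g x * quad (fderiv ℝ P (w k x)) (G x) (fderiv ℝ (w k) x - G x) v with hZ
  have mT : ∀ y : D n → V m, StronglyMeasurable y → StronglyMeasurable fun x => T x (y x) := by
    intro y hy
    have a1 : StronglyMeasurable fun x => v - P (y x) v :=
      (continuous_const.sub (cP.clm_apply continuous_const)).comp_stronglyMeasurable hy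
    have a2 : StronglyMeasurable fun x => fderiv ℝ P (y x) := cD.comp_stronglyMeasurable hy
    exact ((pr_meas S.mG (smr_meas cg.stronglyMeasurable a1)).sub
      (g1.continuous.stronglyMeasurable.mul (quad_meas a2 S.mG v))).sub
      (g1.continuous.stronglyMeasurable.mul (S.mF.inner a1))
  set bd : D n → ℝ := fun x => n * ((1 + L1) * ‖v‖) * (‖fderiv ℝ g x‖ + L4 * fro (G x) ^ n)
    + L3 * (n * L2 * ‖v‖ * fro (G x) ^ n) + L3 * (‖F x‖ * ((1 + L1) * ‖v‖)) with hbd
  have ibd : Integrable bd :=
    ((((cg.integrable_of_hasCompactSupport (g2.fderiv ℝ)).norm.add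
      (ifro.const_mul L4)).const_mul _).add ((ifro.const_mul _).const_mul _)).add
      ((S.lF.norm.mul_const _).const_mul _)
  have bT : ∀ x y, ‖T x y‖ ≤ bd x := fun x y => by
    have b1 : |pr (G x) ((fderiv ℝ g x).smulRight (v - P y v))| ≤
        n * ((1 + L1) * ‖v‖) * (‖fderiv ℝ g x‖ + L4 * fro (G x) ^ n) := by
      refine (abs_pr_le hn _ _).trans ?_
      rw [ContinuousLinearMap.norm_smulRight_apply]
      have q1 : fro (G x) ^ (n - 1) * ‖fderiv ℝ g x‖ ≤ ‖fderiv ℝ g x‖ + L4 * fro (G x) ^ n := by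
        have := mul_le_mul_of_nonneg_right (hpow2 x) (norm_nonneg (fderiv ℝ g x))
        have := mul_le_mul_of_nonneg_left (hL4 x) (pow_nonneg (f0 x) n)
        nlinarith
      calc (n : ℝ) * (fro (G x) ^ (n - 1) * (‖fderiv ℝ g x‖ * ‖v - P y v‖))
          = n * ‖v - P y v‖ * (fro (G x) ^ (n - 1) * ‖fderiv ℝ g x‖) := by ring
        _ ≤ _ := by
          have := hv y
          have := pow_nonneg (f0 x) (n - 1)
          gcongr
    have b2 : |g x * quad (fderiv ℝ P y) (G x) (G x) v| ≤ L3 * (n * L2 * ‖v‖ * fro (G x) ^ n) := by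
      rw [abs_mul]
      refine mul_le_mul (hL3 x) ((quad_le hn _ _ _ v (col_le_fro (G x))).trans ?_)
        (abs_nonneg _) L30
      rw [hpow]
      have := hL2 y
      have := pow_nonneg (f0 x) n
      gcongr
    have b3 : |g x * ⟪F x, v - P y v⟫| ≤ L3 * (‖F x‖ * ((1 + L1) * ‖v‖)) := by
      rw [abs_mul]
      exact mul_le_mul (hL3 x) ((abs_real_inner_le_norm _ _).trans
        (mul_le_mul_of_nonneg_left (hv y) (norm_nonneg _))) (abs_nonneg _) L30
    rw [Real.norm_eq_abs, hT, hbd]
    exact (abs_sub _ _).trans (add_le_add ((abs_sub _ _).trans (add_le_add b1 b2)) b3)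
  have cT : ∀ x, Continuous (T x) := fun x => by
    have a1 : Continuous fun y => v - P y v :=
      continuous_const.sub (cP.clm_apply continuous_const)
    have a2 : Continuous fun y => (fderiv ℝ g x).smulRight (v - P y v) :=
      (ContinuousLinearMap.smulRightL ℝ (D n) (V m) (fderiv ℝ g x)).continuous.comp a1
    exact ((pr_cont1 _ a2).sub (continuous_const.mul (quad_cont1 cD _ v))).sub
      (continuous_const.mul (continuous_const.inner a1))
  have T0 : ∀ x y, x ∉ closedBall x0 R → T x y = 0 := fun x y hx => by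
    simp [hT, (hout x hx).1, (hout x hx).2, pr, col]
  have lim1 : Tendsto (fun k => ∫ x, T x (w k x)) atTop (𝓝 (∫ x, T x (u x))) := by
    refine tendsto_integral_of_dominated_convergence bd
      (fun k => (mT _ (hw.sm k).continuous.stronglyMeasurable).aestronglyMeasurable) ibd
      (fun k => ae_of_all _ fun x => bT x _) ?_
    filter_upwards [(ae_restrict_iff' measurableSet_closedBall).1 hw.ae] with x hx
    by_cases h : x ∈ closedBall x0 R
    · exact ((cT x).tendsto _).comp (hx h)
    · simp only [T0 x _ h]; exact tendsto_const_nhds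
  have lim2 : Tendsto (fun k => ∫ x, Z k x) atTop (𝓝 0) := by
    obtain ⟨k0, rfl⟩ : ∃ k, n = k + 1 := ⟨n - 1, by omega⟩
    have h3 := limT_small (μ := volume.restrict (closedBall x0 R)) k0 f0 ifro.integrableOn hw.lG
    set c : ℝ := L3 * (((k0 + 1 : ℕ) : ℝ) * L2 * ‖v‖) with hc
    have c0 : 0 ≤ c := by positivity
    have h4 := ENNReal.Tendsto.const_mul (a := ENNReal.ofReal c) h3
      (Or.inr ENNReal.ofReal_ne_top)
    rw [mul_zero] at h4
    rw [tendsto_zero_iff_enorm_tendsto_zero]
    refine tendsto_of_tendsto_of_tendsto_of_le_of_le tendsto_const_nhds h4 (fun _ => zero_le)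
      fun k => (enorm_integral_le_lintegral_enorm _).trans ?_
    rw [← lintegral_const_mul' _ _ ENNReal.ofReal_ne_top,
      ← lintegral_indicator measurableSet_closedBall]
    refine lintegral_mono fun x => ?_
    by_cases h : x ∈ closedBall x0 R
    · rw [indicator_of_mem h, ← ENNReal.ofReal_mul c0, ← ofReal_norm]
      refine ENNReal.ofReal_le_ofReal ?_
      rw [hZ, Real.norm_eq_abs, abs_mul, hc, mul_assoc]
      refine mul_le_mul (hL3 x) ((quad_le hn _ _ _ v (col_le_norm _)).trans ?_) (abs_nonneg _) L30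
      have := hL2 (w k x)
      have := pow_nonneg (f0 x) k0
      rw [Nat.add_sub_cancel]
      gcongr
    · simp [hZ, (hout x h).1]
  have key : ∀ k, ∫ x, T x (w k x) = ∫ x, Z k x := fun k => by
    have s1 : ContDiff ℝ 1 (w k) := (hw.sm k).of_le (by simp)
    have s2 : ContDiff ℝ 1 fun x => v - P (w k x) v :=
      contDiff_const.sub ((h1.comp s1).clm_apply contDiff_const)
    have s3 : ContDiff ℝ 1 fun x => g x • (v - P (w k x) v) := (g1.of_le (by simp)).smul s2
    have s4 : HasCompactSupport fun x => g x • (v - P (w k x) v) := g2.smul_right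
    have s5 : tsupport (fun x => g x • (v - P (w k x) v)) ⊆ Ω :=
      ((tsupport_smul_subset_left _ _).trans g3).trans hK
    have e := S.eq1 hn _ s3 s4 s5
    have d : ∀ x, pr (G x) (fderiv ℝ (fun x => g x • (v - P (w k x) v)) x) =
        pr (G x) ((fderiv ℝ g x).smulRight (v - P (w k x) v)) -
          g x * quad (fderiv ℝ P (w k x)) (G x) (fderiv ℝ (w k) x) v := fun x => by
      have d1 := ((h1.differentiable one_ne_zero (w k x)).hasFDerivAt.comp x
        (s1.differentiable one_ne_zero x).hasFDerivAt)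
      have d2 := ((ContinuousLinearMap.apply ℝ (V m) v).hasFDerivAt.comp x d1).const_sub v
      have d3 := (g1.differentiable (by simp) x).hasFDerivAt.smul d2
      have d4 : fderiv ℝ (fun x => g x • (v - P (w k x) v)) x = _ := d3.fderiv
      rw [d4]
      simp only [pr, quad, col, add_apply, smul_apply,
        neg_apply, ContinuousLinearMap.comp_apply,
        ContinuousLinearMap.apply_apply, inner_add_right, inner_smul_right, inner_neg_right,
        Finset.sum_add_distrib, Function.comp, ← Finset.mul_sum, mul_neg, Finset.sum_neg_distrib]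
      ring
    have iT : Integrable fun x => T x (w k x) := ibd.mono'
      (mT _ (hw.sm k).continuous.stronglyMeasurable).aestronglyMeasurable
      (ae_of_all _ fun x => bT x _)
    have cψ : Continuous (fderiv ℝ fun x => g x • (v - P (w k x) v)) :=
      s3.continuous_fderiv one_ne_zero
    have i1 : Integrable fun x => pr (G x) (fderiv ℝ (fun x => g x • (v - P (w k x) v)) x) := by
      obtain ⟨B, B0, hB⟩ := tr_bdd cψ (s4.fderiv ℝ)
      refine (((cψ.integrable_of_hasCompactSupport (s4.fderiv ℝ)).norm.add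
        (ifro.const_mul B)).const_mul n).mono' 
          (pr_meas S.mG cψ.stronglyMeasurable).aestronglyMeasurable (ae_of_all _ fun x => ?_)
      refine (abs_pr_le hn _ _).trans (mul_le_mul_of_nonneg_left ?_ (Nat.cast_nonneg _))
      have := mul_le_mul_of_nonneg_right (hpow2 x)
        (norm_nonneg (fderiv ℝ (fun x => g x • (v - P (w k x) v)) x))
      have := mul_le_mul_of_nonneg_left (hB x) (pow_nonneg (f0 x) n)
      simp only [Pi.add_apply]
      nlinarith
    have i2 : Integrable fun x => ⟪F x, g x • (v - P (w k x) v)⟫ := by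
      obtain ⟨B, B0, hB⟩ := tr_bdd s3.continuous s4
      refine (S.lF.norm.mul_const B).mono'
        (S.mF.inner s3.continuous.stronglyMeasurable).aestronglyMeasurable
        (ae_of_all _ fun x => (abs_real_inner_le_norm _ _).trans
          (mul_le_mul_of_nonneg_left (hB x) (norm_nonneg _)))
    have e2 : ∀ x, Z k x = T x (w k x) -
        (pr (G x) (fderiv ℝ (fun x => g x • (v - P (w k x) v)) x) -
          ⟪F x, g x • (v - P (w k x) v)⟫) := fun x => by
      rw [d, hT, hZ, inner_smul_right]
      simp only [quad_sub]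
      ring
    simp only [e2]
    have i3 : Integrable fun x => pr (G x) (fderiv ℝ (fun x => g x • (v - P (w k x) v)) x) -
        ⟪F x, g x • (v - P (w k x) v)⟫ := i1.sub i2
    rw [integral_sub iT i3, integral_sub i1 i2, e, sub_self, sub_zero]
  simp only [key] at lim1
  have e0 := tendsto_nhds_unique lim1 lim2
  rw [← neg_eq_zero, ← integral_neg, ← e0]
  refine integral_congr_ae ?_
  filter_upwards [hG] with x k1
  by_cases h : x ∈ closedBall x0 R
  · have t1 : pr (G x) ((fderiv ℝ g x).smulRight (v - P (u x) v)) = 0 := by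
      rw [pr]
      refine mul_eq_zero_of_right _ (Finset.sum_eq_zero fun α _ => ?_)
      simp only [col, ContinuousLinearMap.smulRight_apply, inner_smul_right, inner_sub_right]
      rw [← hs, k1 (hK h), sub_self, mul_zero]
    have t2 : ⟪F x, v - P (u x) v⟫ = ⟪F x - P (u x) (F x), v⟫ := by
      rw [inner_sub_right, ← hs, inner_sub_left]
    simp only [hT, t1, t2]
    ring
  · rw [T0 x _ h, (hout x h).1, zero_mul, neg_zero]

theorem GSol.normal2 (hn : 2 ≤ n) {Ω : Set (D n)} {u : D n → V m} {G : D n → D n →L[ℝ] V m}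
    {F : D n → V m} (S : GSol Ω u G F) {P : V m → V m →L[ℝ] V m} (h1 : ContDiff ℝ 1 P)
    (h2 : HasCompactSupport P) (hs : ∀ q a b, ⟪P q a, b⟫ = ⟪a, P q b⟫)
    (hG : ∀ᵐ x, x ∈ Ω → ∀ v, P (u x) (G x v) = G x v) :
    ∀ᵐ x, x ∈ Ω → F x - P (u x) (F x) = -(fro (G x) ^ (n - 2) •
      ∑ α, fderiv ℝ P (u x) (col (G x) α) (col (G x) α)) := by
  have cD : Continuous (fderiv ℝ P) := h1.continuous_fderiv one_ne_zero
  obtain ⟨L2, L20, hL2⟩ := bdd_fderiv h1 h2
  set H : D n → V m := fun x => fro (G x) ^ (n - 2) •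
    ∑ α, fderiv ℝ P (u x) (col (G x) α) (col (G x) α) with hH
  have hq : ∀ x v, ⟪H x, v⟫ = quad (fderiv ℝ P (u x)) (G x) (G x) v := fun x v => by
    simp only [hH, quad, inner_smul_left, sum_inner, manC_sym h1 hs, conj_trivial]
  have mH : StronglyMeasurable H :=
    sec_meas (B := fun x => fderiv ℝ P (u x)) (cD.comp_stronglyMeasurable S.mu) S.mG
  have iH : Integrable H := by
    refine ((S.ifro hn).const_mul (n * L2)).mono' mH.aestronglyMeasurable
      (ae_of_all _ fun x => ?_)
    have h3 := quad_le hn (fderiv ℝ P (u x)) (G x) (G x) (H x) (col_le_fro (G x))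
    rw [← hq, real_inner_self_eq_norm_sq, abs_of_nonneg (sq_nonneg _), ← pow_succ,
      (by omega : n - 1 + 1 = n)] at h3
    rcases (norm_nonneg (H x)).eq_or_lt with h | h
    · rw [← h]; have := fro_nonneg (G x); positivity
    · refine le_of_mul_le_mul_right ?_ h
      have := hL2 (u x)
      have := pow_nonneg (fro_nonneg (G x)) n
      calc ‖H x‖ * ‖H x‖ = ‖H x‖ ^ 2 := by ring
        _ ≤ _ := h3
        _ ≤ n * L2 * ‖H x‖ * fro (G x) ^ n := by gcongr
        _ = _ := by ring
  obtain ⟨L1, L10, hL1⟩ := tr_bdd h1.continuous h2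
  have iP : Integrable fun x => P (u x) (F x) := by
    have c3 : Continuous fun p : (V m →L[ℝ] V m) × V m => p.1 p.2 :=
      continuous_fst.clm_apply continuous_snd
    have m1 := c3.comp_stronglyMeasurable
      ((h1.continuous.comp_stronglyMeasurable S.mu).prodMk S.mF)
    exact (S.lF.norm.const_mul L1).mono' m1.aestronglyMeasurable
      (ae_of_all _ fun x => (P (u x)).le_of_opNorm_le (hL1 _) _)
  have iS : Integrable fun x => F x - P (u x) (F x) + H x := (S.lF.sub iP).add iH
  refine manC_loc fun x0 hx0 => ?_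
  obtain ⟨R, hR, hK⟩ := nhds_basis_closedBall.mem_iff.1 (S.op.mem_nhds hx0)
  refine ⟨R, hR, ?_⟩
  have h5 := isOpen_ball.ae_eq_zero_of_integral_contDiff_smul_eq_zero (μ := volume)
    (U := ball x0 R) (iS.locallyIntegrable.locallyIntegrableOn _) fun g g1 g2 g3 => by
      obtain ⟨B, -, hB⟩ := tr_bdd g1.continuous g2
      have i1 : Integrable fun x => g x • (F x - P (u x) (F x) + H x) :=
        iS.bdd_smul B g1.continuous.aestronglyMeasurable (ae_of_all _ hB)
      refine ext_inner_left ℝ fun v => ?_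
      rw [← integral_inner i1, inner_zero_right,
        ← manC_test2 hn S h1 h2 hs hG hK g1 g2 (g3.trans ball_subset_closedBall) v]
      refine integral_congr_ae (ae_of_all _ fun x => ?_)
      simp only [inner_smul_right, ← hq]
      rw [real_inner_comm, inner_add_left]
  filter_upwards [h5] with x hx hb
  exact eq_neg_of_add_eq_zero_left (hx hb)

end Pool.Agent.Lib.MP_a785f2_an.NH
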