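import Pool.Agent.Lib.MP_a785f2_an.N4.StepB

open MeasureTheory Metric Set Filter Topology
open scoped ContDiff RealInnerProductSpace ENNReal Convolution

namespace Pool.Agent.Lib.MP_a785f2_an.N4

open HS NH

variable {n m : ℕ} {H : Type} [NormedAddCommGroup H] [NormedSpace ℝ H]
  {a : V m → H →L[ℝ] V m →L[ℝ] V m} {b : V m → H} {L : ℝ}

/-- `k` small steps. -/
theorem sub_real {x : ℕ → ℝ} {k : ℕ} {α β : ℝ} (hk : 1 ≤ k) (a0 : 0 ≤ α) (a1 : α ≤ 1)
    (b0 : 0 ≤ β) (x0 : 0 ≤ x 0) (h : ∀ l < k, x (l + 1) ≤ (1 + α / k) * x l + β / k) :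
    x k ≤ (1 + 2 * α) * x 0 + 3 * β := by
  have k0 : (0 : ℝ) < k := by exact_mod_cast hk
  have h1 : ∀ l ≤ k, x l ≤ Real.exp (α / k * l) * (x 0 + β / k * l) := by
    intro l
    induction l with
    | zero => intro _; simp
    | succ l ih =>
      intro hl
      have i1 := ih (by omega)
      have i2 := h l (by omega)
      have e1 : 1 + α / k ≤ Real.exp (α / k) := by linarith [Real.add_one_le_exp (α / k)]
      have e2 : 1 ≤ Real.exp (α / k * (l + 1 : ℕ)) := Real.one_le_exp (by positivity)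
      have e3 : Real.exp (α / k * (l + 1 : ℕ)) = Real.exp (α / k) * Real.exp (α / k * l) := by
        rw [← Real.exp_add]; congr 1; push_cast; ring
      have p1 : 0 ≤ Real.exp (α / k * l) * (x 0 + β / k * l) := by positivity
      have p2 : 0 ≤ β / k := by positivity
      have i3 : (1 + α / k) * x l ≤ Real.exp (α / k) * (Real.exp (α / k * l) * (x 0 + β / k * l)) :=
        (mul_le_mul_of_nonneg_left i1 (by positivity)).trans (mul_le_mul_of_nonneg_right e1 p1)
      have i4 : β / k ≤ Real.exp (α / k * (l + 1 : ℕ)) * (β / k) := le_mul_of_one_le_left p2 e2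
      calc x (l + 1) ≤ Real.exp (α / k * (l + 1 : ℕ)) * (x 0 + β / k * l) +
            Real.exp (α / k * (l + 1 : ℕ)) * (β / k) := by
            rw [e3, mul_assoc, ← e3]; linarith
        _ = _ := by push_cast; ring
  have h2 := h1 k le_rfl
  rw [div_mul_cancel₀ _ k0.ne', div_mul_cancel₀ _ k0.ne'] at h2
  have h3 : Real.exp α ≤ 1 + 2 * α := by
    have := (abs_le.1 (Real.abs_exp_sub_one_le (x := α) (by rwa [abs_of_nonneg a0]))).2
    rw [abs_of_nonneg a0] at this
    linarith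
  have h4 : Real.exp α * (x 0 + β) ≤ (1 + 2 * α) * (x 0 + β) := by gcongr
  nlinarith

/-- A uniform modulus for the first order expansion on a ball. -/
theorem modulus {Y : Type*} [NormedAddCommGroup Y] [NormedSpace ℝ Y] {f : V m → Y}
    (hf : ContDiff ℝ 1 f) (c : V m) (ρ : ℝ) {om : ℝ} (ho : 0 < om) :
    ∃ τ : ℝ, 0 < τ ∧ ∀ p ∈ closedBall c ρ, ∀ p' ∈ closedBall c ρ, ‖p' - p‖ ≤ τ →
      ‖f p' - f p - fderiv ℝ f p (p' - p)‖ ≤ om * ‖p' - p‖ ∧
        ‖fderiv ℝ f p' - fderiv ℝ f p‖ ≤ om := by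
  have h1 : UniformContinuousOn (fderiv ℝ f) (closedBall c ρ) :=
    (isCompact_closedBall c ρ).uniformContinuousOn_of_continuous
      (hf.continuous_fderiv one_ne_zero).continuousOn
  obtain ⟨τ, τ0, h⟩ := Metric.uniformContinuousOn_iff_le.1 h1 om ho
  have h2 : ∀ p ∈ closedBall c ρ, ∀ q ∈ closedBall c ρ ∩ closedBall p τ,
      ‖fderiv ℝ f q - fderiv ℝ f p‖ ≤ om := fun p hp q hq => by
    rw [← dist_eq_norm]; exact h q hq.1 p hp hq.2
  refine ⟨τ, τ0, fun p hp p' hp' hd => ?_⟩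
  have h3 : p' ∈ closedBall c ρ ∩ closedBall p τ := ⟨hp', by rwa [mem_closedBall, dist_eq_norm]⟩
  exact ⟨((convex_closedBall c ρ).inter (convex_closedBall p τ)).norm_image_sub_le_of_norm_fderiv_le'
    (fun q _ => hf.differentiable one_ne_zero q) (h2 p hp) ⟨hp, mem_closedBall_self τ0.le⟩ h3,
    h2 p hp p' h3⟩

/-- Linear interpolation between two maps. -/
noncomputable def ip (U U' : D n → V m) (k l : ℕ) (x : D n) : V m :=
  U x + ((l : ℝ) / k) • (U' x - U x)

/-- The substeps of one dyadic step. -/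
noncomputable def sub (a : V m → H →L[ℝ] V m →L[ℝ] V m) (b : V m → H) (U U' W : D n → V m)
    (k : ℕ) : ℕ → D n → V m
  | 0 => W
  | l + 1 => nxt a b (ip U U' k l) (ip U U' k (l + 1)) (sub a b U U' W k l)

theorem ip_zero (U U' : D n → V m) (k : ℕ) : ip U U' k 0 = U := by
  funext x; simp [ip]

theorem ip_last (U U' : D n → V m) {k : ℕ} (hk : 1 ≤ k) : ip U U' k k = U' := by
  have k0 : (k : ℝ) ≠ 0 := by positivity
  funext x; simp [ip, k0]

theorem ip_smooth {U U' : D n → V m} (hU : ContDiff ℝ 1 U) (hU' : ContDiff ℝ 1 U') (k l : ℕ) :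
    ContDiff ℝ 1 (ip U U' k l) := hU.add ((hU'.sub hU).const_smul _)

theorem sub_smooth (S : Str a b L) {U U' W : D n → V m} (hU : ContDiff ℝ 1 U)
    (hU' : ContDiff ℝ 1 U') (hW : ContDiff ℝ 1 W) (k l : ℕ) :
    ContDiff ℝ 1 (sub a b U U' W k l) := by
  induction l with
  | zero => exact hW
  | succ l ih => exact nxt_smooth S (ip_smooth hU hU' k l) (ip_smooth hU hU' k (l + 1)) ih

theorem ip_diff (U U' : D n → V m) (k l : ℕ) (x : D n) :
    ip U U' k (l + 1) x - ip U U' k l x = (k : ℝ)⁻¹ • (U' x - U x) := by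
  simp only [ip, div_eq_mul_inv]; push_cast; module

theorem ip_fderiv {U U' : D n → V m} (hU : ContDiff ℝ 1 U) (hU' : ContDiff ℝ 1 U') (k l : ℕ)
    (x : D n) : fderiv ℝ (ip U U' k l) x =
      (1 - (l : ℝ) / k) • fderiv ℝ U x + ((l : ℝ) / k) • fderiv ℝ U' x := by
  have h1 := (hU.differentiable one_ne_zero x).hasFDerivAt
  have h2 := (hU'.differentiable one_ne_zero x).hasFDerivAt
  have h3 : HasFDerivAt (ip U U' k l) _ x := h1.add ((h2.sub h1).const_smul ((l : ℝ) / k))
  rw [h3.fderiv]; module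

theorem cvx_norm {Y : Type*} [NormedAddCommGroup Y] [NormedSpace ℝ Y] {p q : Y} {A s : ℝ}
    (hp : ‖p‖ ≤ A) (hq : ‖q‖ ≤ A) (s0 : 0 ≤ s) (s1 : s ≤ 1) : ‖(1 - s) • p + s • q‖ ≤ A := by
  refine (norm_add_le _ _).trans ?_
  rw [norm_smul, norm_smul, Real.norm_of_nonneg s0, Real.norm_of_nonneg (by linarith)]
  nlinarith [mul_le_mul_of_nonneg_left hp (by linarith : 0 ≤ 1 - s),
    mul_le_mul_of_nonneg_left hq s0]

/-- One dyadic step made of `k` substeps. -/
theorem macro_step (S : Str a b L) {U U' W : D n → V m} (hU : ContDiff ℝ 1 U)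
    (hU' : ContDiff ℝ 1 U') (hW : ContDiff ℝ 1 W) {k : ℕ} (hk : 1 ≤ k) (x : D n)
    {d A om τ ρ : ℝ} {c : V m} (hd : ‖U' x - U x‖ ≤ d) (hs : 320 * L ^ 6 * d ≤ 1)
    (hA : ‖fderiv ℝ U x‖ ≤ A) (hA' : ‖fderiv ℝ U' x‖ ≤ A) (om0 : 0 ≤ om) (om1 : om ≤ 1)
    (hko : 3 ≤ om * k) (hkt : 1 ≤ τ * k) (m0 : U x ∈ closedBall c ρ) (m1 : U' x ∈ closedBall c ρ)
    (ha : ∀ p ∈ closedBall c ρ, ∀ p' ∈ closedBall c ρ, ‖p' - p‖ ≤ τ →
      ‖a p' - a p - fderiv ℝ a p (p' - p)‖ ≤ om * ‖p' - p‖)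
    (hb : ∀ p ∈ closedBall c ρ, ∀ p' ∈ closedBall c ρ, ‖p' - p‖ ≤ τ →
      ‖b p' - b p - fderiv ℝ b p (p' - p)‖ ≤ om * ‖p' - p‖ ∧
        ‖fderiv ℝ b p' - fderiv ℝ b p‖ ≤ om) :
    1 + ‖sub a b U U' W k k x‖ ≤ (1 + ‖W x‖) * (1 + 4 * L ^ 2 * d) ∧
    ‖vv (sub a b U U' W k k x) - vv (W x)‖ ≤ 12 * L ^ 2 * d ∧
    ∀ (v0 : V m) (dT AT : ℝ), ‖v0‖ ≤ 1 → ‖TV v0 (U' x - U x)‖ ≤ dT →
      ‖(TV v0).comp (fderiv ℝ U x)‖ ≤ AT → ‖(TV v0).comp (fderiv ℝ U' x)‖ ≤ AT →
      sg a b U' (sub a b U U' W k k) x ≤ (1 + 640 * L ^ 6 * d) * sg a b U W x +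
        960 * L ^ 6 * (dT * A + d * AT + 2 * om * d * A) := by
  have k0 : (0 : ℝ) < k := by exact_mod_cast hk
  have k1 : (1 : ℝ) ≤ k := by exact_mod_cast hk
  have hd0 : 0 ≤ d := (norm_nonneg _).trans hd
  have hA0 : 0 ≤ A := (norm_nonneg _).trans hA
  have l2 : 1 ≤ L ^ 2 := one_le_pow₀ S.L1
  have l6 : L ^ 2 ≤ L ^ 6 := pow_le_pow_right₀ S.L1 (by norm_num)
  have l7 : L ^ 2 * d ≤ L ^ 6 * d := by gcongr
  have d1 : d ≤ 1 := by nlinarith
  have dk : d / k ≤ d := div_le_self hd0 k1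
  have hstep : ∀ l, ‖ip U U' k (l + 1) x - ip U U' k l x‖ ≤ d / k := fun l => by
    rw [ip_diff, norm_smul, norm_inv, Real.norm_of_nonneg k0.le, div_eq_inv_mul]
    gcongr
  have hs4 : 4 * L ^ 2 * (d / k) ≤ 1 := by
    have g1 : L ^ 2 * (d / k) ≤ L ^ 2 * d := by gcongr
    have g2 : 0 ≤ L ^ 6 * d := by positivity
    linarith
  refine ⟨?_, ?_, fun v0 dT AT hv0 hdT hAT hAT' => ?_⟩
  · have := sub_real (x := fun l => 1 + ‖sub a b U U' W k l x‖) (α := 2 * L ^ 2 * d) (β := 0) hk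
      (by positivity) (by linarith) le_rfl (by positivity) fun l _ => by
        have h := nxt_norm S (ip U U' k l) (ip U U' k (l + 1)) (sub a b U U' W k l) x (hstep l)
        refine h.trans (le_of_eq ?_)
        ring
    refine this.trans (le_of_eq ?_)
    simp only [sub]; ring
  · have := sub_real (x := fun l => ‖vv (sub a b U U' W k l x) - vv (W x)‖) (α := 0)
      (β := 4 * L ^ 2 * d) hk le_rfl zero_le_one (by positivity) (norm_nonneg _) fun l _ => by
        have h := vv_step S (ip U U' k l) (ip U U' k (l + 1)) (sub a b U U' W k l) x (hstep l)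
        have h2 := norm_sub_le_norm_sub_add_norm_sub (vv (sub a b U U' W k (l + 1) x))
          (vv (sub a b U U' W k l x)) (vv (W x))
        have h3 : 4 * L ^ 2 * (d / k) = 4 * L ^ 2 * d / k := by ring
        simp only [sub] at h2 ⊢
        rw [zero_div, add_zero, one_mul]
        linarith
    refine this.trans (le_of_eq ?_)
    simp only [sub, sub_self, norm_zero]; ring
  · have hdT0 : 0 ≤ dT := (norm_nonneg _).trans hdT
    have hAT0 : 0 ≤ AT := (norm_nonneg _).trans hAT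
    have mem : ∀ l ≤ k, ip U U' k l x ∈ closedBall c ρ := fun l hl =>
      (convex_closedBall c ρ).add_smul_sub_mem m0 m1
        ⟨by positivity, (div_le_one k0).2 (by exact_mod_cast hl)⟩
    have := sub_real (x := fun l => sg a b (ip U U' k l) (sub a b U U' W k l) x)
      (α := 320 * L ^ 6 * d) (β := 320 * L ^ 6 * (dT * A + d * AT + 2 * om * d * A)) hk
      (by positivity) hs (by positivity) (sg_nonneg _ _ _ _ _) fun l hl => by
        have s0 : (0 : ℝ) ≤ (l : ℝ) / k := by positivity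
        have s1 : (l : ℝ) / k ≤ 1 := (div_le_one k0).2 (by exact_mod_cast hl.le)
        have ht : ‖ip U U' k (l + 1) x - ip U U' k l x‖ ≤ τ :=
          (hstep l).trans (by rw [div_le_iff₀ k0]; linarith)
        have h := sg_fine S (ip_smooth hU hU' k l) (ip_smooth hU hU' k (l + 1))
          (sub_smooth S hU hU' hW k l) x (d := d / k) (A := A) (dT := dT / k) (AT := AT)
          (e := 2 * A / k) (om := om) hv0 (hstep l) hs4
          (by rw [ip_fderiv hU hU']; exact cvx_norm hA hA' s0 s1)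
          (by
            rw [ip_diff, map_smul, norm_smul, norm_inv, Real.norm_of_nonneg k0.le, div_eq_inv_mul]
            gcongr)
          (by
            rw [ip_fderiv hU hU', ContinuousLinearMap.comp_add, ContinuousLinearMap.comp_smul,
              ContinuousLinearMap.comp_smul]
            exact cvx_norm hAT hAT' s0 s1)
          (by
            have e : fderiv ℝ (ip U U' k (l + 1)) x - fderiv ℝ (ip U U' k l) x =
                (k : ℝ)⁻¹ • (fderiv ℝ U' x - fderiv ℝ U x) := by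
              rw [ip_fderiv hU hU', ip_fderiv hU hU']
              simp only [div_eq_mul_inv]; push_cast; module
            rw [e, norm_smul, norm_inv, Real.norm_of_nonneg k0.le, div_eq_inv_mul]
            gcongr
            linarith [norm_sub_le (fderiv ℝ U' x) (fderiv ℝ U x)])
          om0 om1 (ha _ (mem l hl.le) _ (mem (l + 1) hl) ht)
          (hb _ (mem l hl.le) _ (mem (l + 1) hl) ht).1 (hb _ (mem l hl.le) _ (mem (l + 1) hl) ht).2
        refine h.trans ?_
        have f1 : (om + d / k) * A + 2 * A / k ≤ 2 * om * A := by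
          have g1 : (d + 2) / k ≤ om := by rw [div_le_iff₀ k0]; linarith
          have g2 : (om + d / k) * A + 2 * A / k = (om + (d + 2) / k) * A := by ring
          rw [g2]; nlinarith
        have f2 : 320 * L ^ 6 * (dT / k * A + d / k * AT + d / k * ((om + d / k) * A + 2 * A / k)) ≤
            320 * L ^ 6 * (dT / k * A + d / k * AT + d / k * (2 * om * A)) := by gcongr
        have f3 : 320 * L ^ 6 * (dT / k * A + d / k * AT + d / k * (2 * om * A)) =
            320 * L ^ 6 * (dT * A + d * AT + 2 * om * d * A) / k := by ring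
        have f4 : 320 * L ^ 6 * (d / k) = 320 * L ^ 6 * d / k := by ring
        rw [f4]
        linarith
    rw [ip_last U U' hk, ip_zero] at this
    refine this.trans (le_of_eq ?_)
    simp only [sub]; ring

end Pool.Agent.Lib.MP_a785f2_an.N4
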