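import Pool.Agent.Lib.MP_a785f2_an.N4.Chain
import Pool.Agent.Lib.MP_a785f2_an.N4.RefineA

open MeasureTheory Metric Set Filter Topology
open scoped ContDiff RealInnerProductSpace ENNReal Convolution

namespace Pool.Agent.Lib.MP_a785f2_an.N4

open HS NH

variable {m : ℕ} {H : Type} [NormedAddCommGroup H] [NormedSpace ℝ H]
  {a : V m → H →L[ℝ] V m →L[ℝ] V m} {b : V m → H} {L : ℝ}
  {Ω : Set (D 4)} {u : D 4 → V m} {G : D 4 → D 4 →L[ℝ] V m} {x0 : D 4} {t δ : ℝ}

/-- The refined development. -/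
noncomputable def rdev (a : V m → H →L[ℝ] V m →L[ℝ] V m) (b : V m → H) (U : ℕ → D 4 → V m)
    (c : V m) (k : ℕ) : ℕ → D 4 → V m
  | 0 => fun x => U 0 x - c
  | j + 1 => sub a b (U j) (U (j + 1)) (rdev a b U c k j) k k

theorem Ctx.ubd (X : Ctx Ω u G x0 (2 * t) δ) {x : D 4} (hx : x ∈ closedBall x0 (3 * t / 2))
    (j : ℕ) : ‖UU u t j x - UU u t 0 (cor x0 t)‖ ≤ 40 * δ + 140 * δ * j := by
  induction j with
  | zero => simpa using X.w0_in hx
  | succ j ih =>
    have h1 := (X.chain hx j).1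
    have h2 := X.zz_le hx j
    have h3 := norm_sub_le_norm_sub_add_norm_sub (UU u t (j + 1) x) (UU u t j x)
      (UU u t 0 (cor x0 t))
    push_cast
    linarith

/-- The refined recursion: every dyadic step is cut into many linear substeps. -/
theorem exists_chn (T : Str a b L) : ∃ κ : ℝ, 1 ≤ κ ∧ ∀ (Ω : Set (D 4)) (u : D 4 → V m)
    (G : D 4 → D 4 →L[ℝ] V m) (x0 : D 4) (t δ : ℝ), Ctx Ω u G x0 (2 * t) δ →
    1000 * κ * δ ≤ 1 → ∀ J : ℕ, ∃ W : ℕ → D 4 → V m, Chn a b Ω u G x0 t δ κ J W := by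
  have l6 : 1 ≤ L ^ 6 := one_le_pow₀ T.L1
  have l2 : L ^ 2 ≤ L ^ 6 := pow_le_pow_right₀ T.L1 (by norm_num)
  refine ⟨40000000 * L ^ 6, by linarith, fun Ω u G x0 t δ X hk J => ?_⟩
  have d0 := X.dp
  have t0 := X.t0
  have d6 : δ ≤ L ^ 6 * δ := le_mul_of_one_le_left d0.le l6
  have d1 : δ ≤ 1 := by linarith
  set c := UU u t 0 (cor x0 t) with hc
  obtain ⟨τa, τa0, ha⟩ := modulus (Y := H →L[ℝ] V m →L[ℝ] V m) T.ca c (40 * δ + 140 * δ * J) d0
  obtain ⟨τb, τb0, hb⟩ := modulus T.cb c (40 * δ + 140 * δ * J) d0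
  have τ0 : 0 < min τa τb := lt_min τa0 τb0
  obtain ⟨k, hk1⟩ := exists_nat_ge (3 / δ + 1 / min τa τb + 1)
  have p1 : 0 < 3 / δ := by positivity
  have p2 : 0 < 1 / min τa τb := by positivity
  have k1 : 1 ≤ k := by
    have : (1 : ℝ) ≤ k := by linarith
    exact_mod_cast this
  have ko : 3 ≤ δ * k := by
    have : 3 / δ ≤ k := by linarith
    rw [div_le_iff₀ d0] at this; linarith
  have kt : 1 ≤ min τa τb * k := by
    have : 1 / min τa τb ≤ k := by linarith
    rw [div_le_iff₀ τ0] at this; linarith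
  have sm : ∀ j, ContDiff ℝ 1 (rdev a b (UU u t) c k j) := fun j => by
    induction j with
    | zero => exact (X.smU t 0).sub contDiff_const
    | succ j ih => exact sub_smooth T (X.smU t j) (X.smU t (j + 1)) ih k k
  have mem : ∀ x ∈ closedBall x0 (3 * t / 2), ∀ j ≤ J,
      UU u t j x ∈ closedBall c (40 * δ + 140 * δ * J) := fun x hx j hj => by
    rw [mem_closedBall, dist_eq_norm]
    refine (X.ubd hx j).trans ?_
    have : (j : ℝ) ≤ J := by exact_mod_cast hj
    gcongr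
  have key := fun x (hx : x ∈ closedBall x0 (3 * t / 2)) j (hj : j < J) =>
    macro_step T (X.smU t j) (X.smU t (j + 1)) (sm j) k1 x (τ := min τa τb) (X.chain hx j).1
      (by
        have h1 := X.zz_le hx j
        have h2 : L ^ 6 * zz G t j x ≤ L ^ 6 * δ := by gcongr
        linarith)
      (X.chain hx j).2.1 (X.chain hx j).2.2 d0.le d1 ko kt (mem x hx j hj.le) (mem x hx (j + 1) hj)
      (fun p hp p' hp' h => (ha p hp p' hp' (h.trans (min_le_left _ _))).1)
      (fun p hp p' hp' h => hb p hp p' hp' (h.trans (min_le_right _ _)))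
  refine ⟨rdev a b (UU u t) c k, X, by linarith, hk, sm, rfl, fun x hx j hj => ?_,
    fun x hx j hj => ?_, fun x hx j hj v hv => ?_⟩
  · refine (key x hx j hj).1.trans ?_
    have z0 := zz_nonneg G t0 j x
    have h2 : L ^ 2 * zz G t j x ≤ L ^ 6 * zz G t j x := by gcongr
    have h3 : 0 ≤ L ^ 6 * zz G t j x := by positivity
    gcongr _ * ?_
    linarith
  · refine (key x hx j hj).2.1.trans ?_
    have z0 := zz_nonneg G t0 j x
    have h2 : L ^ 2 * zz G t j x ≤ L ^ 6 * zz G t j x := by gcongr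
    have h3 : 0 ≤ L ^ 6 * zz G t j x := by positivity
    linarith
  · obtain ⟨c1, c2, c3⟩ := X.chainT hx j v
    refine ((key x hx j hj).2.2 v _ _ hv c1 c2 c3).trans ?_
    have z0 := zz_nonneg G t0 j x
    have z1 := zz_nonneg (tg G v) t0 j x
    have s0 := sc_pos t0 j
    have h3 : 0 ≤ L ^ 6 * zz G t j x := by positivity
    have h4 := sg_nonneg a b (UU u t j) (rdev a b (UU u t) c k j) x
    have h5 : 0 ≤ L ^ 6 * (zz G t j x / sc t j) * (zz (tg G v) t j x + δ * zz G t j x) := by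
      positivity
    have e : 960 * L ^ 6 * (140 * zz (tg G v) t j x * (140 * (zz G t j x / sc t j)) +
        140 * zz G t j x * (140 * (zz (tg G v) t j x / sc t j)) +
        2 * δ * (140 * zz G t j x) * (140 * (zz G t j x / sc t j))) =
        37632000 * (L ^ 6 * (zz G t j x / sc t j) * (zz (tg G v) t j x + δ * zz G t j x)) := by
      ring
    rw [e]
    nlinarith [mul_nonneg h3 h4]

end Pool.Agent.Lib.MP_a785f2_an.N4
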