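import Pool.Agent.Lib.MP_a785f2_an.N4.Imp
import Pool.Agent.Lib.MP_a785f2_an.N4.Inner
import Pool.Agent.Lib.MP_a785f2_an.N4.Refine

open MeasureTheory Metric Set Filter Topology
open scoped ContDiff RealInnerProductSpace ENNReal Convolution

namespace Pool.Agent.Lib.MP_a785f2_an.N4

open HS NH

variable {m : ℕ} {H : Type} [NormedAddCommGroup H] [NormedSpace ℝ H]
  {a : V m → H →L[ℝ] V m →L[ℝ] V m} {b : V m → H} {L : ℝ}
  {Ω : Set (D 4)} {u : D 4 → V m} {G : D 4 → D 4 →L[ℝ] V m} {x0 : D 4} {t δ : ℝ}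

/-- The bulk term. -/
theorem pass_bulk (S : Sob Ω u G) {s : D 4 → ℝ} (cs : Continuous s) {R R' h θ Z : ℝ}
    (hR : R ≤ R') (hh : 0 < h) (hθ : 0 < θ) (hZ : ∫ x in closedBall x0 R, s x ^ 4 ≤ Z) :
    ∫ x in closedBall x0 R, (h * (‖G x‖ ^ 2 * s x ^ 2) + s x ^ 4 / h) ≤
      h * θ * En G x0 R' + (h / θ + 1 / h) * Z := by
  have iG : Integrable (fun x => ‖G x‖ ^ 4) volume := S.powG (by norm_num)
  have iS : IntegrableOn (fun x => s x ^ 4) (closedBall x0 R) :=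
    (cs.pow 4).continuousOn.integrableOn_compact (isCompact_closedBall _ _)
  have e1 : ∫ x in closedBall x0 R, ‖G x‖ ^ 4 ≤ En G x0 R' :=
    setIntegral_mono_set iG.integrableOn (Eventually.of_forall fun x => by positivity)
      (closedBall_subset_closedBall hR).eventuallyLE
  calc _ ≤ ∫ x in closedBall x0 R, (h * θ * ‖G x‖ ^ 4 + (h / θ + 1 / h) * s x ^ 4) := by
        refine integral_mono_of_nonneg (Eventually.of_forall fun x => by positivity)
          ((iG.integrableOn.const_mul _).add (iS.const_mul _)) (Eventually.of_forall fun x => ?_)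
        have p1 : ‖G x‖ ^ 2 * s x ^ 2 ≤ θ * ‖G x‖ ^ 4 + s x ^ 4 / θ := by
          rw [← sub_le_iff_le_add', le_div_iff₀ hθ]
          nlinarith [sq_nonneg (θ * ‖G x‖ ^ 2 - s x ^ 2), sq_nonneg (θ * ‖G x‖ ^ 2),
            sq_nonneg (s x ^ 2)]
        have p2 := mul_le_mul_of_nonneg_left p1 hh.le
        calc h * (‖G x‖ ^ 2 * s x ^ 2) + s x ^ 4 / h
            ≤ h * (θ * ‖G x‖ ^ 4 + s x ^ 4 / θ) + s x ^ 4 / h := by linarith
          _ = _ := by ring
    _ = h * θ * (∫ x in closedBall x0 R, ‖G x‖ ^ 4) +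
          (h / θ + 1 / h) * ∫ x in closedBall x0 R, s x ^ 4 := by
        rw [integral_add (iG.integrableOn.const_mul _) (iS.const_mul _), integral_const_mul,
          integral_const_mul]
    _ ≤ _ := by gcongr

theorem pass_num {K δ C E y : ℝ} (hK : 1 ≤ K) (d0 : 0 < δ) (d1 : δ ≤ 1) (hC : 1 ≤ C)
    (hE : 0 ≤ E) (hy : 0 ≤ y) :
    K * δ * δ ^ 3 * E + (K * δ / δ ^ 3 + 1 / (K * δ)) * (C * δ ^ 7 * y) ≤
      2 * C * (K * (E + δ * y) * δ ^ 4) := by
  have K0 : 0 < K := by linarith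
  have e : (K * δ / δ ^ 3 + 1 / (K * δ)) * (C * δ ^ 7 * y) =
      C * (K * (δ * y) * δ ^ 4) + C * (δ / K * (δ * y) * δ ^ 4) := by
    field_simp
  have a : δ / K ≤ K := (div_le_self d0.le hK).trans (d1.trans hK)
  have c : C * (δ / K * (δ * y) * δ ^ 4) ≤ C * (K * (δ * y) * δ ^ 4) := by gcongr
  have p : 0 ≤ K * E * δ ^ 4 := by positivity
  have q := mul_le_mul_of_nonneg_right (by linarith : 1 ≤ 2 * C) p
  rw [e]
  linarith

/-- One pass. -/
theorem pass (T : Str a b L) : ∃ C κ : ℝ, 1 ≤ C ∧ 1 ≤ κ ∧ ∀ (Ω : Set (D 4)) (u : D 4 → V m)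
    (G : D 4 → D 4 →L[ℝ] V m) (x0 : D 4) (t δ : ℝ), Ctx Ω u G x0 (2 * t) δ → Eqn a b Ω u G →
    En G x0 (2 * t) ≤ 1 → ∀ K : ℕ, 1 ≤ K → 1000 * κ * δ * K ≤ 1 →
    ∀ l : ℕ, 1 ≤ l → 1 ≤ δ * 2 ^ l → 1000 * κ * δ * l ≤ 1 → δ * (l : ℝ) ^ 8 ≤ 1 →
    ∀ η : ℝ, 0 < η → η ≤ 1 →
    ∫ y in closedBall x0 t \ closedBall x0 (t / 2), ‖G y‖ ≤ η * δ * t ^ 3 →
      ∃ w : D 4 → ℝ, Continuous w ∧ (∀ x, 1 ≤ w x) ∧
        ∫ x in closedBall x0 (t / 2), ‖G x‖ ^ 4 / w x ^ 3 ≤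
          C * (η + K * (En G x0 (2 * t) + δ * (l : ℝ) ^ 8)) * δ ^ 4 ∧
        ∀ i : ℕ, 1 ≤ i → i ≤ K →
          ∫ x in closedBall x0 (t / 2 ^ i), w x ^ 2 ≤ C * (t / 2 ^ i) ^ 4 := by
  obtain ⟨κ, k1, hchn⟩ := exists_chn T
  obtain ⟨B, hB, hcut⟩ := exists_cut
  obtain ⟨C1, h1, hstar⟩ := star4 T
  obtain ⟨C2, h2, himp⟩ := imp T κ
  obtain ⟨C3, h3, hbd⟩ := bdry (a := a) (b := b) κ hB
  obtain ⟨C4, h4, hin⟩ := inner_wt (a := a) (b := b) κ
  have p12 : 0 ≤ C1 * C2 := by positivity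
  have p13 : 0 ≤ C1 * C3 := by positivity
  refine ⟨2 * (C1 * C2) + C1 * C3 + 1 + C4, κ, by linarith, k1, ?_⟩
  intro Ω u G x0 t δ X E hE K hK hk l hl1 hl2 hl3 hl4 η hη0 hη1 hint
  have hδ := X.dp
  have ht := X.t0
  have hK1 : (1 : ℝ) ≤ K := by exact_mod_cast hK
  have hkap : 0 ≤ 1000 * κ * δ := by positivity
  have hk1 : 1000 * κ * δ ≤ 1 := le_trans (le_mul_of_one_le_right hkap hK1) hk
  have hh : 0 < (K : ℝ) * δ := by positivity
  have hδh : δ ≤ (K : ℝ) * δ := le_mul_of_one_le_left hδ.le hK1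
  have hh1 : (K : ℝ) * δ ≤ 1 := by
    have := mul_le_mul_of_nonneg_right k1 hh.le
    nlinarith
  obtain ⟨χ, cut⟩ := hcut x0 t ht
  choose W hW using hchn Ω u G x0 t δ X hk1
  have hsub : closedBall x0 (13 * t / 16) ⊆ Ω :=
    (closedBall_subset_closedBall (by linarith)).trans X.sub
  have hev := hstar Ω u G X.sob E x0 (13 * t / 16) (UU u t) (fun J => W J J) hsub
    (X.apx.mono (closedBall_subset_closedBall (by linarith)))
    (fun J => (hW J).sm J) χ cut.sm cut.supp cut.lo cut.hi (K * δ) hh hh1 (η * δ ^ 4)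
    (by positivity)
  have hev2 := himp Ω u G x0 t δ W hW E hE l hl1 hl2 hl3 hl4
  obtain ⟨J, ⟨hJ, hS⟩, hKJ⟩ := ((hev.and hev2).and (eventually_ge_atTop K)).exists
  have cw : Continuous fun x => wt (K * δ) (W J J x) :=
    (continuous_wt _).comp ((hW J).sm J).continuous
  have hEn : 0 ≤ En G x0 (2 * t) := integral_nonneg fun _ => by positivity
  refine ⟨fun x => wt (K * δ) (W J J x), cw, fun x => one_le_wt _ _, ?_, ?_⟩
  · have hb := (pass_bulk X.sob (sg_cont T (X.smU t J) ((hW J).sm J)) (R' := 2 * t)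
      (by linarith) hh (pow_pos hδ 3) hS).trans
      (pass_num hK1 hδ (hδh.trans hh1) h2 hEn (by positivity))
    have hd := hbd Ω u G x0 t δ J (W J) (hW J) η hη0 hη1 hint χ cut (K * δ) hδh
    have nn : ∀ x, 0 ≤ χ x ^ 4 * (‖G x‖ ^ 4 / wt (K * δ) (W J J x) ^ 3) := fun x =>
      mul_nonneg (pow_nonneg (cut.lo x) 4)
        (div_nonneg (by positivity) (pow_nonneg (zero_le_one.trans (one_le_wt _ _)) 3))
    have hi : Integrable
        (fun x => χ x ^ 4 * (‖G x‖ ^ 4 / wt (K * δ) (W J J x) ^ 3)) volume := by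
      refine (X.sob.powG (by norm_num)).mono' ?_ (Eventually.of_forall fun x => ?_)
      · exact ((cut.sm.continuous.measurable.pow_const 4).mul
          ((X.sob.mG.norm.measurable.pow_const 4).div
            (cw.measurable.pow_const 3))).aestronglyMeasurable
      · rw [Real.norm_of_nonneg (nn x)]
        have e1 : χ x ^ 4 ≤ 1 := pow_le_one₀ (cut.lo x) (cut.hi x)
        have e2 : ‖G x‖ ^ 4 / wt (K * δ) (W J J x) ^ 3 ≤ ‖G x‖ ^ 4 :=
          div_le_self (by positivity) (one_le_pow₀ (one_le_wt _ _))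
        have e3 : 0 ≤ ‖G x‖ ^ 4 / wt (K * δ) (W J J x) ^ 3 :=
          div_nonneg (by positivity) (pow_nonneg (zero_le_one.trans (one_le_wt _ _)) 3)
        exact (mul_le_of_le_one_left e3 e1).trans e2
    have e1 : ∫ x in closedBall x0 (t / 2), ‖G x‖ ^ 4 / wt (K * δ) (W J J x) ^ 3 =
        ∫ x in closedBall x0 (t / 2), χ x ^ 4 * (‖G x‖ ^ 4 / wt (K * δ) (W J J x) ^ 3) :=
      setIntegral_congr_fun measurableSet_closedBall fun x hx => by
        simp only [cut.one x hx, one_pow, one_mul]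
    have e2 : ∫ x in closedBall x0 (t / 2),
          χ x ^ 4 * (‖G x‖ ^ 4 / wt (K * δ) (W J J x) ^ 3) ≤
        ∫ x in closedBall x0 (13 * t / 16),
          χ x ^ 4 * (‖G x‖ ^ 4 / wt (K * δ) (W J J x) ^ 3) :=
      setIntegral_mono_set hi.integrableOn (Eventually.of_forall nn)
        (closedBall_subset_closedBall (by linarith)).eventuallyLE
    have e3 := mul_le_mul_of_nonneg_left (add_le_add hb hd) (zero_le_one.trans h1)
    have q1 : 0 ≤ η * δ ^ 4 := by positivity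
    have q2 : 0 ≤ K * (En G x0 (2 * t) + δ * (l : ℝ) ^ 8) * δ ^ 4 := by positivity
    have q3 := mul_nonneg p12 q1
    have q4 := mul_nonneg p13 q2
    have q5 := mul_nonneg (zero_le_one.trans h4) q1
    have q6 := mul_nonneg (zero_le_one.trans h4) q2
    rw [e1]
    refine e2.trans (hJ.trans ((add_le_add_left e3 _).trans ?_))
    generalize En G x0 (2 * t) + δ * (l : ℝ) ^ 8 = Y at *
    linarith
  · intro i hi1 hiK
    refine (hin Ω u G x0 t δ J (W J) (hW J) K hK hk i hi1 hiK hKJ).trans ?_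
    exact mul_le_mul_of_nonneg_right (by linarith) (by positivity)

end Pool.Agent.Lib.MP_a785f2_an.N4
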