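import Pool.Agent.Lib.MP_a785f2_an.N4.Chain
import Pool.Agent.Lib.MP_a785f2_an.NH.Rad

open MeasureTheory Metric Set Filter Topology
open scoped ContDiff RealInnerProductSpace ENNReal Convolution

namespace Pool.Agent.Lib.MP_a785f2_an.N4

open HS NH

variable {m : ℕ} {H : Type} [NormedAddCommGroup H] [NormedSpace ℝ H]
  {a : V m → H →L[ℝ] V m →L[ℝ] V m} {b : V m → H} {L : ℝ}
  {Ω : Set (D 4)} {u : D 4 → V m} {G : D 4 → D 4 →L[ℝ] V m} {x0 : D 4} {t δ : ℝ}

theorem rad_prod_lt {r y : ℕ → ℝ} (hy : ∀ j, 0 ≤ y j) (J : ℕ)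
    (h : ∀ j < J, 1 + r (j + 1) ≤ (1 + r j) * (1 + y j)) :
    1 + r J ≤ (1 + r 0) * ∏ j ∈ Finset.range J, (1 + y j) := by
  induction J with
  | zero => simp
  | succ J ih =>
    rw [Finset.prod_range_succ, ← mul_assoc]
    exact (h J J.lt_succ_self).trans (mul_le_mul_of_nonneg_right
      (ih fun j hj => h j (hj.trans J.lt_succ_self)) (by linarith [hy J]))

theorem r13 : ∃ K : ℝ, 0 < K ∧ ∀ κ : ℝ, 0 < κ → 130 * κ ≤ 1 →
    ∀ (z : ℕ → ℝ) (J : ℕ), (∀ k < J, 0 ≤ z k ∧ z k ≤ 1) →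
      ∀ T : ℝ, 0 ≤ T → 1 + κ * T ≤ ∏ k ∈ Finset.range J, (1 + κ * z k) →
        ∀ p : ℕ, 1 ≤ p → p ≤ 13 → T ^ p ≤ K * ∑ k ∈ Finset.range J, (3 / 2) ^ k * z k := by
  refine ⟨∑ i ∈ Finset.range 13, (10 * 1) ^ (i + 1) * (i + 1).factorial / (4 * 1),
    Finset.sum_pos (fun i _ => by positivity) (by simp), fun κ k0 hκ z J h T T0 hT p p1 p2 => ?_⟩
  have L0 : 0 ≤ ∑ k ∈ Finset.range J, (3 / 2) ^ k * z k :=
    Finset.sum_nonneg fun k hk => mul_nonneg (by positivity) (h k (Finset.mem_range.1 hk)).1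
  have a := prod_le_exp (y := fun k => κ * z k) J fun k hk => mul_nonneg k0.le (h k hk).1
  rw [← Finset.mul_sum] at a
  have b : T ≤ (∑ k ∈ Finset.range J, z k) * Real.exp (κ * ∑ k ∈ Finset.range J, z k) :=
    le_of_mul_le_mul_left (by linarith [exp_sub_one_le (κ * ∑ k ∈ Finset.range J, z k)]) k0
  obtain ⟨i, rfl⟩ : ∃ i, p = i + 1 := ⟨p - 1, by omega⟩
  have i6 : ((i + 1 : ℕ) : ℝ) ≤ 13 := by exact_mod_cast p2
  have c := r2_sum (κ := (i + 1 : ℕ) * κ) (C := 1) one_pos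
    (by nlinarith [mul_le_mul_of_nonneg_right i6 k0.le]) J h i
  refine (pow_le_pow_left₀ T0 b _).trans ?_
  rw [mul_pow, ← Real.exp_nat_mul, ← mul_assoc]
  refine c.trans (mul_le_mul_of_nonneg_right ?_ L0)
  exact Finset.single_le_sum
    (f := fun i => (10 * 1 : ℝ) ^ (i + 1) * ((i + 1).factorial : ℝ) / (4 * 1))
    (fun i _ => by positivity) (Finset.mem_range.2 (Nat.lt_of_succ_le p2))

theorem geo_three (N : ℕ) : ∑ k ∈ Finset.range N, (2 / 3 : ℝ) ^ k ≤ 3 := by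
  have : ∑ k ∈ Finset.range N, (2 / 3 : ℝ) ^ k = 3 - 3 * (2 / 3) ^ N := by
    induction N with
    | zero => simp
    | succ N ih => rw [Finset.sum_range_succ, ih]; ring
  rw [this]
  have : (0 : ℝ) ≤ (2 / 3) ^ N := by positivity
  linarith

theorem Lam_sq_le (ht : 0 < t) (d0 : 0 < δ) {y : D 4} (hz : ∀ j, zz G t j y ≤ δ) (j J : ℕ) :
    Lam G t j J y ^ 2 ≤ 3 * δ ^ 2 * lam G t δ j J y := by
  have z0 : ∀ j, 0 ≤ zz G t j y := fun j => zz_nonneg G ht j y
  unfold Lam lam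
  rw [Finset.sum_Ico_eq_sum_range]
  have h := Finset.sum_sq_le_sum_mul_sum_of_sq_le_mul (Finset.range (J - j))
    (r := fun k => zz G t (j + k) y) (f := fun k => (2 / 3 : ℝ) ^ k)
    (g := fun k => δ ^ 2 * ((3 / 2) ^ k * zz G t (j + k) y / δ))
    (fun k _ => by positivity) (fun k _ => by have := z0 (j + k); positivity) (fun k _ => by
      have e : (2 / 3 : ℝ) ^ k * (3 / 2) ^ k = 1 := by rw [← mul_pow]; norm_num
      have e2 : (2 / 3 : ℝ) ^ k * (δ ^ 2 * ((3 / 2) ^ k * zz G t (j + k) y / δ)) =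
          (2 / 3 : ℝ) ^ k * (3 / 2) ^ k * (δ * zz G t (j + k) y) := by field_simp
      rw [e2, e, one_mul, sq]
      exact mul_le_mul_of_nonneg_right (hz _) (z0 _))
  rw [← Finset.mul_sum] at h
  rw [mul_assoc]
  refine h.trans (mul_le_mul_of_nonneg_right (geo_three _) (mul_nonneg (sq_nonneg _)
    (Finset.sum_nonneg fun k _ => ?_)))
  have := z0 (j + k)
  positivity

/-- Pointwise bound for the development (port of `NH.rad_bd`, moments from `r2_sum`). -/
theorem rad_bd (κ : ℝ) : ∃ C : ℝ, 1 ≤ C ∧ ∀ (Ω : Set (D 4)) (u : D 4 → V m)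
    (G : D 4 → D 4 →L[ℝ] V m) (x0 : D 4) (t δ : ℝ) (J : ℕ) (W : ℕ → D 4 → V m),
    Chn a b Ω u G x0 t δ κ J W →
    ∀ x ∈ closedBall x0 (3 * t / 2), ∀ i : ℕ, i ≤ J → 1000 * κ * δ * i ≤ 1 →
      ∃ τ : ℝ, 0 ≤ τ ∧ ‖W J x‖ ≤ ‖W 0 x‖ + C * δ * (i + τ) ∧
        ∀ p : ℕ, 1 ≤ p → p ≤ 13 → τ ^ p ≤ C * lam G t δ i J x := by
  obtain ⟨K, K0, hK⟩ := r13
  have ka := abs_nonneg κ
  refine ⟨4 * |κ| + K + 1, by linarith, fun Ω u G x0 t δ J W Y x hx i hi hδi => ?_⟩
  have X := Y.X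
  have t0 := X.t0
  have d0 := X.dp
  have k1 := Y.k1
  have hδ := Y.kd
  rw [abs_of_nonneg (by linarith : 0 ≤ κ)]
  have i0 : (0 : ℝ) ≤ i := Nat.cast_nonneg i
  have e3 : δ ≤ κ * δ := le_mul_of_one_le_left d0.le k1
  have k0 : 0 < κ * δ := by positivity
  have e4 : 0 ≤ κ * δ * i := by positivity
  have z0 : ∀ j, 0 ≤ zz G t j x := fun j => zz_nonneg G t0 j x
  have z1 : ∀ j, zz G t j x ≤ δ := fun j => X.zz_le hx j
  have y0 : ∀ j, 0 ≤ κ * zz G t j x := fun j => mul_nonneg (by positivity) (z0 j)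
  have hp := rad_prod_lt (r := fun j => ‖W j x‖) (y := fun j => κ * zz G t j x) y0 J (Y.gr x hx)
  obtain ⟨N, rfl⟩ := Nat.exists_eq_add_of_le hi
  rw [Finset.prod_range_add] at hp
  have hq : ∏ k ∈ Finset.range N, (1 + κ * zz G t (i + k) x) =
      ∏ k ∈ Finset.range N, (1 + κ * δ * (zz G t (i + k) x / δ)) :=
    Finset.prod_congr rfl fun k _ => by field_simp
  have q1 : 1 ≤ ∏ k ∈ Finset.range N, (1 + κ * zz G t (i + k) x) :=
    rad_one (y := fun k => κ * zz G t (i + k) x) (fun k => y0 (i + k)) N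
  set Q := ∏ k ∈ Finset.range N, (1 + κ * zz G t (i + k) x) with hQ
  have τ0 : 0 ≤ (Q - 1) / (κ * δ) := div_nonneg (by linarith) k0.le
  have eQ : Q = 1 + κ * δ * ((Q - 1) / (κ * δ)) := by
    rw [mul_div_cancel₀ _ k0.ne']; ring
  have hT := hK _ k0 (by linarith) (fun k => zz G t (i + k) x / δ) N
    (fun k _ => ⟨div_nonneg (z0 _) d0.le, (div_le_one d0).2 (z1 _)⟩) _ τ0 (by rw [← hq, ← eQ])
  have el : lam G t δ i (i + N) x =
      ∑ k ∈ Finset.range N, (3 / 2) ^ k * (zz G t (i + k) x / δ) := by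
    unfold lam
    rw [Nat.add_sub_cancel_left]
    exact Finset.sum_congr rfl fun k _ => mul_div_assoc _ _ _
  have l0 : 0 ≤ lam G t δ i (i + N) x := by
    rw [el]
    exact Finset.sum_nonneg fun k _ => mul_nonneg (by positivity) (div_nonneg (z0 _) d0.le)
  rw [← el] at hT
  have hc : K * lam G t δ i (i + N) x ≤ (4 * κ + K + 1) * lam G t δ i (i + N) x :=
    mul_le_mul_of_nonneg_right (by linarith) l0
  refine ⟨_, τ0, ?_, fun p p1 p2 => (hT p p1 p2).trans hc⟩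
  generalize (Q - 1) / (κ * δ) = τ at *
  have hs : ∑ j ∈ Finset.range i, κ * zz G t j x ≤ κ * δ * i := by
    calc _ ≤ ∑ _j ∈ Finset.range i, κ * δ :=
          Finset.sum_le_sum fun j _ => mul_le_mul_of_nonneg_left (z1 j) (by positivity)
      _ = _ := by rw [Finset.sum_const, Finset.card_range, nsmul_eq_mul]; ring
  have hP : ∏ j ∈ Finset.range i, (1 + κ * zz G t j x) ≤ 1 + 5 / 4 * (κ * δ * i) :=
    (prod_le_exp i fun j _ => y0 j).trans ((Real.exp_le_exp.2 hs).trans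
      (exp_small (y := κ * δ * i) e4 (by linarith)).2)
  have w0 : ‖W 0 x‖ ≤ 40 * δ := by
    rw [Y.w0]
    exact X.w0_in hx
  have := rad_fin (norm_nonneg _) (by linarith) (by positivity) (by linarith)
    (mul_nonneg k0.le τ0) hP eQ hp
  have f1 : 0 ≤ (K + 1) * δ * (i + τ) := by positivity
  linarith

/-- The first moment of `lam`. -/
theorem Ctx.lam_int (X : Ctx Ω u G x0 (2 * t) δ) (i J : ℕ) {A A' : Set (D 4)}
    (mA : MeasurableSet A) (mA' : MeasurableSet A') (h2 : A' ⊆ closedBall x0 (2 * t))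
    (h1 : ∀ x ∈ A, closedBall x (t / 8 / 2 ^ i) ⊆ A') :
    IntegrableOn (lam G t δ i J) A ∧
      ∫ x in A, lam G t δ i J x ≤ 8 * (t / 2 ^ i) * (∫ y in A', ‖G y‖) / δ := by
  have t0 := X.t0
  have d0 := X.dp
  have I0 : 0 ≤ ∫ y in A', ‖G y‖ := integral_nonneg fun _ => norm_nonneg _
  have key : ∀ k : ℕ, IntegrableOn (fun x => (3 / 2) ^ k * zz G t (i + k) x / δ) A ∧
      ∫ x in A, (3 / 2) ^ k * zz G t (i + k) x / δ ≤
        (3 / 4) ^ k * (2 * ((t / 2 ^ i) * (∫ y in A', ‖G y‖) / δ)) := fun k => by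
    have s0 := sc_pos t0 (i + k)
    have hρ : 2 * sc t (i + k) ≤ t / 8 / 2 ^ i := by
      have : 2 * sc t (i + k) = t / 8 / 2 ^ i / 2 ^ k := by
        unfold sc; rw [pow_add]; field_simp; norm_num
      rw [this]
      exact div_le_self (by positivity) (one_le_pow₀ one_le_two)
    obtain ⟨f1, f2⟩ := mass_fub (n := 4) (by norm_num) X.sob (ρ := 2 * sc t (i + k))
      (by positivity) mA mA' h2 fun x hx => (closedBall_subset_closedBall hρ).trans (h1 x hx)
    have e : (fun x => (3 / 2 : ℝ) ^ k * zz G t (i + k) x / δ) = fun x =>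
        (3 / 2) ^ k / (2 * sc t (i + k)) ^ 3 / δ * mass G x (2 * sc t (i + k)) := by
      funext x; unfold zz; ring
    rw [e]
    refine ⟨f1.const_mul _, ?_⟩
    rw [integral_const_mul]
    refine (mul_le_mul_of_nonneg_left f2 (by positivity)).trans (le_of_eq ?_)
    have e2 : (3 / 2 : ℝ) ^ k = (3 / 4) ^ k * 2 ^ k := by rw [← mul_pow]; norm_num
    have e3 : sc t (i + k) = t / 16 / (2 ^ i * 2 ^ k) := by unfold sc; rw [pow_add]
    rw [e2, e3]
    field_simp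
    ring
  unfold lam
  refine ⟨integrable_finsetSum _ fun k _ => (key k).1, ?_⟩
  rw [integral_finsetSum _ fun k _ => (key k).1]
  refine (Finset.sum_le_sum fun k _ => (key k).2).trans ?_
  rw [← Finset.sum_mul]
  refine (mul_le_mul_of_nonneg_right (geo_four _) (by positivity)).trans (le_of_eq ?_)
  ring

/-- The second moment of `Lam` at its own scale (`Lam ^ 2 ≤ 3 δ ^ 2 lam` pointwise). -/
theorem Ctx.lam2 (X : Ctx Ω u G x0 (2 * t) δ) {x : D 4} (hx : x ∈ closedBall x0 (5 * t / 4))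
    (j J : ℕ) : IntegrableOn (fun y => Lam G t j J y ^ 2) (closedBall x (2 * sc t j)) ∧
      ∫ y in closedBall x (2 * sc t j), Lam G t j J y ^ 2 ≤ 30000 * δ ^ 2 * sc t j ^ 4 := by
  have t0 := X.t0
  have d0 := X.dp
  have s0 := sc_pos t0 j
  have s1 := sc_le t0 j
  have hd : dist x x0 ≤ 5 * t / 4 := hx
  have e8 : t / 8 / 2 ^ j = 2 * sc t j := by unfold sc; ring
  have e1 : t / 2 ^ j = 16 * sc t j := by unfold sc; ring
  obtain ⟨f1, f2⟩ := X.lam_int j J (A := closedBall x (2 * sc t j))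
    (A' := closedBall x (4 * sc t j)) measurableSet_closedBall measurableSet_closedBall
    (closedBall_subset_closedBall' (by linarith)) fun y hy => by
      have hy' : dist y x ≤ 2 * sc t j := hy
      rw [e8]
      exact closedBall_subset_closedBall' (by linarith)
  have hm : ∫ y in closedBall x (4 * sc t j), ‖G y‖ ≤ δ * (4 * sc t j) ^ 3 :=
    X.mor x _ (by positivity) (by linarith)
  have hb : ∀ y ∈ closedBall x (2 * sc t j), Lam G t j J y ^ 2 ≤ 3 * δ ^ 2 * lam G t δ j J y :=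
    fun y hy => Lam_sq_le t0 d0 (X.zz_le (closedBall_subset_closedBall' (by linarith) hy)) j J
  have ms : Measurable fun y => Lam G t j J y ^ 2 := by
    unfold Lam zz
    exact (Finset.measurable_sum _ fun i _ => (mass_meas X.sob _).div_const _).pow_const 2
  have g1 : IntegrableOn (fun y => 3 * δ ^ 2 * lam G t δ j J y) (closedBall x (2 * sc t j)) :=
    f1.const_mul _
  have g2 : IntegrableOn (fun y => Lam G t j J y ^ 2) (closedBall x (2 * sc t j)) :=
    g1.mono' ms.aestronglyMeasurable ((ae_restrict_iff' measurableSet_closedBall).2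
      (Eventually.of_forall fun y hy => by
        rw [Real.norm_of_nonneg (sq_nonneg _)]
        exact hb y hy))
  refine ⟨g2, (setIntegral_mono_on g2 g1 measurableSet_closedBall hb).trans ?_⟩
  rw [integral_const_mul]
  have h3 : 8 * (t / 2 ^ j) * (∫ y in closedBall x (4 * sc t j), ‖G y‖) / δ ≤
      8192 * sc t j ^ 4 := by
    rw [e1, div_le_iff₀ d0]
    refine (mul_le_mul_of_nonneg_left hm (by positivity)).trans (le_of_eq ?_)
    ring
  have h4 := mul_le_mul_of_nonneg_left (f2.trans h3) (by positivity : 0 ≤ 3 * δ ^ 2)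
  have h5 : 0 ≤ δ ^ 2 * sc t j ^ 4 := by positivity
  linarith

end Pool.Agent.Lib.MP_a785f2_an.N4
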