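import Pool.Agent.Lib.MP_a785f2_an.N4.Cmp
import Pool.Agent.Lib.MP_a785f2_an.N4.Rad

open MeasureTheory Metric Set Filter Topology
open scoped ContDiff RealInnerProductSpace ENNReal Convolution

namespace Pool.Agent.Lib.MP_a785f2_an.N4

open HS NH

variable {m : ℕ} {H : Type} [NormedAddCommGroup H] [NormedSpace ℝ H]
  {a : V m → H →L[ℝ] V m →L[ℝ] V m} {b : V m → H} {L : ℝ}
  {Ω : Set (D 4)} {u : D 4 → V m} {G : D 4 → D 4 →L[ℝ] V m} {x0 : D 4} {t δ : ℝ}

theorem qb_sq (S : Sob Ω u G) (x : D 4) (r : ℝ) :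
    IntegrableOn (fun y => ‖G y‖ ^ 2) (closedBall x r) := by
  have h1 : IntegrableOn (fun y => 1 + ‖G y‖ ^ 4) (closedBall x r) :=
    (integrableOn_const measure_closedBall_lt_top.ne).add (S.powG (by norm_num)).integrableOn
  refine h1.mono' (S.mG.norm.measurable.pow_const 2).aestronglyMeasurable
    (Eventually.of_forall fun y => ?_)
  rw [Real.norm_of_nonneg (by positivity)]
  nlinarith [sq_nonneg (‖G y‖ ^ 2 - 1), sq_nonneg (‖G y‖ ^ 2)]

theorem qb_am {p q r : ℝ} (hr : 0 < r) : p * q ≤ r / 2 * p ^ 2 + 1 / (2 * r) * q ^ 2 := by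
  have h : r / 2 * p ^ 2 + 1 / (2 * r) * q ^ 2 - p * q = (r * p - q) ^ 2 / (2 * r) := by
    field_simp; ring
  have : 0 ≤ (r * p - q) ^ 2 / (2 * r) := by positivity
  linarith

theorem qb_mass (S : Sob Ω u G) {x : D 4} {r M : ℝ} (hr : 0 < r) (hM : 0 < M)
    (h : ∫ y in closedBall x r, ‖G y‖ ^ 2 ≤ M ^ 2 * (2 * r) ^ 4) :
    mass G x r ≤ M * (2 * r) ^ 4 := by
  have c : IntegrableOn (fun _ : D 4 => M / 2) (closedBall x r) :=
    integrableOn_const measure_closedBall_lt_top.ne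
  have h1 := integral_mono (S.locG (by norm_num) x r)
    (c.add ((qb_sq S x r).const_mul (1 / (2 * M)))) fun y => by
      simpa using qb_am (p := 1) (q := ‖G y‖) hM
  simp only [Pi.add_apply] at h1
  rw [integral_add c ((qb_sq S x r).const_mul _), integral_const_mul, setIntegral_const,
    Measure.real, Real.volume_pi_closedBall _ hr.le, ENNReal.toReal_ofReal (by positivity),
    Fintype.card_fin, smul_eq_mul] at h1
  have h2 := mul_le_mul_of_nonneg_left h (show 0 ≤ 1 / (2 * M) by positivity)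
  have e : 1 / (2 * M) * (M ^ 2 * (2 * r) ^ 4) = M * (2 * r) ^ 4 / 2 := by field_simp
  unfold mass
  linarith

/-- The transverse mass at scale `j`. -/
theorem qb (T : Str a b L) (κ : ℝ) : ∃ C : ℝ, 1 ≤ C ∧ ∀ (Ω : Set (D 4)) (u : D 4 → V m)
    (G : D 4 → D 4 →L[ℝ] V m) (x0 : D 4) (t δ : ℝ) (J : ℕ) (W : ℕ → D 4 → V m),
    Chn a b Ω u G x0 t δ κ J W →
    ∀ x ∈ closedBall x0 (5 * t / 4), ∀ j ≤ J, ∀ M Mg : ℝ, 1 / t ≤ M →
      ∫ y in closedBall x (2 * sc t j), ‖G y‖ ^ 2 ≤ M ^ 2 * (2 * (2 * sc t j)) ^ 4 →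
      ∫ y in closedBall x (2 * sc t j), ga G (W J) y ≤ Mg * (2 * (2 * sc t j)) ^ 4 →
      zz G t j x ≤ 32 * sc t j * M ∧
        zz (tg G (vv (W J x))) t j x ≤ C * sc t j * (Mg + (δ + Lam G t j J x) * M) := by
  obtain ⟨C, C1, hC⟩ := cmp T κ
  refine ⟨4000 * C, by linarith, fun Ω u G x0 t δ J W Z x hx j hj M Mg hM h2 hg => ?_⟩
  have t0 := Z.X.t0
  have d0 := Z.X.dp
  have S := Z.X.sob
  have M0 : 0 < M := lt_of_lt_of_le (by positivity) hM
  have s0 := sc_pos t0 j
  have l0 := Lam_nonneg G t0 j J x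
  have m1 := qb_mass S (by positivity) M0 h2
  obtain ⟨i2, l2⟩ := Z.X.lam2 hx j J
  have i1 := S.locG (by norm_num) x (2 * sc t j)
  have i3 := qb_sq S x (2 * sc t j)
  have i4 : IntegrableOn (ga G (W J)) (closedBall x (2 * sc t j)) :=
    (i1.const_mul 2).mono' (ga_meas S.mG (Z.sm J).continuous).aestronglyMeasurable
      (Eventually.of_forall fun y => by
        rw [Real.norm_of_nonneg (ga_nonneg _ _ _)]; exact ga_le _ _ _)
  have g0 : 0 ≤ Mg := nonneg_of_mul_nonneg_left
    ((integral_nonneg fun y => ga_nonneg G (W J) y).trans hg) (by positivity)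
  have j1 := i4.add (i1.const_mul (2 * C * (δ + Lam G t j J x)))
  have j2 := (i2.const_mul (C * (M / δ))).add (i3.const_mul (C * (δ / M)))
  have m2 := integral_mono_of_nonneg (f := fun y => ‖tg G (vv (W J x)) y‖)
    (Eventually.of_forall fun y => norm_nonneg _) (j1.add j2)
    (ae_restrict_of_forall_mem measurableSet_closedBall fun y hy => by
      have e : tg G (vv (W J x)) y = tg G (vv (W J y)) y +
          (TV (vv (W J x)) - TV (vv (W J y))).comp (G y) := by
        rw [ContinuousLinearMap.sub_comp]; unfold tg; abel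
      have a1 := (ContinuousLinearMap.opNorm_comp_le _ (G y)).trans (mul_le_mul_of_nonneg_right
        ((norm_TV_sub (norm_vv_le (W J x)) (norm_vv_le (W J y))).trans
          (mul_le_mul_of_nonneg_left (hC Ω u G x0 t δ J W Z x hx j hj y hy) zero_le_two))
        (norm_nonneg _))
      have a2 := mul_le_mul_of_nonneg_left
        (qb_am (p := Lam G t j J y) (q := ‖G y‖) (div_pos M0 d0)) (show 0 ≤ 2 * C by positivity)
      have a3 : 2 * C * (M / δ / 2 * Lam G t j J y ^ 2 + 1 / (2 * (M / δ)) * ‖G y‖ ^ 2) =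
          C * (M / δ) * Lam G t j J y ^ 2 + C * (δ / M) * ‖G y‖ ^ 2 := by field_simp
      have a4 := norm_add_le (tg G (vv (W J y)) y) ((TV (vv (W J x)) - TV (vv (W J y))).comp (G y))
      simp only [Pi.add_apply, ga]
      rw [e]
      linarith)
  rw [integral_add' j1 j2, integral_add' i4 (i1.const_mul _),
    integral_add' (i2.const_mul _) (i3.const_mul _), integral_const_mul, integral_const_mul,
    integral_const_mul] at m2
  have b1 := mul_le_mul_of_nonneg_left m1 (show 0 ≤ 2 * C * (δ + Lam G t j J x) by positivity)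
  have b2 := mul_le_mul_of_nonneg_left l2 (show 0 ≤ C * (M / δ) by positivity)
  have b3 := mul_le_mul_of_nonneg_left h2 (show 0 ≤ C * (δ / M) by positivity)
  have e2 : C * (M / δ) * (30000 * δ ^ 2 * sc t j ^ 4) = 30000 * (C * δ * M * sc t j ^ 4) := by
    field_simp
  have e3 : C * (δ / M) * (M ^ 2 * (2 * (2 * sc t j)) ^ 4) = 256 * (C * δ * M * sc t j ^ 4) := by
    field_simp; norm_num
  unfold zz
  rw [div_le_iff₀ (by positivity), div_le_iff₀ (by positivity)]
  refine ⟨m1.trans (le_of_eq (by ring)), ?_⟩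
  unfold mass at *
  have c1 : 0 ≤ C * δ * M * sc t j ^ 4 := by positivity
  have c2 : 0 ≤ C * Lam G t j J x * M * sc t j ^ 4 := by positivity
  have c3 : 0 ≤ Mg * sc t j ^ 4 := by positivity
  have c4 := mul_le_mul_of_nonneg_right C1 c3
  linarith

end Pool.Agent.Lib.MP_a785f2_an.N4
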