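import Pool.Agent.Lib.MP_a785f2_an.NH.Rec
import Pool.Agent.Lib.MP_a785f2_an.NH.Err
import Pool.Agent.Lib.MP_a785f2_an.NH.Psi
import Pool.Agent.Lib.MP_a785f2_an.NH.Test

/-! The equation tested with `ρ • ψ(W k)`, in every dimension. -/

open MeasureTheory Metric Set Filter Topology
open scoped ContDiff RealInnerProductSpace ENNReal Convolution

namespace Pool.Agent.Lib.MP_a785f2_an.N4

open HS NH

variable {n m : ℕ} {H : Type} [NormedAddCommGroup H] [NormedSpace ℝ H]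
  {a : V m → H →L[ℝ] V m →L[ℝ] V m} {b : V m → H} {L : ℝ}
  {Ω : Set (D n)} {u : D n → V m} {G : D n → D n →L[ℝ] V m}

/-- The normalised defect. -/
noncomputable def sv (a : V m → H →L[ℝ] V m →L[ℝ] V m) (b : V m → H) (U W : D n → V m)
    (x : D n) : D n →L[ℝ] V m := (br (W x))⁻¹ • dfc a b U W x

theorem norm_sv (U W : D n → V m) (x : D n) : ‖sv a b U W x‖ = sg a b U W x := by
  rw [sv, sg, norm_smul, norm_inv, Real.norm_of_nonneg (br_pos _).le, inv_mul_eq_div]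

/-- The main part of the covariant derivative of the test field. -/
noncomputable def BB (a : V m → H →L[ℝ] V m →L[ℝ] V m) (b : V m → H) (h : ℝ) (ρ : D n → ℝ)
    (G : D n → D n →L[ℝ] V m) (U W : D n → V m) (x : D n) : D n →L[ℝ] V m :=
  (ρ x * br (W x)) • (fderiv ℝ (Yf 0 h) (W x)).comp (G x + sv a b U W x) +
    (fderiv ℝ ρ x).smulRight (Yf 0 h (W x))

theorem col_BB (h : ℝ) (ρ : D n → ℝ) (U W : D n → V m) (x : D n) (α : Fin n) :
    col (BB a b h ρ G U W x) α = (ρ x * br (W x)) •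
      fderiv ℝ (Yf 0 h) (W x) (col (G x) α + col (sv a b U W x) α) +
      fderiv ℝ ρ x (Pi.single α 1) • Yf 0 h (W x) := rfl

theorem continuous_om (T : Str a b L) :
    Continuous fun p : V m × (D n →L[ℝ] V m) × V m => om a b p.1 p.2.1 p.2.2 := by
  have cb := (T.cb.continuous_fderiv one_ne_zero).comp
    (continuous_fst : Continuous fun p : V m × (D n →L[ℝ] V m) × V m => p.1)
  have ca := T.ca.continuous.comp
    (continuous_fst : Continuous fun p : V m × (D n →L[ℝ] V m) × V m => p.1)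
  exact (((ContinuousLinearMap.flipₗᵢ ℝ H (V m) (V m)).continuous.comp ca).clm_apply
    continuous_snd.snd).clm_comp (cb.clm_comp continuous_snd.fst)

theorem int_om (hn : 2 ≤ n) (T : Str a b L) (S : Sob Ω u G) {φ : D n → V m} (hφ : Continuous φ)
    (h1 : ∀ x, ‖φ x‖ ≤ 1) : Integrable (fun x => pr (G x) (om a b (u x) (G x) (φ x))) volume := by
  refine ((S.powG (by omega)).const_mul (n * (n ^ (n - 1) * L ^ 2))).mono'
    (continuous_pr.comp_stronglyMeasurable (S.mG.prodMk ((continuous_om T).comp_stronglyMeasurable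
      (S.mu.prodMk (S.mG.prodMk hφ.stronglyMeasurable))))).aestronglyMeasurable
    (ae_of_all _ fun x => (abs_pr_le hn _ _).trans ?_)
  have e : ‖G x‖ ^ n = ‖G x‖ ^ (n - 1) * ‖G x‖ := by rw [← pow_succ]; congr 1; omega
  have h2 := om_norm T (u x) (G x) (φ x)
  have h3 := fro_le_norm (G x)
  have h4 := fro_nonneg (G x)
  have h5 := h1 x
  calc _ ≤ n * ((n * ‖G x‖) ^ (n - 1) * (L ^ 2 * ‖G x‖ * 1)) := by
        gcongr
        exact h2.trans (by gcongr)
    _ = _ := by rw [e, mul_pow]; ring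

theorem br_dpsi {h : ℝ} (hh : 0 < h) (w v : V m) :
    ‖br w • fderiv ℝ (Yf 0 h) w v‖ ≤ 2 * (1 + 1 / h) * ‖v‖ := by
  have r0 := norm_nonneg w
  have hs : h ≤ √(h ^ 2 + ‖w‖ ^ 2) := Real.le_sqrt_of_sq_le (by nlinarith)
  have hrs : ‖w‖ ≤ √(h ^ 2 + ‖w‖ ^ 2) := Real.le_sqrt_of_sq_le (by nlinarith)
  rw [psi_fderiv hh, norm_smul, Real.norm_of_nonneg (br_pos w).le]
  set s := √(h ^ 2 + ‖w‖ ^ 2)
  have s0 : 0 < s := hh.trans_le hs
  have h1 : ‖s⁻¹ • v - (⟪w, v⟫ / s ^ 3) • w‖ ≤ 2 * (‖v‖ / s) := by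
    refine (norm_sub_le _ _).trans ?_
    rw [norm_smul, norm_smul, Real.norm_eq_abs, Real.norm_eq_abs, abs_of_pos (inv_pos.2 s0),
      abs_div, abs_of_pos (pow_pos s0 3), inv_mul_eq_div, two_mul]
    have h2 : |⟪w, v⟫| ≤ s * ‖v‖ := (abs_real_inner_le_norm _ _).trans (by gcongr)
    have h3 : |⟪w, v⟫| / s ^ 3 * ‖w‖ ≤ ‖v‖ / s := by
      calc _ ≤ s * ‖v‖ / s ^ 3 * s := by gcongr
        _ = _ := by field_simp
    linarith
  have h4 : (1 + ‖w‖) / s ≤ 1 + 1 / h := by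
    have h5 : 1 / s ≤ 1 / h := one_div_le_one_div_of_le hh hs
    have h6 : ‖w‖ / s ≤ 1 := (div_le_one s0).2 hrs
    rw [add_div]
    linarith
  calc _ ≤ (1 + ‖w‖) * (2 * (‖v‖ / s)) := by gcongr; exact br_le w
    _ = 2 * ((1 + ‖w‖) / s) * ‖v‖ := by ring
    _ ≤ _ := by gcongr

theorem BB_err (T : Str a b L) {h : ℝ} (hh : 0 < h) {ρ : D n → ℝ} (hρ : ContDiff ℝ 1 ρ)
    (ρ0 : ∀ x, 0 ≤ ρ x) (ρ1 : ∀ x, ρ x ≤ 1) {U W : D n → V m} (hW : ContDiff ℝ 1 W) (x : D n) :
    ‖BB a b h ρ G U W x - (fderiv ℝ (fun y => ρ y • Yf 0 h (W y)) x +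
      om a b (u x) (G x) (ρ x • Yf 0 h (W x)))‖ ≤
      (2 * (1 + 1 / h) + L * L) * ‖fderiv ℝ U x - G x‖ +
        ‖G x‖ * ‖con a b (U x) - con a b (u x)‖ := by
  have hL : 0 ≤ L := zero_le_one.trans T.L1
  have d1 := (hρ.differentiable one_ne_zero x).hasFDerivAt
  have d2 := (((Yf_contDiff (0 : V m) hh).differentiable (by simp) (W x)).hasFDerivAt).comp x
    (hW.differentiable one_ne_zero x).hasFDerivAt
  have d3 : fderiv ℝ (fun y => ρ y • Yf 0 h (W y)) x = _ := (d1.smul d2).fderiv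
  refine ContinuousLinearMap.opNorm_le_bound _ (by positivity) fun v => ?_
  have k1 := psi_skew hh (W x) (con a b (U x) (fderiv ℝ U x v))
    (by rw [real_inner_comm]; exact T.anti _ _ _)
  have e : (BB a b h ρ G U W x - (fderiv ℝ (fun y => ρ y • Yf 0 h (W y)) x +
      om a b (u x) (G x) (ρ x • Yf 0 h (W x)))) v = ρ x •
      (-(br (W x) • fderiv ℝ (Yf 0 h) (W x) ((fderiv ℝ U x - G x) v)) +
        con a b (U x) ((fderiv ℝ U x - G x) v) (Yf 0 h (W x)) +
        (con a b (U x) - con a b (u x)) (G x v) (Yf 0 h (W x))) := by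
    rw [d3]
    simp only [BB, sv, dfc, sub_apply, add_apply, smul_apply, ContinuousLinearMap.comp_apply,
      ContinuousLinearMap.smulRight_apply, om_apply, ← con_apply, map_add, map_sub, map_smul,
      Function.comp, k1, smul_add, smul_sub, smul_smul,
      mul_inv_cancel_right₀ (br_pos (W x)).ne']
    have e1 : ρ x * br (W x) * ((br (W x))⁻¹ * br (W x)) = ρ x * br (W x) := by
      rw [inv_mul_cancel₀ (br_pos _).ne', mul_one]
    rw [e1]
    module
  have y1 := Yf_le (c := (0 : V m)) hh (W x)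
  have b1 := br_dpsi hh (W x) ((fderiv ℝ U x - G x) v)
  have b0 := (fderiv ℝ U x - G x).le_opNorm v
  have b2 : ‖con a b (U x) ((fderiv ℝ U x - G x) v) (Yf 0 h (W x))‖ ≤
      L * L * (‖fderiv ℝ U x - G x‖ * ‖v‖) * 1 :=
    ((con a b (U x)).le_opNorm₂ _ _).trans (by gcongr; exact err_con_le T _)
  have b3 : ‖(con a b (U x) - con a b (u x)) (G x v) (Yf 0 h (W x))‖ ≤
      ‖con a b (U x) - con a b (u x)‖ * (‖G x‖ * ‖v‖) * 1 :=
    ((con a b (U x) - con a b (u x)).le_opNorm₂ _ _).trans (by gcongr; exact (G x).le_opNorm v)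
  have b4 : 2 * (1 + 1 / h) * ‖(fderiv ℝ U x - G x) v‖ ≤
      2 * (1 + 1 / h) * (‖fderiv ℝ U x - G x‖ * ‖v‖) := by gcongr
  rw [e, norm_smul, Real.norm_of_nonneg (ρ0 x)]
  refine (mul_le_of_le_one_left (norm_nonneg _) (ρ1 x)).trans (norm_add₃_le.trans ?_)
  rw [norm_neg]
  linarith

/-- The pairing of the gradient with the main part has an integrable majorant of small integral. -/
theorem prestar (hn : 2 ≤ n) (T : Str a b L) (S : Sob Ω u G) (E : Eqn a b Ω u G) {x0 : D n}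
    {R : ℝ} {U W : ℕ → D n → V m} (hK : closedBall x0 R ⊆ Ω) (hU : Apx (closedBall x0 R) u G U)
    (hW : ∀ k, ContDiff ℝ 1 (W k)) {ρ : D n → ℝ} (hρ : ContDiff ℝ 1 ρ)
    (sρ : tsupport ρ ⊆ closedBall x0 R) (ρ0 : ∀ x, 0 ≤ ρ x) (ρ1 : ∀ x, ρ x ≤ 1) {h : ℝ}
    (hh : 0 < h) {ε : ℝ} (hε : 0 < ε) : ∀ᶠ k in atTop, ∃ f : D n → ℝ,
      IntegrableOn f (closedBall x0 R) ∧ ∫ x in closedBall x0 R, f x ≤ ε ∧
      ∀ x, pr (G x) (BB a b h ρ G (U k) (W k) x) ≤ f x := by
  have hL : 0 ≤ L := zero_le_one.trans T.L1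
  obtain ⟨i1, t1⟩ := err_grad hn S hU
  obtain ⟨i2, t2⟩ := err_con hn T S hU
  have t3 := ((t1.const_mul (2 * (1 + 1 / h) + L * L)).add t2).const_mul ((n : ℝ) * n ^ (n - 1))
  rw [mul_zero, add_zero, mul_zero] at t3
  filter_upwards [t3.eventually (ge_mem_nhds hε)] with k hk
  set φ : D n → V m := fun y => ρ y • Yf 0 h (W k y) with hφ
  have c1 : ContDiff ℝ 1 φ := hρ.smul (((Yf_contDiff (0 : V m) hh).of_le (by simp)).comp (hW k))
  have s1 : tsupport φ ⊆ closedBall x0 R := (tsupport_smul_subset_left _ _).trans sρ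
  have c2 : HasCompactSupport φ :=
    (isCompact_closedBall x0 R).of_isClosed_subset (isClosed_tsupport _) s1
  have n1 : ∀ x, ‖φ x‖ ≤ 1 := fun x => by
    rw [hφ, norm_smul, Real.norm_of_nonneg (ρ0 x)]
    exact mul_le_one₀ (ρ1 x) (norm_nonneg _) (Yf_le hh _)
  have j1 : Integrable (fun x => pr (G x) (fderiv ℝ φ x + om a b (u x) (G x) (φ x))) volume := by
    simp only [test_pr_add]
    exact (test_pr_int hn S.mG S.lG (c1.continuous_fderiv one_ne_zero) (c2.fderiv ℝ)).add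
      (int_om hn T S c1.continuous n1)
  have j2 := (((i1 k).const_mul (2 * (1 + 1 / h) + L * L)).add (i2 k)).const_mul
    ((n : ℝ) * n ^ (n - 1))
  refine ⟨_, j1.integrableOn.add j2, ?_, fun x => ?_⟩
  · have z : ∫ x in closedBall x0 R, pr (G x) (fderiv ℝ φ x + om a b (u x) (G x) (φ x)) = 0 := by
      rw [setIntegral_eq_integral_of_forall_compl_eq_zero fun x hx => ?_]
      · exact E φ c1 c2 (s1.trans hK)
      · have h0 : φ x = 0 := image_eq_zero_of_notMem_tsupport fun h => hx (s1 h)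
        have h1 : fderiv ℝ φ x = 0 :=
          image_eq_zero_of_notMem_tsupport fun h => hx (s1 (tsupport_fderiv_subset ℝ h))
        have h4 : om a b (u x) (G x) (φ x) = 0 := by
          ext1 v
          rw [om_apply, h0, map_zero, _root_.zero_apply]
        rw [h1, h4, add_zero, test_pr_zero]
    rw [integral_add' j1.integrableOn j2, z, zero_add, integral_const_mul,
      integral_add' ((i1 k).const_mul _) (i2 k), integral_const_mul]
    exact hk
  · have h1 := BB_err (G := G) (u := u) (U := U k) T hh hρ ρ0 ρ1 (hW k) x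
    have h2 := (le_abs_self _).trans (abs_pr_le hn (G x) (BB a b h ρ G (U k) (W k) x -
      (fderiv ℝ φ x + om a b (u x) (G x) (φ x))))
    have e : ‖G x‖ ^ n = ‖G x‖ ^ (n - 1) * ‖G x‖ := by rw [← pow_succ]; congr 1; omega
    have h3 := fro_le_norm (G x)
    have h4 := fro_nonneg (G x)
    rw [← add_sub_cancel (fderiv ℝ φ x + om a b (u x) (G x) (φ x)) (BB a b h ρ G (U k) (W k) x),
      test_pr_add]
    refine add_le_add le_rfl (h2.trans ?_)
    calc _ ≤ n * ((n * ‖G x‖) ^ (n - 1) * ((2 * (1 + 1 / h) + L * L) * ‖fderiv ℝ (U k) x - G x‖ +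
          ‖G x‖ * ‖con a b (U k x) - con a b (u x)‖)) := by gcongr
      _ = _ := by simp only [Pi.add_apply]; rw [e, mul_pow]; ring

end Pool.Agent.Lib.MP_a785f2_an.N4
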