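import Pool.Agent.Lib.MP_a785f2_an.N4.Defs
import Pool.Agent.Lib.MP_a785f2_an.NH.Rec
import Pool.Agent.Lib.MP_a785f2_an.NH.Err
import Pool.Agent.Lib.MP_a785f2_an.NH.Psi
import Pool.Agent.Lib.MP_a785f2_an.N4.StarA

open MeasureTheory Metric Set Filter Topology
open scoped ContDiff RealInnerProductSpace ENNReal Convolution

namespace Pool.Agent.Lib.MP_a785f2_an.N4

open HS NH

variable {m : ℕ} {H : Type} [NormedAddCommGroup H] [NormedSpace ℝ H]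
  {a : V m → H →L[ℝ] V m →L[ℝ] V m} {b : V m → H} {L : ℝ}
  {Ω : Set (D 4)} {u : D 4 → V m} {G : D 4 → D 4 →L[ℝ] V m} {x0 : D 4} {t δ : ℝ}

theorem star4_real {h s r k g σ P χ T : ℝ} (hh : 0 < h) (h1 : h ≤ 1) (hs : h ≤ s)
    (hrs : r ≤ s) (hs2 : s ≤ h + r) (k1 : 1 ≤ k) (k2 : k ≤ 1 + r) (χ0 : 0 ≤ χ) (χ1 : χ ≤ 1)
    (hT : χ ^ 4 * (k * ((h ^ 2 / s ^ 3 * g ^ 2 - σ ^ 2 / s) / 2)) - 4 * χ ^ 3 * (P * g * (r / s))
      ≤ T) :
    χ ^ 4 * g ^ 4 * (h / s) ^ 3 / 4 ≤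
      h * (g ^ 2 * T) + h * (g ^ 2 * σ ^ 2) + σ ^ 4 / h + 531441 * (P ^ 4 * r ^ 4 * (s / h) ^ 5) := by
  have s0 : 0 < s := hh.trans_le hs
  set Z := χ ^ 4 * g ^ 4 * (h / s) ^ 3 with hZ
  have Z0 : 0 ≤ Z := by positivity
  have c4 : χ ^ 4 ≤ χ ^ 2 := pow_le_pow_of_le_one χ0 χ1 (by norm_num)
  have c2 : χ ^ 2 ≤ 1 := pow_le_one₀ χ0 χ1
  have a1 := mul_le_mul_of_nonneg_left (mul_le_mul_of_nonneg_left hT (sq_nonneg g)) hh.le
  have e2 : h * (g ^ 2 * (χ ^ 4 * (k * ((h ^ 2 / s ^ 3 * g ^ 2 - σ ^ 2 / s) / 2)) -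
      4 * χ ^ 3 * (P * g * (r / s)))) = k * Z / 2 - χ ^ 4 * (k / s) * (h * (g ^ 2 * σ ^ 2)) / 2
        - 4 * (χ ^ 3 * g ^ 3 * (h / s) * (P * r)) := by
    rw [hZ]; field_simp
  have a2 : Z ≤ k * Z := le_mul_of_one_le_left Z0 k1
  have a3 : k / s ≤ 1 / s + 1 := by
    rw [div_add_one s0.ne']; exact div_le_div_of_nonneg_right (by linarith) s0.le
  have q0 : 0 ≤ h * (g ^ 2 * σ ^ 2) := by positivity
  have q1 : 0 ≤ σ ^ 4 / h := by positivity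
  have a4 : χ ^ 4 * (k / s) * (h * (g ^ 2 * σ ^ 2)) ≤
      χ ^ 2 * (1 / s) * (h * (g ^ 2 * σ ^ 2)) + h * (g ^ 2 * σ ^ 2) := by
    calc _ ≤ χ ^ 2 * (1 / s + 1) * (h * (g ^ 2 * σ ^ 2)) := by gcongr
      _ = χ ^ 2 * (1 / s) * (h * (g ^ 2 * σ ^ 2)) + χ ^ 2 * (h * (g ^ 2 * σ ^ 2)) := by ring
      _ ≤ _ := add_le_add le_rfl (mul_le_of_le_one_left q0 c2)
  have a5 : χ ^ 2 * (1 / s) * (h * (g ^ 2 * σ ^ 2)) ≤
      Z / 4 + 2 * (σ ^ 4 / h) + h * (g ^ 2 * σ ^ 2) := by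
    rcases le_total 1 r with h2 | h2
    · have : 1 / s ≤ 1 := (div_le_one s0).2 (h2.trans hrs)
      have : χ ^ 2 * (1 / s) * (h * (g ^ 2 * σ ^ 2)) ≤ 1 * 1 * (h * (g ^ 2 * σ ^ 2)) := by gcongr
      linarith
    · have b1 := mul_nonneg (sq_nonneg (χ ^ 2 * g ^ 2 * (h / s) ^ 2 / 2 - σ ^ 2))
        (by positivity : 0 ≤ s / h)
      have b2 : (χ ^ 2 * g ^ 2 * (h / s) ^ 2 / 2 - σ ^ 2) ^ 2 * (s / h) =
          Z / 4 - χ ^ 2 * (1 / s) * (h * (g ^ 2 * σ ^ 2)) + s * (σ ^ 4 / h) := by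
        rw [hZ]; field_simp; ring
      have b3 : s * (σ ^ 4 / h) ≤ 2 * (σ ^ 4 / h) := by gcongr; linarith
      linarith
  have a6 : 4 * (χ ^ 3 * g ^ 3 * (h / s) * (P * r)) ≤
      Z / 27 + 531441 * (P ^ 4 * r ^ 4 * (s / h) ^ 5) := by
    have y : ∀ A B : ℝ, 4 * (A ^ 3 * B) ≤ 3 * A ^ 4 + B ^ 4 := fun A B => by
      nlinarith [mul_nonneg (sq_nonneg (A - B)) (add_nonneg (sq_nonneg (A + B))
        (mul_nonneg zero_le_two (sq_nonneg A)))]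
    have b1 := mul_le_mul_of_nonneg_right (y (χ * g * (h / s) ^ 2 / 3) (27 * (P * r)))
      (by positivity : 0 ≤ (s / h) ^ 5)
    refine le_of_eq_of_le ?_ (b1.trans (le_of_eq ?_))
    · field_simp; ring
    · rw [hZ]; field_simp; ring
  rw [e2] at a1
  linarith

theorem star4_pt {ι : Type*} [Fintype ι] {h : ℝ} (hh : 0 < h) (h1 : h ≤ 1) (W : V m)
    (G S : ι → V m) (p : ι → ℝ) {g σ P χ : ℝ} (hg : 0 ≤ g) (hP : 0 ≤ P) (χ0 : 0 ≤ χ)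
    (χ1 : χ ≤ 1) (eg : g ^ 2 = ∑ α, ‖G α‖ ^ 2) (eσ : ∑ α, ‖S α‖ ^ 2 ≤ σ ^ 2)
    (eP : ∑ α, p α ^ 2 ≤ P ^ 2) :
    χ ^ 4 * g ^ 4 / wt h W ^ 3 / 4 ≤
      h * (g ^ 2 * ∑ α, ⟪G α, (χ ^ 4 * br W) • fderiv ℝ (Yf 0 h) W (G α + S α) +
        (4 * χ ^ 3 * p α) • Yf 0 h W⟫) + h * (g ^ 2 * σ ^ 2) + σ ^ 4 / h +
      531441 * (P ^ 4 * ‖W‖ ^ 4 * wt h W ^ 5) := by
  have r0 := norm_nonneg W
  have hs : h ≤ √(h ^ 2 + ‖W‖ ^ 2) := Real.le_sqrt_of_sq_le (by nlinarith)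
  have hrs : ‖W‖ ≤ √(h ^ 2 + ‖W‖ ^ 2) := Real.le_sqrt_of_sq_le (by nlinarith)
  have hs2 : √(h ^ 2 + ‖W‖ ^ 2) ≤ h + ‖W‖ := Real.sqrt_le_iff.2 ⟨by linarith, by nlinarith⟩
  have ew : wt h W = √(h ^ 2 + ‖W‖ ^ 2) / h := by
    rw [wt, ← Real.sqrt_sq hh.le, ← Real.sqrt_div (by positivity), Real.sqrt_sq hh.le]
    congr 1
    field_simp
  have k1 := one_le_br W
  rw [ew, div_eq_mul_inv (χ ^ 4 * g ^ 4), ← inv_pow, inv_div]
  refine star4_real hh h1 hs hrs hs2 k1 (br_le W) χ0 χ1 ?_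
  have hn := psi_norm hh W
  have hy := psi_young hh W
  set s := √(h ^ 2 + ‖W‖ ^ 2)
  set k := br W
  have s0 : 0 < s := hh.trans_le hs
  have a1 : ∀ α, χ ^ 4 * k * ((h ^ 2 / s ^ 3 * ‖G α‖ ^ 2 - ‖S α‖ ^ 2 / s) / 2) -
      4 * χ ^ 3 * (‖W‖ / s) * (|p α| * ‖G α‖) ≤
      ⟪G α, (χ ^ 4 * k) • fderiv ℝ (Yf 0 h) W (G α + S α) + (4 * χ ^ 3 * p α) • Yf 0 h W⟫ := by
    intro α
    rw [inner_add_right, inner_smul_right, inner_smul_right]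
    have h2 := mul_le_mul_of_nonneg_left (hy (G α) (S α)) (by positivity : 0 ≤ χ ^ 4 * k)
    have h3 : |p α * ⟪G α, Yf 0 h W⟫| ≤ |p α| * (‖G α‖ * (‖W‖ / s)) := by
      rw [abs_mul, ← hn]
      exact mul_le_mul_of_nonneg_left (abs_real_inner_le_norm _ _) (abs_nonneg _)
    have h4 := mul_le_mul_of_nonneg_left (neg_le_of_abs_le h3) (by positivity : 0 ≤ 4 * χ ^ 3)
    linarith
  refine le_trans ?_ (Finset.sum_le_sum fun α _ => a1 α)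
  have h5 := cs_sum (fun α => |p α|) (fun α => ‖G α‖) hP hg (by simpa only [sq_abs] using eP) eg.ge
  rw [Finset.sum_sub_distrib, ← Finset.mul_sum, ← Finset.mul_sum, ← Finset.sum_div,
    Finset.sum_sub_distrib, ← Finset.mul_sum, ← Finset.sum_div, ← eg]
  have h6 := mul_le_mul_of_nonneg_left h5 (by positivity : 0 ≤ 4 * χ ^ 3 * (‖W‖ / s))
  have h7 := mul_le_mul_of_nonneg_left (div_le_div_of_nonneg_right eσ s0.le)
    (by positivity : 0 ≤ χ ^ 4 * k)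
  linarith

theorem star4_BB {h : ℝ} (hh : 0 < h) (h1 : h ≤ 1) {χ : D 4 → ℝ} (hχ : ContDiff ℝ 1 χ)
    (χ0 : ∀ x, 0 ≤ χ x) (χ1 : ∀ x, χ x ≤ 1) (U W : D 4 → V m) (x : D 4) :
    χ x ^ 4 * (‖G x‖ ^ 4 / wt h (W x) ^ 3) ≤
      1024 * h * pr (G x) (BB a b h (fun y => χ y ^ 4) G U W x) + 10 ^ 10 *
        ((h * (‖G x‖ ^ 2 * sg a b U W x ^ 2) + sg a b U W x ^ 4 / h) +
          ‖fderiv ℝ χ x‖ ^ 4 * (‖W x‖ ^ 4 * wt h (W x) ^ 5)) := by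
  have s0 := sg_nonneg a b U W x
  have w0 : 0 < wt h (W x) := one_pos.trans_le (one_le_wt h _)
  have f0 := fro_nonneg (G x)
  have a1 := star4_pt hh h1 (W x) (col (G x)) (col (sv a b U W x))
    (fun α => fderiv ℝ χ x (Pi.single α 1)) (σ := 4 * sg a b U W x) (P := 2 * ‖fderiv ℝ χ x‖)
    f0 (by positivity) (χ0 x) (χ1 x) (fro_sq _) (by
      rw [← fro_sq, ← norm_sv]
      exact pow_le_pow_left₀ (fro_nonneg _) (by simpa using fro_le_norm (sv a b U W x)) 2) (by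
      have : ∀ α : Fin 4, fderiv ℝ χ x (Pi.single α 1) ^ 2 ≤ ‖fderiv ℝ χ x‖ ^ 2 := fun α => by
        have h := (fderiv ℝ χ x).le_opNorm (Pi.single α 1)
        rw [Pi.norm_single, norm_one, mul_one, Real.norm_eq_abs] at h
        exact sq_le_sq' (neg_le_of_abs_le h) (le_of_abs_le h)
      refine (Finset.sum_le_sum fun α _ => this α).trans (le_of_eq ?_)
      simp only [Finset.sum_const, Finset.card_univ, Fintype.card_fin, nsmul_eq_mul]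
      push_cast
      ring)
  have d : ∀ v, fderiv ℝ (fun y => χ y ^ 4) x v = 4 * χ x ^ 3 * fderiv ℝ χ x v := fun v => by
    have d2 : fderiv ℝ (fun y => χ y ^ 4) x = _ :=
      ((hχ.differentiable one_ne_zero x).hasFDerivAt.pow 4).fderiv
    rw [d2]
    simp
  have g1 : fro (G x) ≤ 4 * ‖G x‖ := by simpa using fro_le_norm (G x)
  have g2 : ‖G x‖ ≤ 4 * fro (G x) := by simpa using norm_le_fro (G x)
  have c0 := χ0 x
  have a2 : χ x ^ 4 * (‖G x‖ ^ 4 / wt h (W x) ^ 3) ≤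
      χ x ^ 4 * ((4 * fro (G x)) ^ 4 / wt h (W x) ^ 3) := by gcongr
  have a3 : h * (fro (G x) ^ 2 * (4 * sg a b U W x) ^ 2) ≤
      h * ((4 * ‖G x‖) ^ 2 * (4 * sg a b U W x) ^ 2) := by gcongr
  have q0 : 0 ≤ h * (‖G x‖ ^ 2 * sg a b U W x ^ 2) := by positivity
  have q1 : 0 ≤ sg a b U W x ^ 4 / h := by positivity
  have q2 : 0 ≤ ‖fderiv ℝ χ x‖ ^ 4 * (‖W x‖ ^ 4 * wt h (W x) ^ 5) := by positivity
  simp only [pr, col_BB, d, show 4 - 2 = 2 from rfl]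
  ring_nf at a1 a2 a3 q0 q1 q2 ⊢
  linarith

/-- The Caccioppoli inequality for an arbitrary field `W k` with defect `sg` (port of `NH.star`;
where `1 ≤ ‖W‖` use `1 / wt ≤ h`, elsewhere `wt ≤ 2 / h`). -/
theorem star4 (T : Str a b L) : ∃ C : ℝ, 1 ≤ C ∧ ∀ (Ω : Set (D 4)) (u : D 4 → V m)
    (G : D 4 → D 4 →L[ℝ] V m), Sob Ω u G → Eqn a b Ω u G → ∀ (x0 : D 4) (R : ℝ)
    (U W : ℕ → D 4 → V m), closedBall x0 R ⊆ Ω → Apx (closedBall x0 R) u G U →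
    (∀ k, ContDiff ℝ 1 (W k)) → ∀ χ : D 4 → ℝ, ContDiff ℝ 1 χ → tsupport χ ⊆ closedBall x0 R →
    (∀ x, 0 ≤ χ x) → (∀ x, χ x ≤ 1) → ∀ h : ℝ, 0 < h → h ≤ 1 → ∀ ε : ℝ, 0 < ε →
    ∀ᶠ k in atTop,
      ∫ x in closedBall x0 R, χ x ^ 4 * (‖G x‖ ^ 4 / wt h (W k x) ^ 3) ≤
        C * ((∫ x in closedBall x0 R,
            (h * (‖G x‖ ^ 2 * sg a b (U k) (W k) x ^ 2) + sg a b (U k) (W k) x ^ 4 / h)) +
          ∫ x in closedBall x0 R, ‖fderiv ℝ χ x‖ ^ 4 * (‖W k x‖ ^ 4 * wt h (W k x) ^ 5)) + ε := by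
  refine ⟨10 ^ 10, by norm_num, ?_⟩
  intro Ω u G S E x0 R U W hK hU hW χ hχ hs χ0 χ1 h hh h1 ε hε
  have sρ : tsupport (fun y => χ y ^ 4) ⊆ closedBall x0 R := by
    refine subset_trans (closure_mono fun x hx => ?_) hs
    intro h0
    exact hx (by simp only [h0, zero_pow four_ne_zero])
  filter_upwards [prestar (by norm_num) T S E hK hU hW (hχ.pow 4) sρ
    (fun x => pow_nonneg (χ0 x) 4) (fun x => pow_le_one₀ (χ0 x) (χ1 x)) hh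
    (by positivity : 0 < ε / 1024)] with k ⟨f, i0, f1, f2⟩
  have K := isCompact_closedBall x0 R
  have cs := sg_cont T ((hU.sm k).of_le (by simp)) (hW k)
  have i2 : IntegrableOn (fun x => ‖G x‖ ^ 2) (closedBall x0 R) := by
    refine ((integrableOn_const (C := (1 : ℝ)) K.measure_lt_top.ne).add
      (S.powG (by norm_num)).integrableOn).mono'
      ((continuous_pow 2).comp_stronglyMeasurable S.mG.norm).aestronglyMeasurable
      (ae_of_all _ fun x => ?_)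
    rw [Real.norm_of_nonneg (by positivity), Pi.add_apply]
    nlinarith [sq_nonneg (‖G x‖ ^ 2 - 1), sq_nonneg ‖G x‖]
  have i3 : IntegrableOn (fun x => h * (‖G x‖ ^ 2 * sg a b (U k) (W k) x ^ 2) +
      sg a b (U k) (W k) x ^ 4 / h) (closedBall x0 R) :=
    ((i2.mul_continuousOn (cs.pow 2).continuousOn K).const_mul h).add
      (((cs.pow 4).div_const h).continuousOn.integrableOn_compact K)
  have i4 : IntegrableOn (fun x => ‖fderiv ℝ χ x‖ ^ 4 * (‖W k x‖ ^ 4 * wt h (W k x) ^ 5))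
      (closedBall x0 R) :=
    (((hχ.continuous_fderiv one_ne_zero).norm.pow 4).mul (((hW k).continuous.norm.pow 4).mul
      (((continuous_wt h).comp (hW k).continuous).pow 5))).continuousOn.integrableOn_compact K
  have j0 := i0.const_mul (1024 * h)
  have j3 := (i3.add i4).const_mul (10 ^ 10)
  have le := integral_mono_of_nonneg (μ := volume.restrict (closedBall x0 R))
    (f := fun x => χ x ^ 4 * (‖G x‖ ^ 4 / wt h (W k x) ^ 3))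
    (ae_of_all _ fun x => mul_nonneg (pow_nonneg (χ0 x) 4) (div_nonneg (by positivity)
      (pow_nonneg (zero_le_one.trans (one_le_wt h _)) 3))) (j0.add j3)
    (ae_of_all _ fun x => (star4_BB hh h1 hχ χ0 χ1 (U k) (W k) x).trans
      (add_le_add (mul_le_mul_of_nonneg_left (f2 x) (by positivity)) le_rfl))
  rw [integral_add' j0 j3, integral_const_mul, integral_const_mul, integral_add' i3 i4] at le
  have a1 := mul_le_mul_of_nonneg_left f1 hh.le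
  have a2 := mul_le_mul_of_nonneg_right h1 hε.le
  linarith

end Pool.Agent.Lib.MP_a785f2_an.N4
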