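import Mathlib

/-!
One step of the development recursion, second order form: the source of the defect is an
antisymmetric bilinear form of the increment and the derivative, up to a small remainder.
-/

open scoped RealInnerProductSpace

namespace Pool.Agent.Lib.MP_a785f2_an.N4

variable {F : Type*} [NormedAddCommGroup F] [InnerProductSpace ℝ F]

/-- The curvature form of the development. -/
noncomputable def curv (A : F →L[ℝ] F →L[ℝ] F) (Θ : F →ₗ[ℝ] F →ₗ[ℝ] F) (κ : ℝ)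
    (W v w : F) : F :=
  ⟪W, w⟫ • v - ⟪W, v⟫ • w + (Θ v w - Θ w v) + κ • (A w v - A v w) +
    (A v (A w W) - A w (A v W))

theorem curv_split (A : F →L[ℝ] F →L[ℝ] F) (Θ : F →ₗ[ℝ] F →ₗ[ℝ] F) (κ : ℝ)
    (W V p q : F) (s t : ℝ) :
    curv A Θ κ W (p + s • V) (q + t • V) =
      curv A Θ κ W p (q + t • V) + s • curv A Θ κ W V q := by
  simp only [curv, map_add, map_smul, add_apply, smul_apply, LinearMap.add_apply,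
    LinearMap.smul_apply, inner_add_right, real_inner_smul_right]
  module

theorem ap2 (A : F →L[ℝ] F →L[ℝ] F) {c : ℝ} (hA : ‖A‖ ≤ c) (x y : F) :
    ‖A x y‖ ≤ c * ‖x‖ * ‖y‖ :=
  (A.le_opNorm₂ x y).trans (by gcongr)

theorem curv_le (A : F →L[ℝ] F →L[ℝ] F) (Θ : F →ₗ[ℝ] F →ₗ[ℝ] F) {c κ : ℝ}
    (hc : 1 ≤ c) (hA : ‖A‖ ≤ c) (hΘ : ∀ x y, ‖Θ x y‖ ≤ c * κ * (‖x‖ * ‖y‖)) (W v w : F) (hW : ‖W‖ ≤ κ) :
    ‖curv A Θ κ W v w‖ ≤ 8 * c ^ 2 * κ * (‖v‖ * ‖w‖) := by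
  have hκ : 0 ≤ κ := (norm_nonneg _).trans hW
  have c0 : 0 ≤ c := by linarith
  have hP : 0 ≤ κ * (‖v‖ * ‖w‖) := by positivity
  set P := κ * (‖v‖ * ‖w‖) with hPd
  have h1 : ‖⟪W, w⟫ • v‖ ≤ P := by
    rw [norm_smul, Real.norm_eq_abs]
    calc |⟪W, w⟫| * ‖v‖ ≤ (‖W‖ * ‖w‖) * ‖v‖ := by gcongr; exact abs_real_inner_le_norm _ _
      _ ≤ (κ * ‖w‖) * ‖v‖ := by gcongr
      _ = P := by rw [hPd]; ring
  have h2 : ‖⟪W, v⟫ • w‖ ≤ P := by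
    rw [norm_smul, Real.norm_eq_abs]
    calc |⟪W, v⟫| * ‖w‖ ≤ (‖W‖ * ‖v‖) * ‖w‖ := by gcongr; exact abs_real_inner_le_norm _ _
      _ ≤ (κ * ‖v‖) * ‖w‖ := by gcongr
      _ = P := by rw [hPd]; ring
  have h3 : ‖Θ v w‖ ≤ c * P := (hΘ v w).trans (le_of_eq (by rw [hPd]; ring))
  have h4 : ‖Θ w v‖ ≤ c * P := (hΘ w v).trans (le_of_eq (by rw [hPd]; ring))
  have h5 : ‖κ • (A w v - A v w)‖ ≤ 2 * c * P := by
    rw [norm_smul, Real.norm_of_nonneg hκ]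
    calc κ * ‖A w v - A v w‖ ≤ κ * (c * ‖w‖ * ‖v‖ + c * ‖v‖ * ‖w‖) := by
          gcongr; exact (norm_sub_le _ _).trans (add_le_add (ap2 A hA _ _) (ap2 A hA _ _))
      _ = 2 * c * P := by rw [hPd]; ring
  have h6 : ‖A v (A w W)‖ ≤ c ^ 2 * P :=
    (ap2 A hA _ _).trans (by
      calc c * ‖v‖ * ‖A w W‖ ≤ c * ‖v‖ * (c * ‖w‖ * ‖W‖) := by gcongr; exact ap2 A hA _ _
        _ ≤ c * ‖v‖ * (c * ‖w‖ * κ) := by gcongr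
        _ = c ^ 2 * P := by rw [hPd]; ring)
  have h7 : ‖A w (A v W)‖ ≤ c ^ 2 * P :=
    (ap2 A hA _ _).trans (by
      calc c * ‖w‖ * ‖A v W‖ ≤ c * ‖w‖ * (c * ‖v‖ * ‖W‖) := by gcongr; exact ap2 A hA _ _
        _ ≤ c * ‖w‖ * (c * ‖v‖ * κ) := by gcongr
        _ = c ^ 2 * P := by rw [hPd]; ring)
  have hc2 : c ≤ c ^ 2 := by nlinarith
  have e1 : P ≤ c ^ 2 * P := by nlinarith
  have e2 : c * P ≤ c ^ 2 * P := by gcongr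
  unfold curv
  calc _ ≤ ‖⟪W, w⟫ • v - ⟪W, v⟫ • w‖ + ‖Θ v w - Θ w v‖ + ‖κ • (A w v - A v w)‖ +
        ‖A v (A w W) - A w (A v W)‖ :=
        (norm_add_le _ _).trans (add_le_add ((norm_add_le _ _).trans
          (add_le_add (norm_add_le _ _) le_rfl)) le_rfl)
    _ ≤ (P + P) + (c * P + c * P) + 2 * c * P + (c ^ 2 * P + c ^ 2 * P) :=
        add_le_add (add_le_add (add_le_add ((norm_sub_le _ _).trans (add_le_add h1 h2))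
          ((norm_sub_le _ _).trans (add_le_add h3 h4))) h5)
          ((norm_sub_le _ _).trans (add_le_add h6 h7))
    _ ≤ 8 * c ^ 2 * P := by nlinarith
    _ = _ := by rw [hPd]; ring

/-- The wedge bound: only the parts transverse to `V` count. -/
theorem curv_wedge (A : F →L[ℝ] F →L[ℝ] F) (Θ : F →ₗ[ℝ] F →ₗ[ℝ] F) {c κ : ℝ}
    (hc : 1 ≤ c) (hA : ‖A‖ ≤ c) (hΘ : ∀ x y, ‖Θ x y‖ ≤ c * κ * (‖x‖ * ‖y‖)) (W V v w : F) (hW : ‖W‖ ≤ κ) (hV : ‖V‖ ≤ 1) :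
    ‖curv A Θ κ W v w‖ ≤
      8 * c ^ 2 * κ * (‖v - ⟪V, v⟫ • V‖ * ‖w‖ + ‖v‖ * ‖w - ⟪V, w⟫ • V‖) := by
  have hκ : 0 ≤ κ := (norm_nonneg _).trans hW
  have h := curv_split A Θ κ W V (v - ⟪V, v⟫ • V) (w - ⟪V, w⟫ • V) ⟪V, v⟫ ⟪V, w⟫
  rw [sub_add_cancel, sub_add_cancel] at h
  rw [h]
  have h1 := curv_le A Θ hc hA hΘ W (v - ⟪V, v⟫ • V) w hW
  have h2 := curv_le A Θ hc hA hΘ W V (w - ⟪V, w⟫ • V) hW
  have h3 : |⟪V, v⟫| ≤ ‖v‖ :=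
    (abs_real_inner_le_norm _ _).trans (mul_le_of_le_one_left (norm_nonneg _) hV)
  have h4 : ‖⟪V, v⟫ • curv A Θ κ W V (w - ⟪V, w⟫ • V)‖ ≤
      8 * c ^ 2 * κ * (‖v‖ * ‖w - ⟪V, w⟫ • V‖) := by
    rw [norm_smul, Real.norm_eq_abs]
    calc _ ≤ ‖v‖ * (8 * c ^ 2 * κ * (‖V‖ * ‖w - ⟪V, w⟫ • V‖)) := by gcongr
      _ ≤ ‖v‖ * (8 * c ^ 2 * κ * (1 * ‖w - ⟪V, w⟫ • V‖)) := by gcongr
      _ = _ := by ring
  calc _ ≤ _ := norm_add_le _ _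
    _ ≤ _ := add_le_add h1 h4
    _ = _ := by ring

/-- Second order expansion of `sqrt (1 + |W|^2)` along one step. -/
theorem kap_exp (W v z : F) {κ κ' c : ℝ} (hκ : κ ^ 2 = 1 + ‖W‖ ^ 2) (k0 : 0 < κ)
    (hκ' : κ' ^ 2 = 1 + ‖W + κ • v - z‖ ^ 2) (k0' : 0 < κ') (hz : ⟪W, z⟫ = 0)
    (hzn : ‖z‖ ≤ c * ‖v‖ * κ) (hv : ‖v‖ ≤ 1 / 2) :
    |κ' - κ - ⟪W, v⟫| ≤ 2 * (1 + (1 + c) ^ 2) * κ * ‖v‖ ^ 2 := by
  have hW : ‖W‖ ≤ κ := by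
    refine abs_le_of_sq_le_sq' ?_ k0.le |>.2
    linarith
  set t := ⟪W, v⟫ with ht
  have htb : |t| ≤ κ * ‖v‖ := (abs_real_inner_le_norm _ _).trans (by gcongr)
  set y := κ • v - z with hy
  have hyb : ‖y‖ ≤ (1 + c) * κ * ‖v‖ := by
    calc ‖y‖ ≤ ‖κ • v‖ + ‖z‖ := norm_sub_le _ _
      _ ≤ κ * ‖v‖ + c * ‖v‖ * κ := by rw [norm_smul, Real.norm_of_nonneg k0.le]; gcongr
      _ = _ := by ring
  have e1 : κ' ^ 2 = κ ^ 2 + 2 * κ * t + ‖y‖ ^ 2 := by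
    rw [hκ', hκ, add_sub_assoc, ← hy, norm_add_sq_real, hy, inner_sub_right,
      real_inner_smul_right, hz]
    ring
  have e2 : (κ' - κ - t) * (κ' + κ + t) = ‖y‖ ^ 2 - t ^ 2 := by nlinarith
  have t1 : κ * ‖v‖ ≤ κ / 2 := by nlinarith
  have t2 : κ / 2 ≤ κ' + κ + t := by have := (abs_le.1 htb).1; linarith
  have t3 : t ^ 2 ≤ (κ * ‖v‖) ^ 2 := by
    rw [← sq_abs t]; exact pow_le_pow_left₀ (abs_nonneg _) htb 2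
  have t4 : ‖y‖ ^ 2 ≤ ((1 + c) * κ * ‖v‖) ^ 2 := pow_le_pow_left₀ (norm_nonneg _) hyb 2
  have t5 : |κ' - κ - t| * (κ / 2) ≤ (1 + (1 + c) ^ 2) * (κ * ‖v‖) ^ 2 := by
    calc |κ' - κ - t| * (κ / 2) ≤ |κ' - κ - t| * (κ' + κ + t) := by gcongr
      _ = |‖y‖ ^ 2 - t ^ 2| := by
          rw [← e2, abs_mul, abs_of_nonneg (by linarith : 0 ≤ κ' + κ + t)]
      _ ≤ ‖y‖ ^ 2 + t ^ 2 := by
          rw [abs_le]; constructor <;> nlinarith [sq_nonneg t, sq_nonneg ‖y‖]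
      _ ≤ _ := by nlinarith
  have t6 : |κ' - κ - t| * (κ / 2) ≤ (2 * (1 + (1 + c) ^ 2) * κ * ‖v‖ ^ 2) * (κ / 2) := by
    refine t5.trans (le_of_eq ?_); ring
  exact le_of_mul_le_mul_right t6 (by positivity)

/-- The step, operator form. -/
theorem step_core (A : F →L[ℝ] F →L[ℝ] F) (Θ : F →ₗ[ℝ] F →ₗ[ℝ] F) (Q A0 A1 : F →L[ℝ] F)
    {c κ κ' om : ℝ} (W V v w e S Dw : F) (hc : 1 ≤ c) (hA : ‖A‖ ≤ c)
    (hΘ : ∀ x y, ‖Θ x y‖ ≤ c * κ * (‖x‖ * ‖y‖)) (hκ : κ ^ 2 = 1 + ‖W‖ ^ 2) (k0 : 0 < κ)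
    (hκ' : κ' ^ 2 = 1 + ‖W + κ • v - Q W‖ ^ 2) (k0' : 0 < κ') (hV : ‖V‖ ≤ 1)
    (sQ : ⟪W, Q W⟫ = 0) (sA : ⟪W, A w W⟫ = 0) (om0 : 0 ≤ om) (hv : ‖v‖ ≤ 1 / 2)
    (hQ : ‖Q‖ ≤ c * ‖v‖) (hQA : ‖Q - A v‖ ≤ c * om * ‖v‖)
    (hD : ‖Dw - Θ w v‖ ≤ c * κ * om * (‖v‖ * ‖w‖))
    (h5 : ‖A1 W - A0 W - Θ v w‖ ≤ c * κ * (‖v‖ * (om * ‖w‖ + ‖e‖)))
    (h6 : ‖A1 - A w‖ ≤ c * ((om + ‖v‖) * ‖w‖ + ‖e‖)) :
    ‖(S + κ • w - A w W) + κ • e + (⟪W, S + κ • w - A w W⟫ / κ) • v - Dw - (A0 W - A w W) -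
        Q (S + κ • w - A w W) - κ' • (w + e) + A1 (W + κ • v - Q W)‖ ≤
      (1 + 2 * c * ‖v‖) * ‖S‖ + 20 * c ^ 3 * κ *
        (‖v - ⟪V, v⟫ • V‖ * ‖w‖ + ‖v‖ * ‖w - ⟪V, w⟫ • V‖ +
          ‖v‖ * ((om + ‖v‖) * ‖w‖ + ‖e‖)) := by
  have c0 : 0 ≤ c := by linarith
  have hW : ‖W‖ ≤ κ := (abs_le_of_sq_le_sq' (by linarith) k0.le).2
  have hQW : ‖Q W‖ ≤ c * ‖v‖ * κ := (Q.le_opNorm W).trans (by gcongr)
  have hk := kap_exp W v (Q W) hκ k0 hκ' k0' sQ hQW hv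
  have hin : ⟪W, S + κ • w - A w W⟫ / κ = ⟪W, S⟫ / κ + ⟪W, w⟫ := by
    rw [inner_sub_right, inner_add_right, real_inner_smul_right, sA]
    field_simp
    ring
  have hid : (S + κ • w - A w W) + κ • e + (⟪W, S + κ • w - A w W⟫ / κ) • v - Dw -
      (A0 W - A w W) - Q (S + κ • w - A w W) - κ' • (w + e) + A1 (W + κ • v - Q W) =
      (S + (⟪W, S⟫ / κ) • v - Q S) + curv A Θ κ W v w +
        ((-(κ' - κ - ⟪W, v⟫) • (w + e) - ⟪W, v⟫ • e) - (Dw - Θ w v) - κ • (Q - A v) w +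
          (Q - A v) (A w W) + (A1 W - A0 W - Θ v w) +
          ((A1 - A w) (κ • v - Q W) - A w ((Q - A v) W))) := by
    rw [hin]
    simp only [curv, map_add, map_sub, map_smul, sub_apply]
    module
  rw [hid]
  set P := κ * (‖v‖ * ((om + ‖v‖) * ‖w‖ + ‖e‖)) with hP
  have nv := norm_nonneg v
  have nw := norm_nonneg w
  have ne := norm_nonneg e
  have P0 : 0 ≤ P := by positivity
  have p1 : κ * (om * (‖v‖ * ‖w‖)) ≤ P := by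
    rw [hP]; gcongr κ * ?_
    nlinarith [mul_nonneg nv (mul_nonneg nv nw), mul_nonneg nv ne]
  have c2 : c ≤ c ^ 2 := by nlinarith
  have c3 : c ^ 2 ≤ c ^ 3 := by nlinarith
  have b0 : ‖S + (⟪W, S⟫ / κ) • v - Q S‖ ≤ (1 + 2 * c * ‖v‖) * ‖S‖ := by
    have e1 : ‖(⟪W, S⟫ / κ) • v‖ ≤ ‖S‖ * ‖v‖ := by
      rw [norm_smul, Real.norm_eq_abs, abs_div, abs_of_pos k0]
      gcongr
      rw [div_le_iff₀ k0, mul_comm]
      exact (abs_real_inner_le_norm _ _).trans (by gcongr)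
    have e2 : ‖Q S‖ ≤ c * ‖v‖ * ‖S‖ := (Q.le_opNorm S).trans (by gcongr)
    have e3 : ‖S‖ * ‖v‖ ≤ c * ‖v‖ * ‖S‖ := by
      have := mul_nonneg (norm_nonneg S) nv
      nlinarith
    calc _ ≤ ‖S‖ + ‖(⟪W, S⟫ / κ) • v‖ + ‖Q S‖ :=
          (norm_sub_le _ _).trans (add_le_add (norm_add_le _ _) le_rfl)
      _ ≤ _ := by linarith
  have b1 : ‖-(κ' - κ - ⟪W, v⟫) • (w + e) - ⟪W, v⟫ • e‖ ≤ 11 * c ^ 3 * P := by
    have e1 : ‖-(κ' - κ - ⟪W, v⟫) • (w + e)‖ ≤ 10 * c ^ 2 * P := by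
      rw [norm_smul, norm_neg, Real.norm_eq_abs]
      have f1 : ‖v‖ * ‖w + e‖ ≤ (om + ‖v‖) * ‖w‖ + ‖e‖ := by
        have := mul_le_mul_of_nonneg_left (norm_add_le w e) nv
        nlinarith [mul_nonneg om0 nw]
      have f2 : 2 * (1 + (1 + c) ^ 2) ≤ 10 * c ^ 2 := by nlinarith
      calc _ ≤ 2 * (1 + (1 + c) ^ 2) * κ * ‖v‖ ^ 2 * ‖w + e‖ := by gcongr
        _ = 2 * (1 + (1 + c) ^ 2) * (κ * (‖v‖ * (‖v‖ * ‖w + e‖))) := by ring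
        _ ≤ 10 * c ^ 2 * P := by rw [hP]; gcongr
    have e2 : ‖⟪W, v⟫ • e‖ ≤ P := by
      rw [norm_smul, Real.norm_eq_abs]
      calc |⟪W, v⟫| * ‖e‖ ≤ κ * ‖v‖ * ‖e‖ := by
            gcongr; exact (abs_real_inner_le_norm _ _).trans (by gcongr)
        _ = κ * (‖v‖ * ‖e‖) := by ring
        _ ≤ P := by
            rw [hP]; gcongr
            nlinarith [mul_nonneg (add_nonneg om0 nv) nw]
    have e3 : 10 * c ^ 2 * P + P ≤ 11 * c ^ 3 * P := by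
      have : 10 * c ^ 2 + 1 ≤ 11 * c ^ 3 := by linarith
      nlinarith
    exact (norm_sub_le _ _).trans (by linarith)
  have b2 : ‖Dw - Θ w v‖ ≤ c ^ 3 * P :=
    calc _ ≤ _ := hD
      _ = c * (κ * (om * (‖v‖ * ‖w‖))) := by ring
      _ ≤ c ^ 3 * P := by gcongr; linarith
  have b3 : ‖κ • (Q - A v) w‖ ≤ c ^ 3 * P := by
    rw [norm_smul, Real.norm_of_nonneg k0.le]
    calc κ * ‖(Q - A v) w‖ ≤ κ * (c * om * ‖v‖ * ‖w‖) := by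
          gcongr; exact ((Q - A v).le_opNorm w).trans (by gcongr)
      _ = c * (κ * (om * (‖v‖ * ‖w‖))) := by ring
      _ ≤ c ^ 3 * P := by gcongr; linarith
  have b4 : ‖(Q - A v) (A w W)‖ ≤ c ^ 3 * P :=
    calc _ ≤ ‖Q - A v‖ * ‖A w W‖ := (Q - A v).le_opNorm _
      _ ≤ c * om * ‖v‖ * (c * ‖w‖ * κ) := by
          gcongr; exact (ap2 A hA _ _).trans (by gcongr)
      _ = c ^ 2 * (κ * (om * (‖v‖ * ‖w‖))) := by ring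
      _ ≤ c ^ 3 * P := by gcongr
  have b5 : ‖A1 W - A0 W - Θ v w‖ ≤ c ^ 3 * P :=
    calc _ ≤ _ := h5
      _ = c * (κ * (‖v‖ * (om * ‖w‖ + ‖e‖))) := by ring
      _ ≤ c ^ 3 * P := by
          rw [hP]; gcongr
          · linarith
          · linarith
  have b6 : ‖(A1 - A w) (κ • v - Q W) - A w ((Q - A v) W)‖ ≤ 3 * c ^ 3 * P := by
    have e0 : ‖κ • v - Q W‖ ≤ 2 * c * (κ * ‖v‖) := by
      have : ‖κ • v‖ = κ * ‖v‖ := by rw [norm_smul, Real.norm_of_nonneg k0.le]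
      have h2 := norm_sub_le (κ • v) (Q W)
      have h3 := mul_nonneg k0.le nv
      nlinarith
    have e1 : ‖(A1 - A w) (κ • v - Q W)‖ ≤ 2 * c ^ 3 * P :=
      calc _ ≤ ‖A1 - A w‖ * ‖κ • v - Q W‖ := (A1 - A w).le_opNorm _
        _ ≤ c * ((om + ‖v‖) * ‖w‖ + ‖e‖) * (2 * c * (κ * ‖v‖)) := by gcongr
        _ = 2 * c ^ 2 * P := by rw [hP]; ring
        _ ≤ 2 * c ^ 3 * P := by gcongr
    have e2 : ‖A w ((Q - A v) W)‖ ≤ c ^ 3 * P :=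
      calc _ ≤ c * ‖w‖ * ‖(Q - A v) W‖ := ap2 A hA _ _
        _ ≤ c * ‖w‖ * (c * om * ‖v‖ * κ) := by
            gcongr; exact ((Q - A v).le_opNorm W).trans (by gcongr)
        _ = c ^ 2 * (κ * (om * (‖v‖ * ‖w‖))) := by ring
        _ ≤ c ^ 3 * P := by gcongr
    exact (norm_sub_le _ _).trans (by linarith)
  have bc := curv_wedge A Θ hc hA hΘ W V v w hW hV
  set T := ‖v - ⟪V, v⟫ • V‖ * ‖w‖ + ‖v‖ * ‖w - ⟪V, w⟫ • V‖ with hT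
  have T0 : 0 ≤ κ * T := by positivity
  have bc' : 8 * c ^ 2 * κ * T ≤ 20 * c ^ 3 * (κ * T) := by
    rw [mul_assoc (8 * c ^ 2)]; gcongr ?_ * _; nlinarith
  have bR := (norm_add_le _ _).trans (add_le_add ((norm_add_le _ _).trans (add_le_add
    ((norm_add_le _ _).trans (add_le_add ((norm_sub_le _ _).trans (add_le_add
      ((norm_sub_le _ _).trans (add_le_add b1 b2)) b3)) b4)) b5)) b6)
  have c30 : 0 ≤ c ^ 3 * P := by positivity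
  calc _ ≤ _ := (norm_add_le _ _).trans (add_le_add ((norm_add_le _ _).trans
        (add_le_add b0 (bc.trans bc'))) bR)
    _ ≤ (1 + 2 * c * ‖v‖) * ‖S‖ + 20 * c ^ 3 * (κ * T) + 20 * c ^ 3 * P := by linarith
    _ = _ := by rw [hP]; ring

end Pool.Agent.Lib.MP_a785f2_an.N4
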