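import Pool.Agent.Lib.MP_a785f2_an.N4.Defs
import Pool.Agent.Lib.MP_a785f2_an.N4.StepA
import Pool.Agent.Lib.MP_a785f2_an.NH.Rec

open MeasureTheory Metric Set Filter Topology
open scoped ContDiff RealInnerProductSpace ENNReal Convolution

namespace Pool.Agent.Lib.MP_a785f2_an.N4

open HS NH

variable {n m : ℕ} {H : Type} [NormedAddCommGroup H] [NormedSpace ℝ H]
  {a : V m → H →L[ℝ] V m →L[ℝ] V m} {b : V m → H} {L : ℝ}

theorem ap2' (A : H →L[ℝ] V m →L[ℝ] V m) {c d : ℝ} (hA : ‖A‖ ≤ c) {p : H} (hp : ‖p‖ ≤ d) :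
    ‖A p‖ ≤ c * d :=
  (A.le_opNorm p).trans (mul_le_mul hA hp (norm_nonneg _) ((norm_nonneg A).trans hA))

/-- The fine step in one direction. -/
theorem fine_dir (S : Str a b L) (p p' W v0 w w' Sv : V m) {om : ℝ} (hv0 : ‖v0‖ ≤ 1)
    (hs : ‖p' - p‖ ≤ 1 / 2) (om0 : 0 ≤ om) (om1 : om ≤ 1)
    (h1 : ‖a p' - a p - fderiv ℝ a p (p' - p)‖ ≤ om * ‖p' - p‖)
    (h2 : ‖b p' - b p - fderiv ℝ b p (p' - p)‖ ≤ om * ‖p' - p‖)
    (h3 : ‖fderiv ℝ b p' - fderiv ℝ b p‖ ≤ om) (Dv : V m)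
    (hD : Sv = Dv - br W • w + a p (fderiv ℝ b p w) W) :
    ‖(Dv + (br W • (w' - w) + ((br W)⁻¹ * ⟪W, Dv⟫) • (p' - p)) -
        (fderiv ℝ a p w (b p' - b p) W + a p (fderiv ℝ b p' w' - fderiv ℝ b p w) W +
          a p (b p' - b p) Dv)) - br (W + br W • (p' - p) - a p (b p' - b p) W) • w' +
        a p' (fderiv ℝ b p' w') (W + br W • (p' - p) - a p (b p' - b p) W)‖ ≤
      (1 + 2 * (2 * L ^ 2) * ‖p' - p‖) * ‖Sv‖ + 20 * (2 * L ^ 2) ^ 3 * br W *
        (‖TV v0 (p' - p)‖ * ‖w‖ + ‖p' - p‖ * ‖TV v0 w‖ +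
          ‖p' - p‖ * ((om + ‖p' - p‖) * ‖w‖ + ‖w' - w‖)) := by
  have L1 := S.L1
  have L0 : 0 ≤ L := by linarith
  have L2 : L ≤ L ^ 2 := by nlinarith
  have hW := norm_le_br W
  have k0 := br_pos W
  set v := p' - p with hv
  set e := w' - w with he
  have nv := norm_nonneg v
  have nw := norm_nonneg w
  have ne := norm_nonneg e
  have hw' : ‖w'‖ ≤ ‖w‖ + ‖e‖ := by
    have := norm_add_le w e; rwa [he, add_sub_cancel] at this
  let Θ : V m →ₗ[ℝ] V m →ₗ[ℝ] V m := LinearMap.mk₂ ℝ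
    (fun x y => fderiv ℝ a p x (fderiv ℝ b p y) W) (by intro x x' y; simp)
    (by intro c x y; simp) (by intro x y y'; simp) (by intro c x y; simp)
  have hΘe : ∀ x y, Θ x y = fderiv ℝ a p x (fderiv ℝ b p y) W := fun x y => rfl
  have hB : ∀ q y, ‖fderiv ℝ b q y‖ ≤ L * ‖y‖ := fun q y =>
    ((fderiv ℝ b q).le_opNorm y).trans (mul_le_mul_of_nonneg_right (S.db q) (norm_nonneg _))
  have apW : ∀ (O : V m →L[ℝ] V m) {c : ℝ}, ‖O‖ ≤ c → ‖O W‖ ≤ c * br W := fun O c h =>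
    (O.le_opNorm W).trans (mul_le_mul h hW (norm_nonneg _) ((norm_nonneg O).trans h))
  have hBB : ‖fderiv ℝ b p' w' - fderiv ℝ b p w‖ ≤ om * ‖w‖ + L * ‖e‖ := by
    have e1 : fderiv ℝ b p' w' - fderiv ℝ b p w =
        (fderiv ℝ b p' - fderiv ℝ b p) w + fderiv ℝ b p' e := by
      rw [he, map_sub, sub_apply]; abel
    rw [e1]
    exact (norm_add_le _ _).trans (add_le_add (((fderiv ℝ b p' - fderiv ℝ b p).le_opNorm w).trans
      (mul_le_mul_of_nonneg_right h3 nw)) (hB _ _))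
  have hw1 : ‖fderiv ℝ b p' w'‖ ≤ L * (‖w‖ + ‖e‖) := (hB _ _).trans (by gcongr)
  have key := step_core (con a b p) Θ (a p (b p' - b p)) (a p (fderiv ℝ b p' w'))
    (a p' (fderiv ℝ b p' w')) (c := 2 * L ^ 2) (κ := br W)
    (κ' := br (W + br W • v - a p (b p' - b p) W)) (om := om) W v0 v w e Sv
    (fderiv ℝ a p w (b p' - b p) W) (by nlinarith)
    ((ContinuousLinearMap.opNorm_comp_le _ _).trans
      ((mul_le_mul (S.ba p) (S.db p) (norm_nonneg _) L0).trans (by nlinarith)))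
    (fun x y => by
      rw [hΘe]
      refine (apW _ (ap2' _ (S.da p x) (hB p y))).trans ?_
      have := mul_nonneg (mul_nonneg (sq_nonneg L) k0.le) (mul_nonneg (norm_nonneg x) (norm_nonneg y))
      nlinarith)
    (sq1_sq W) k0 (sq1_sq _) (br_pos _) hv0
    (by rw [real_inner_comm]; exact S.anti _ _ _)
    (by rw [real_inner_comm]; exact S.anti _ _ _) om0 hs
    ((ap2' _ (S.ba p) (S.lb p' p)).trans (by nlinarith [mul_nonneg (sq_nonneg L) nv]))
    (by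
      have e1 : a p (b p' - b p) - con a b p v = a p (b p' - b p - fderiv ℝ b p v) := by
        rw [map_sub (a p) (b p' - b p)]; rfl
      rw [e1]
      refine (ap2' _ (S.ba p) h2).trans ?_
      have := mul_nonneg om0 nv
      nlinarith)
    (by
      have e1 : fderiv ℝ a p w (b p' - b p) W - Θ w v =
          fderiv ℝ a p w (b p' - b p - fderiv ℝ b p v) W := by
        rw [hΘe, map_sub (fderiv ℝ a p w) (b p' - b p), sub_apply]
      rw [e1]
      refine (apW _ (ap2' _ (S.da p w) h2)).trans ?_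
      have := mul_nonneg (mul_nonneg k0.le om0) (mul_nonneg nv nw)
      nlinarith)
    (by
      have e1 : a p' (fderiv ℝ b p' w') W - a p (fderiv ℝ b p' w') W - Θ v w =
          (a p' - a p - fderiv ℝ a p v) (fderiv ℝ b p' w') W +
            fderiv ℝ a p v (fderiv ℝ b p' w' - fderiv ℝ b p w) W := by
        rw [hΘe]; simp only [map_sub, sub_apply]; abel
      rw [e1]
      refine (norm_add_le _ _).trans ((add_le_add (apW _ (ap2' _ h1 hw1))
        (apW _ (ap2' _ (S.da p v) hBB))).trans ?_)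
      have k1 := mul_nonneg (mul_nonneg k0.le nv) (mul_nonneg om0 nw)
      have k2 := mul_nonneg (mul_nonneg k0.le nv) ne
      have k3 : om * L ≤ L ^ 2 := by nlinarith
      nlinarith [mul_le_mul_of_nonneg_right L2 k1, mul_le_mul_of_nonneg_right k3 k2])
    (by
      have e1 : a p' (fderiv ℝ b p' w') - con a b p w =
          (a p' - a p) (fderiv ℝ b p' w') + a p (fderiv ℝ b p' w' - fderiv ℝ b p w) := by
        rw [map_sub (a p), sub_apply]
        change _ - a p (fderiv ℝ b p w) = _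
        abel
      rw [e1]
      refine (norm_add_le _ _).trans ((add_le_add (ap2' _ (S.la p' p) hw1)
        (ap2' _ (S.ba p) hBB)).trans ?_)
      rw [← hv]
      have k1 := mul_nonneg om0 nw
      have k2 := mul_nonneg nv nw
      have k3 : ‖v‖ * ‖e‖ ≤ ‖e‖ := mul_le_of_le_one_left ne (by linarith)
      have l2 := sq_nonneg L
      nlinarith [mul_le_mul_of_nonneg_right L2 k1, mul_le_mul_of_nonneg_left k3 l2,
        mul_nonneg l2 k1, mul_nonneg l2 k2])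
  have eD : Sv + br W • w - con a b p w W = Dv := by rw [hD, con_apply]; abel
  have ew : w + e = w' := by rw [he]; abel
  rw [eD, ew, ← TV_apply, ← TV_apply] at key
  refine le_trans (le_of_eq ?_) key
  congr 1
  rw [div_eq_inv_mul, con_apply]
  simp only [map_sub (a p) (fderiv ℝ b p' w'), sub_apply]
  abel

theorem br_ratio (S : Str a b L) (U U' W : D n → V m) (x : D n) {d : ℝ}
    (hd : ‖U' x - U x‖ ≤ d) : ‖nxt a b U U' W x - W x‖ ≤ 2 * L ^ 2 * d * br (W x) := by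
  have h1 : ‖nxt a b U U' W x - W x‖ ≤ (1 + L ^ 2) * ‖U' x - U x‖ * br (W x) :=
    rec_step_le (S.ba (U x)) (S.lb (U' x) (U x))
  have h3 : 1 + L ^ 2 ≤ 2 * L ^ 2 := by nlinarith [S.L1]
  have := br_pos (W x)
  exact h1.trans (by gcongr)

theorem vv_sub (w w' : V m) : ‖vv w' - vv w‖ ≤ 2 * ‖w' - w‖ / br w := by
  have k := br_pos w
  have k' := br_pos w'
  have h1 : |br w - br w'| ≤ ‖w' - w‖ := abs_sq1_sub w w'
  have e : vv w' - vv w = (br w)⁻¹ • ((w' - w) + (br w - br w') • vv w') := by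
    rw [vv, vv, smul_add, smul_smul, smul_smul, smul_sub]
    have : (br w)⁻¹ * (br w - br w') * (br w')⁻¹ = (br w')⁻¹ - (br w)⁻¹ := by field_simp
    rw [this]; module
  rw [e, norm_smul, norm_inv, Real.norm_of_nonneg k.le, div_eq_inv_mul]
  gcongr
  refine (norm_add_le _ _).trans ?_
  rw [norm_smul, Real.norm_eq_abs]
  have h2 := mul_le_mul h1 (norm_vv_le w') (norm_nonneg _) (norm_nonneg _)
  linarith

theorem vv_step (S : Str a b L) (U U' W : D n → V m) (x : D n) {d : ℝ}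
    (hd : ‖U' x - U x‖ ≤ d) : ‖vv (nxt a b U U' W x) - vv (W x)‖ ≤ 4 * L ^ 2 * d := by
  refine (vv_sub _ _).trans ?_
  rw [div_le_iff₀ (br_pos _)]
  linarith [br_ratio S U U' W x hd]

/-- The fine step for the relative defect. -/
theorem sg_fine (S : Str a b L) {U U' W : D n → V m} (hU : ContDiff ℝ 1 U)
    (hU' : ContDiff ℝ 1 U') (hW : ContDiff ℝ 1 W) (x : D n) {d A dT AT e om : ℝ} {v0 : V m}
    (hv0 : ‖v0‖ ≤ 1) (hd : ‖U' x - U x‖ ≤ d) (hs : 4 * L ^ 2 * d ≤ 1) (hA : ‖fderiv ℝ U x‖ ≤ A)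
    (hdT : ‖TV v0 (U' x - U x)‖ ≤ dT) (hAT : ‖(TV v0).comp (fderiv ℝ U x)‖ ≤ AT)
    (he : ‖fderiv ℝ U' x - fderiv ℝ U x‖ ≤ e) (om0 : 0 ≤ om) (om1 : om ≤ 1)
    (h1 : ‖a (U' x) - a (U x) - fderiv ℝ a (U x) (U' x - U x)‖ ≤ om * ‖U' x - U x‖)
    (h2 : ‖b (U' x) - b (U x) - fderiv ℝ b (U x) (U' x - U x)‖ ≤ om * ‖U' x - U x‖)
    (h3 : ‖fderiv ℝ b (U' x) - fderiv ℝ b (U x)‖ ≤ om) :
    sg a b U' (nxt a b U U' W) x ≤ (1 + 320 * L ^ 6 * d) * sg a b U W x +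
      320 * L ^ 6 * (dT * A + d * AT + d * ((om + d) * A + e)) := by
  have hd0 : 0 ≤ d := (norm_nonneg _).trans hd
  have hA0 : 0 ≤ A := (norm_nonneg _).trans hA
  have hdT0 : 0 ≤ dT := (norm_nonneg _).trans hdT
  have hAT0 : 0 ≤ AT := (norm_nonneg _).trans hAT
  have he0 : 0 ≤ e := (norm_nonneg _).trans he
  have hL : 1 ≤ L ^ 2 := one_le_pow₀ S.L1
  have hσ := sg_nonneg a b U W x
  have hp := br_pos (nxt a b U U' W x)
  have k0 := br_pos (W x)
  set R := dT * A + d * AT + d * ((om + d) * A + e) with hR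
  have R0 : 0 ≤ R := by positivity
  have hb : br (W x) ≤ (1 + 4 * L ^ 2 * d) * br (nxt a b U U' W x) := by
    have f1 : |br (W x) - br (nxt a b U U' W x)| ≤ _ := (abs_sq1_sub _ _).trans
      (br_ratio S U U' W x hd)
    have f2 := (abs_le.1 f1).2
    have f3 : 0 ≤ L ^ 2 * d := by positivity
    have f4 : br (W x) ≤ 2 * br (nxt a b U U' W x) := by nlinarith
    nlinarith
  rw [sg, div_le_iff₀ hp]
  refine ContinuousLinearMap.opNorm_le_bound _ (by positivity) fun ξ => ?_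
  have hξ := norm_nonneg ξ
  have da := S.ca.differentiable one_ne_zero
  have db := S.cb.differentiable one_ne_zero
  have e2 := rec_fderiv (da (U x)) (db (U x)) (db (U' x)) (hU.differentiable one_ne_zero x)
    (hU'.differentiable one_ne_zero x) (hW.differentiable one_ne_zero x) ξ
  have key := fine_dir S (U x) (U' x) (W x) v0 (fderiv ℝ U x ξ) (fderiv ℝ U' x ξ)
    (dfc a b U W x ξ) hv0 (by nlinarith) om0 om1 h1 h2 h3 (fderiv ℝ W x ξ) rfl
  have e3 : dfc a b U' (nxt a b U U' W) x ξ = fderiv ℝ (nxt a b U U' W) x ξ -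
      br (nxt a b U U' W x) • fderiv ℝ U' x ξ +
      a (U' x) (fderiv ℝ b (U' x) (fderiv ℝ U' x ξ)) (nxt a b U U' W x) := rfl
  have e4 : fderiv ℝ (nxt a b U U' W) x ξ = _ := e2
  rw [e3, e4]
  refine le_trans key ?_
  have s1 : ‖dfc a b U W x ξ‖ ≤ sg a b U W x * br (W x) * ‖ξ‖ := by
    rw [sg, div_mul_cancel₀ _ k0.ne']; exact (dfc a b U W x).le_opNorm ξ
  have s2 : ‖fderiv ℝ U x ξ‖ ≤ A * ‖ξ‖ :=
    ((fderiv ℝ U x).le_opNorm ξ).trans (mul_le_mul_of_nonneg_right hA hξ)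
  have s3 : ‖TV v0 (fderiv ℝ U x ξ)‖ ≤ AT * ‖ξ‖ :=
    (((TV v0).comp (fderiv ℝ U x)).le_opNorm ξ).trans (mul_le_mul_of_nonneg_right hAT hξ)
  have s4 : ‖fderiv ℝ U' x ξ - fderiv ℝ U x ξ‖ ≤ e * ‖ξ‖ :=
    ((fderiv ℝ U' x - fderiv ℝ U x).le_opNorm ξ).trans (mul_le_mul_of_nonneg_right he hξ)
  have c1 : (1 + 2 * (2 * L ^ 2) * d) * (1 + 4 * L ^ 2 * d) ≤ 1 + 320 * L ^ 6 * d := by
    have f3 : 0 ≤ L ^ 2 * d := by positivity
    have l6 : L ^ 2 ≤ L ^ 6 := by nlinarith [pow_le_pow_right₀ S.L1 (by norm_num : 2 ≤ 6)]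
    nlinarith [mul_le_mul_of_nonneg_right l6 hd0]
  have c2 : 20 * (2 * L ^ 2) ^ 3 * (1 + 4 * L ^ 2 * d) ≤ 320 * L ^ 6 := by
    have : 0 ≤ L ^ 6 := by positivity
    nlinarith
  calc _ ≤ (1 + 2 * (2 * L ^ 2) * d) * (sg a b U W x * br (W x) * ‖ξ‖) +
        20 * (2 * L ^ 2) ^ 3 * br (W x) *
          (dT * (A * ‖ξ‖) + d * (AT * ‖ξ‖) + d * ((om + d) * (A * ‖ξ‖) + e * ‖ξ‖)) := by
        gcongr
    _ = ((1 + 2 * (2 * L ^ 2) * d) * sg a b U W x + 20 * (2 * L ^ 2) ^ 3 * R) * ‖ξ‖ *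
          br (W x) := by rw [hR]; ring
    _ ≤ ((1 + 2 * (2 * L ^ 2) * d) * sg a b U W x + 20 * (2 * L ^ 2) ^ 3 * R) * ‖ξ‖ *
          ((1 + 4 * L ^ 2 * d) * br (nxt a b U U' W x)) := by gcongr
    _ = ((1 + 2 * (2 * L ^ 2) * d) * (1 + 4 * L ^ 2 * d) * sg a b U W x +
          20 * (2 * L ^ 2) ^ 3 * (1 + 4 * L ^ 2 * d) * R) * br (nxt a b U U' W x) * ‖ξ‖ := by ring
    _ ≤ _ := by gcongr

end Pool.Agent.Lib.MP_a785f2_an.N4
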